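import Pool.Agent.J6H96.CF.Stm

/-!
# Project CF (helper96), module DIR (helper42): an atom at zero from averages of Fourier coefficients
-/

set_option autoImplicit false

namespace Pool.Agent.J6H96.CF

open Finset MeasureTheory Filter Topology
open scoped ComplexConjugate

/-- the Dirichlet sum `∑_{k < M} e(k t)` -/
noncomputable def dirS (M : ℕ) (t : AddCircle (1 : ℝ)) : ℂ :=
  ∑ k ∈ range M, fourier (k : ℤ) t

lemma dirS_norm_le (M : ℕ) (t : AddCircle (1 : ℝ)) : ‖dirS M t‖ ≤ M := by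
  unfold dirS
  refine (norm_sum_le _ _).trans ?_
  have h : ∀ k ∈ range M, ‖(fourier (k : ℤ) t : ℂ)‖ ≤ 1 := by
    intro k _
    rw [fourier_apply, Circle.norm_coe]
  refine (Finset.sum_le_sum h).trans ?_
  simp

lemma dirS_zero (M : ℕ) : dirS M 0 = M := by
  unfold dirS
  simp

lemma dirS_continuous (M : ℕ) : Continuous (dirS M) := by
  unfold dirS
  exact continuous_finsetSum _ (fun k _ => (fourier (k : ℤ)).continuous)

/-- the character `e(k t)` is the `k`-th power of `e(t)` -/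
lemma fourier_nat_pow (k : ℕ) (t : AddCircle (1 : ℝ)) :
    (fourier (k : ℤ) t : ℂ) = (fourier 1 t : ℂ) ^ k := by
  induction k with
  | zero => simp
  | succ k ih =>
    rw [Nat.cast_succ, fourier_add, ih, pow_succ]

lemma fourier_one_ne (t : AddCircle (1 : ℝ)) (ht : t ≠ 0) : (fourier 1 t : ℂ) ≠ 1 := by
  intro h
  apply ht
  rw [fourier_one] at h
  have h2 : AddCircle.toCircle t = 1 := by
    apply Subtype.ext
    simpa using h
  have h3 : AddCircle.toCircle t = AddCircle.toCircle (0 : AddCircle (1 : ℝ)) := by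
    rw [h2, AddCircle.toCircle_zero]
  exact AddCircle.injective_toCircle one_ne_zero h3

lemma dirS_bound (t : AddCircle (1 : ℝ)) (ht : t ≠ 0) :
    ∃ C : ℝ, ∀ M : ℕ, ‖dirS M t‖ ≤ C := by
  refine ⟨2 / ‖(fourier 1 t : ℂ) - 1‖, fun M => ?_⟩
  have h1 : (fourier 1 t : ℂ) - 1 ≠ 0 := sub_ne_zero.mpr (fourier_one_ne t ht)
  have hs : dirS M t = ((fourier 1 t : ℂ) ^ M - 1) / ((fourier 1 t : ℂ) - 1) := by
    unfold dirS
    rw [← geom_sum_eq (fourier_one_ne t ht)]
    exact Finset.sum_congr rfl (fun k _ => fourier_nat_pow k t)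
  rw [hs, norm_div]
  refine div_le_div_of_nonneg_right ?_ (norm_nonneg _)
  refine (norm_sub_le _ _).trans ?_
  have : ‖(fourier 1 t : ℂ)‖ = 1 := by rw [fourier_apply, Circle.norm_coe]
  rw [norm_pow, this]
  norm_num

/-- the double sum of the characters is a product of squares -/
lemma dir_sum {r : ℕ} (M : ℕ) (x : UnitAddTorus (Fin r)) :
    ∑ v ∈ box r M, ∑ w ∈ box r M, UnitAddTorus.mFourier (fun i => (v i : ℤ) - (w i : ℤ)) x
      = ((∏ i, ‖dirS M (x i)‖ ^ 2 : ℝ) : ℂ) := by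
  have h1 : ∀ v w : Fin r → ℕ, UnitAddTorus.mFourier (fun i => (v i : ℤ) - (w i : ℤ)) x
      = (∏ i, (fourier (v i : ℤ) (x i) : ℂ)) * ∏ i, conj (fourier (w i : ℤ) (x i) : ℂ) := by
    intro v w
    rw [← Finset.prod_mul_distrib]
    simp only [UnitAddTorus.mFourier, ContinuousMap.coe_mk]
    refine Finset.prod_congr rfl (fun i _ => ?_)
    rw [sub_eq_add_neg, fourier_add, fourier_neg]
  simp_rw [h1]
  rw [← Finset.sum_mul_sum]
  have h2 : ∑ v ∈ box r M, ∏ i, (fourier (v i : ℤ) (x i) : ℂ) = ∏ i, dirS M (x i) := by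
    unfold dirS box
    rw [Finset.prod_univ_sum]
  have h3 : ∑ w ∈ box r M, ∏ i, conj (fourier (w i : ℤ) (x i) : ℂ) = ∏ i, conj (dirS M (x i)) := by
    unfold dirS box
    simp_rw [map_sum]
    rw [Finset.prod_univ_sum]
  rw [h2, h3, ← Finset.prod_mul_distrib]
  push_cast
  refine Finset.prod_congr rfl (fun i _ => ?_)
  rw [Complex.mul_conj, Complex.normSq_eq_norm_sq]
  push_cast
  rfl

/-- the normalized kernel -/
noncomputable def dirD {r : ℕ} (M : ℕ) (x : UnitAddTorus (Fin r)) : ℝ :=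
  ∏ i, (‖dirS M (x i)‖ / M) ^ 2

lemma dirD_factor (M : ℕ) (t : AddCircle (1 : ℝ)) :
    0 ≤ (‖dirS M t‖ / M) ^ 2 ∧ (‖dirS M t‖ / M) ^ 2 ≤ 1 := by
  refine ⟨by positivity, ?_⟩
  have h0 : 0 ≤ ‖dirS M t‖ / M := by positivity
  have h1 : ‖dirS M t‖ / M ≤ 1 := div_le_one_of_le₀ (dirS_norm_le M t) (by positivity)
  exact pow_le_one₀ h0 h1

lemma dirD_nonneg {r : ℕ} (M : ℕ) (x : UnitAddTorus (Fin r)) : 0 ≤ dirD M x :=
  Finset.prod_nonneg (fun i _ => (dirD_factor M (x i)).1)

lemma dirD_le_one {r : ℕ} (M : ℕ) (x : UnitAddTorus (Fin r)) : dirD M x ≤ 1 :=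
  Finset.prod_le_one (fun i _ => (dirD_factor M (x i)).1) (fun i _ => (dirD_factor M (x i)).2)

lemma dirD_continuous {r : ℕ} (M : ℕ) : Continuous (dirD (r := r) M) := by
  unfold dirD
  refine continuous_finsetProd _ (fun i _ => ?_)
  exact (((dirS_continuous M).comp (continuous_apply i)).norm.div_const _).pow 2

lemma dirD_le_factor {r : ℕ} (M : ℕ) (x : UnitAddTorus (Fin r)) (i : Fin r) :
    dirD M x ≤ (‖dirS M (x i)‖ / M) ^ 2 := by
  unfold dirD
  rw [← Finset.mul_prod_erase univ _ (Finset.mem_univ i)]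
  refine mul_le_of_le_one_right (dirD_factor M (x i)).1 ?_
  exact Finset.prod_le_one (fun j _ => (dirD_factor M (x j)).1)
    (fun j _ => (dirD_factor M (x j)).2)

lemma dirD_zero {r : ℕ} (M : ℕ) (hM : 1 ≤ M) : dirD M (0 : UnitAddTorus (Fin r)) = 1 := by
  unfold dirD
  refine Finset.prod_eq_one (fun i _ => ?_)
  have : (0 : UnitAddTorus (Fin r)) i = 0 := rfl
  rw [this, dirS_zero, Complex.norm_natCast, div_self, one_pow]
  positivity

lemma dirD_tendsto {r : ℕ} (x : UnitAddTorus (Fin r)) :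
    Tendsto (fun M : ℕ => dirD (M + 1) x) atTop
      (𝓝 (Set.indicator ({0} : Set (UnitAddTorus (Fin r))) (fun _ => (1 : ℝ)) x)) := by
  classical
  by_cases hx : x = 0
  · subst hx
    rw [Set.indicator_of_mem (Set.mem_singleton _)]
    refine tendsto_const_nhds.congr (fun M => ?_)
    rw [dirD_zero _ (Nat.succ_le_succ (Nat.zero_le M))]
  · rw [Set.indicator_of_notMem (by simpa using hx)]
    obtain ⟨i, hi⟩ : ∃ i, x i ≠ 0 := by
      by_contra hcon
      push Not at hcon
      exact hx (funext hcon)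
    obtain ⟨C, hC⟩ := dirS_bound (x i) hi
    have hC0 : 0 ≤ C := (norm_nonneg _).trans (hC 0)
    have hlim : Tendsto (fun M : ℕ => (C / ((M + 1 : ℕ) : ℝ)) ^ 2) atTop (𝓝 0) := by
      have h1 : Tendsto (fun M : ℕ => C / ((M : ℕ) : ℝ)) atTop (𝓝 0) :=
        tendsto_const_nhds.div_atTop tendsto_natCast_atTop_atTop
      have h2 := (h1.comp (tendsto_add_atTop_nat 1)).pow 2
      simpa [Function.comp_def] using h2
    refine squeeze_zero (fun M => dirD_nonneg _ _) (fun M => ?_) hlim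
    refine (dirD_le_factor (M + 1) x i).trans ?_
    have h0 : 0 ≤ ‖dirS (M + 1) (x i)‖ / ((M + 1 : ℕ) : ℝ) := by positivity
    refine pow_le_pow_left₀ h0 ?_ 2
    exact div_le_div_of_nonneg_right (hC _) (by positivity)

/-- the hypothesis for `M` says that the integral of the kernel is at least `δ` -/
lemma dir_integral {r : ℕ} (M : ℕ) (hM : 1 ≤ M)
    (μ : ProbabilityMeasure (UnitAddTorus (Fin r))) :
    ∑ v ∈ box r M, ∑ w ∈ box r M,
      (∫ x, UnitAddTorus.mFourier (fun i => (v i : ℤ) - (w i : ℤ)) x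
        ∂(μ : Measure (UnitAddTorus (Fin r)))).re
      = (M : ℝ) ^ (2 * r) * ∫ x, dirD M x ∂(μ : Measure (UnitAddTorus (Fin r))) := by
  have hint : ∀ n : Fin r → ℤ, Integrable (fun x => UnitAddTorus.mFourier n x)
      (μ : Measure (UnitAddTorus (Fin r))) := by
    intro n
    exact (UnitAddTorus.mFourier n).continuous.integrable_of_hasCompactSupport
      (HasCompactSupport.of_compactSpace _)
  have h1 : ∑ v ∈ box r M, ∑ w ∈ box r M,
      (∫ x, UnitAddTorus.mFourier (fun i => (v i : ℤ) - (w i : ℤ)) x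
        ∂(μ : Measure (UnitAddTorus (Fin r)))).re
      = (∫ x, ∑ v ∈ box r M, ∑ w ∈ box r M,
          UnitAddTorus.mFourier (fun i => (v i : ℤ) - (w i : ℤ)) x
        ∂(μ : Measure (UnitAddTorus (Fin r)))).re := by
    rw [integral_finsetSum _ (fun v _ => integrable_finsetSum _ (fun w _ => hint _)),
      Complex.re_sum]
    refine Finset.sum_congr rfl (fun v _ => ?_)
    rw [integral_finsetSum _ (fun w _ => hint _), Complex.re_sum]
  rw [h1]
  simp_rw [dir_sum]
  rw [integral_complex_ofReal, Complex.ofReal_re, ← integral_const_mul]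
  refine integral_congr_ae (Filter.Eventually.of_forall (fun x => ?_))
  have hM0 : (M : ℝ) ≠ 0 := by positivity
  change ∏ i, ‖dirS M (x i)‖ ^ 2 = (M : ℝ) ^ (2 * r) * dirD M x
  unfold dirD
  simp_rw [div_pow]
  rw [Finset.prod_div_distrib, Finset.prod_const, Finset.card_univ, Fintype.card_fin, ← pow_mul]
  field_simp

/-- **DIR** -/
theorem t_DIR : S_DIR := by
  intro r δ μ h
  have hle : ∀ M : ℕ, δ ≤ ∫ x, dirD (M + 1) x ∂(μ : Measure (UnitAddTorus (Fin r))) := by
    intro M
    have h1 := h (M + 1) (Nat.succ_le_succ (Nat.zero_le M))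
    rw [dir_integral (M + 1) (Nat.succ_le_succ (Nat.zero_le M)) μ, mul_comm] at h1
    exact le_of_mul_le_mul_left h1 (by positivity)
  have hlim : Tendsto (fun M : ℕ => ∫ x, dirD (M + 1) x ∂(μ : Measure (UnitAddTorus (Fin r))))
      atTop (𝓝 (∫ x, Set.indicator ({0} : Set (UnitAddTorus (Fin r))) (fun _ => (1 : ℝ)) x
        ∂(μ : Measure (UnitAddTorus (Fin r))))) := by
    refine tendsto_integral_of_dominated_convergence (fun _ => (1 : ℝ)) ?_ ?_ ?_ ?_
    · intro M
      exact (dirD_continuous (M + 1)).aestronglyMeasurable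
    · exact integrable_const _
    · intro M
      refine Filter.Eventually.of_forall (fun x => ?_)
      rw [Real.norm_eq_abs, abs_of_nonneg (dirD_nonneg _ _)]
      exact dirD_le_one _ _
    · exact Filter.Eventually.of_forall (fun x => dirD_tendsto x)
  rw [integral_indicator (measurableSet_singleton _)] at hlim
  have hval : ∫ _ in ({0} : Set (UnitAddTorus (Fin r))), (1 : ℝ)
      ∂(μ : Measure (UnitAddTorus (Fin r))) = ((μ : Measure (UnitAddTorus (Fin r))) {0}).toReal := by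
    simp [Measure.real]
  rw [hval] at hlim
  exact ge_of_tendsto' hlim hle

end Pool.Agent.J6H96.CF
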