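import Pool.Agent.J6H96.CF.Stm

/-!
# CF-FC: the measure with density `|∑ e(x·θ)|² / |R|` on the torus
-/

set_option autoImplicit false

namespace Pool.Agent.J6H96.CF

open Finset MeasureTheory Filter Topology ComplexConjugate

namespace FCx

/-- Haar probability measure on the torus -/
noncomputable def hm (r : ℕ) : Measure (UnitAddTorus (Fin r)) :=
  Measure.pi fun _ : Fin r => (AddCircle.haarAddCircle : Measure UnitAddCircle)

instance (r : ℕ) : IsProbabilityMeasure (hm r) := by unfold hm; infer_instance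

theorem int_fourier (m : ℤ) :
    ∫ x : UnitAddCircle, fourier m x ∂(AddCircle.haarAddCircle : Measure UnitAddCircle) =
      if m = 0 then 1 else 0 := by
  have h := orthonormal_iff_ite.mp (orthonormal_fourier (T := (1 : ℝ))) 0 m
  simp only [ContinuousMap.inner_toLp, ← fourier_neg, ← fourier_add] at h
  by_cases hm : m = 0
  · subst hm
    simp
  · rw [if_neg hm]
    rw [if_neg (Ne.symm hm)] at h
    rw [← h]
    congr 1
    funext x
    simp

theorem int_mFourier {r : ℕ} (n : Fin r → ℤ) :
    ∫ x, UnitAddTorus.mFourier n x ∂(hm r) = if n = 0 then 1 else 0 := by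
  have h : ∀ x : UnitAddTorus (Fin r), UnitAddTorus.mFourier n x =
      ∏ i, fourier (n i) (x i) := fun x => rfl
  simp only [h]
  unfold hm
  rw [integral_fintype_prod_eq_prod (𝕜 := ℂ) (fun i (x : UnitAddCircle) => fourier (n i) x)]
  simp only [int_fourier]
  by_cases hn : n = 0
  · subst hn
    simp
  · rw [if_neg hn]
    obtain ⟨i, hi⟩ := Function.ne_iff.mp hn
    refine Finset.prod_eq_zero (Finset.mem_univ i) ?_
    exact if_neg hi

theorem integrable_cont {r : ℕ} {f : UnitAddTorus (Fin r) → ℂ} (hf : Continuous f) :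
    Integrable f (hm r) :=
  hf.integrable_of_hasCompactSupport (HasCompactSupport.of_compactSpace f)

/-- the density -/
noncomputable def den {r : ℕ} (R : Finset (Fin r → ℕ)) (x : UnitAddTorus (Fin r)) : ℝ :=
  ‖∑ v ∈ R, UnitAddTorus.mFourier (fun i => (v i : ℤ)) x‖ ^ 2 / R.card

theorem den_cont {r : ℕ} (R : Finset (Fin r → ℕ)) : Continuous (den R) := by
  unfold den
  have h : Continuous fun x : UnitAddTorus (Fin r) =>
      ∑ v ∈ R, UnitAddTorus.mFourier (fun i => (v i : ℤ)) x :=
    continuous_finset_sum _ fun v _ => (UnitAddTorus.mFourier _).continuous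
  exact (h.norm.pow 2).div_const _

theorem den_nonneg {r : ℕ} (R : Finset (Fin r → ℕ)) (x : UnitAddTorus (Fin r)) : 0 ≤ den R x := by
  unfold den
  positivity

theorem den_eq {r : ℕ} (R : Finset (Fin r → ℕ)) (n : Fin r → ℤ) (x : UnitAddTorus (Fin r)) :
    (den R x : ℂ) * UnitAddTorus.mFourier n x = (1 / (R.card : ℂ)) * ∑ p ∈ R ×ˢ R,
      UnitAddTorus.mFourier ((fun i => (p.1 i : ℤ)) + -(fun i => (p.2 i : ℤ)) + n) x := by
  have h1 : ((‖∑ v ∈ R, UnitAddTorus.mFourier (fun i => (v i : ℤ)) x‖ ^ 2 : ℝ) : ℂ) =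
      (∑ v ∈ R, UnitAddTorus.mFourier (fun i => (v i : ℤ)) x) *
        conj (∑ v ∈ R, UnitAddTorus.mFourier (fun i => (v i : ℤ)) x) := by
    rw [Complex.mul_conj, Complex.normSq_eq_norm_sq]
  unfold den
  rw [Complex.ofReal_div, h1, map_sum, Finset.sum_mul_sum, ← Finset.sum_product',
    Complex.ofReal_natCast]
  simp only [UnitAddTorus.mFourier_add, UnitAddTorus.mFourier_neg]
  rw [← Finset.sum_mul]
  ring

theorem int_den {r : ℕ} (R : Finset (Fin r → ℕ)) (n : Fin r → ℤ) :
    ∫ x, (den R x : ℂ) * UnitAddTorus.mFourier n x ∂(hm r) =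
      ((((R ×ˢ R).filter (fun p => ∀ i, (p.1 i : ℤ) + n i = p.2 i)).card : ℕ) : ℂ) /
        (R.card : ℂ) := by
  simp only [den_eq]
  rw [integral_const_mul, integral_finset_sum]
  · simp only [int_mFourier]
    rw [← Finset.sum_filter, Finset.sum_const, nsmul_eq_mul, mul_one]
    have h : (R ×ˢ R).filter (fun p => (fun i => (p.1 i : ℤ)) + -(fun i => (p.2 i : ℤ)) + n = 0) =
        (R ×ˢ R).filter (fun p => ∀ i, (p.1 i : ℤ) + n i = p.2 i) := by
      refine Finset.filter_congr fun p _ => ?_
      rw [funext_iff]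
      refine forall_congr' fun i => ?_
      simp only [Pi.add_apply, Pi.neg_apply, Pi.zero_apply]
      constructor <;> intro h <;> linarith
    rw [h]
    ring
  · intro p _
    exact integrable_cont (UnitAddTorus.mFourier _).continuous

theorem int_one {r : ℕ} (R : Finset (Fin r → ℕ)) (hR : R.Nonempty) : ∫ x, den R x ∂(hm r) = 1 := by
  have h := int_den R 0
  have h1 : ∀ x : UnitAddTorus (Fin r), (den R x : ℂ) * UnitAddTorus.mFourier (0 : Fin r → ℤ) x =
      (den R x : ℂ) := by
    intro x
    rw [UnitAddTorus.mFourier_zero]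
    simp
  simp only [h1] at h
  rw [integral_complex_ofReal] at h
  have h2 : (R ×ˢ R).filter (fun p => ∀ i, (p.1 i : ℤ) + (0 : Fin r → ℤ) i = p.2 i) =
      R.map ⟨fun v => (v, v), fun a b hab => (Prod.ext_iff.1 hab).1⟩ := by
    ext ⟨a, b⟩
    simp only [Finset.mem_filter, Finset.mem_product, Pi.zero_apply, add_zero, Nat.cast_inj,
      Finset.mem_map, Function.Embedding.coeFn_mk, Prod.mk.injEq]
    constructor
    · rintro ⟨⟨ha, hb⟩, hab⟩
      exact ⟨a, ha, rfl, funext hab⟩
    · rintro ⟨c, hc, rfl, rfl⟩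
      exact ⟨⟨hc, hc⟩, fun i => rfl⟩
  rw [h2, Finset.card_map, div_self (by exact_mod_cast hR.card_pos.ne')] at h
  exact_mod_cast h

end FCx

open FCx in
/-- CF-FC -/
theorem t_FC : S_FC := by
  intro r R hR
  have hmeas : Measurable fun x : UnitAddTorus (Fin r) => ENNReal.ofReal (den R x) :=
    (den_cont R).measurable.ennreal_ofReal
  have hprob : IsProbabilityMeasure ((hm r).withDensity fun x => ENNReal.ofReal (den R x)) := by
    refine ⟨?_⟩
    rw [withDensity_apply _ MeasurableSet.univ, Measure.restrict_univ,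
      ← ofReal_integral_eq_lintegral_ofReal, int_one R hR, ENNReal.ofReal_one]
    · exact (den_cont R).integrable_of_hasCompactSupport (HasCompactSupport.of_compactSpace _)
    · exact Eventually.of_forall fun x => den_nonneg R x
  refine ⟨⟨_, hprob⟩, fun n => ?_⟩
  rw [← int_den R n]
  change ∫ x, UnitAddTorus.mFourier n x ∂((hm r).withDensity fun x => ENNReal.ofReal (den R x)) = _
  rw [integral_withDensity_eq_integral_toReal_smul hmeas
    (Eventually.of_forall fun x => ENNReal.ofReal_lt_top)]
  refine integral_congr_ae (Eventually.of_forall fun x => ?_)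
  simp only
  rw [ENNReal.toReal_ofReal (den_nonneg R x), Complex.real_smul]

end Pool.Agent.J6H96.CF
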