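import Pool.Agent.J6H96.CF.Stm

/-!
# Project CF, module LIM
-/

set_option autoImplicit false

namespace Pool.Agent.J6H96.CF

open Finset MeasureTheory Filter Topology

namespace LIM

/-- the character `x ↦ e(pol(m! k) · x)` -/
noncomputable def ch (d : ℕ) {r : ℕ} (a : ℕ → Fin r → ℕ) (m k : ℕ) : C(UnitAddTorus (Fin r), ℂ) :=
  UnitAddTorus.mFourier (fun i => (pol d a (m.factorial * k) i : ℤ))

theorem norm_ch (d : ℕ) {r : ℕ} (a : ℕ → Fin r → ℕ) (m k : ℕ) (x : UnitAddTorus (Fin r)) :
    ‖ch d a m k x‖ ≤ 1 := by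
  refine (ContinuousMap.norm_coe_le_norm _ x).trans ?_
  unfold ch
  rw [UnitAddTorus.mFourier_norm]

/-- the averages -/
noncomputable def FF (d : ℕ) {r : ℕ} (a : ℕ → Fin r → ℕ) (n K : ℕ) (x : UnitAddTorus (Fin r)) : ℂ :=
  (1 / (K : ℂ)) * ∑ k ∈ range K, ch d a n k x

theorem cont_FF (d : ℕ) {r : ℕ} (a : ℕ → Fin r → ℕ) (n K : ℕ) : Continuous (FF d a n K) := by
  unfold FF
  exact continuous_const.mul (continuous_finsetSum _ fun k _ => (ch d a n k).continuous)

theorem norm_FF (d : ℕ) {r : ℕ} (a : ℕ → Fin r → ℕ) (n K : ℕ) (x : UnitAddTorus (Fin r)) :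
    ‖FF d a n K x‖ ≤ 1 := by
  unfold FF
  rcases Nat.eq_zero_or_pos K with h | h
  · rw [h]
    simp
  · rw [norm_mul, norm_div, norm_one, Complex.norm_natCast]
    have hK : (0 : ℝ) < K := by exact_mod_cast h
    have h1 : ‖∑ k ∈ range K, ch d a n k x‖ ≤ K := by
      calc ‖∑ k ∈ range K, ch d a n k x‖ ≤ ∑ k ∈ range K, ‖ch d a n k x‖ := norm_sum_le _ _
        _ ≤ ∑ k ∈ range K, (1 : ℝ) := Finset.sum_le_sum fun k _ => norm_ch d a n k x
        _ = K := by simp
    rw [one_div, inv_mul_le_iff₀ hK, mul_one]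
    exact h1

/-- the points where all characters are eventually one -/
def AA (d : ℕ) {r : ℕ} (a : ℕ → Fin r → ℕ) (n : ℕ) : Set (UnitAddTorus (Fin r)) :=
  {x | ∀ m, n ≤ m → ∀ k : ℕ, ch d a m k x = 1}

theorem closed_AA (d : ℕ) {r : ℕ} (a : ℕ → Fin r → ℕ) (n : ℕ) : IsClosed (AA d a n) := by
  have h : AA d a n = ⋂ m : ℕ, ⋂ _ : n ≤ m, ⋂ k : ℕ, {x | ch d a m k x = 1} := by
    ext x
    simp only [Set.mem_iInter]
    rfl
  rw [h]
  exact isClosed_iInter fun m => isClosed_iInter fun _ => isClosed_iInter fun k =>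
    isClosed_eq (ch d a m k).continuous continuous_const

theorem mono_AA (d : ℕ) {r : ℕ} (a : ℕ → Fin r → ℕ) : Monotone (AA d a) :=
  fun _ _ h _ hx m hm k => hx m (h.trans hm) k

end LIM

open LIM

theorem t_LIM (h : S_WEYL) : S_LIM := by
  intro d r a ha μ hμ
  set ν : Measure (UnitAddTorus (Fin r)) := (μ : Measure (UnitAddTorus (Fin r))) with hν
  have hP : IsProbabilityMeasure ν := μ.2
  set A : Set (UnitAddTorus (Fin r)) := ⋃ n, AA d a n with hA
  have hAm : ∀ n, MeasurableSet (AA d a n) := fun n => (closed_AA d a n).measurableSet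
  have hAmm : MeasurableSet A := MeasurableSet.iUnion hAm
  have hint : ∀ n K, Integrable (FF d a n K) ν := by
    intro n K
    refine Integrable.of_bound (cont_FF d a n K).aestronglyMeasurable 1
      (Filter.Eventually.of_forall fun x => norm_FF d a n K x)
  -- the integral of the averages
  have hval : ∀ n K : ℕ, 1 ≤ K → ∫ x, FF d a n K x ∂ν = 1 / (K : ℂ) := by
    intro n K hK
    have h1 : ∫ x, FF d a n K x ∂ν = (1 / (K : ℂ)) * ∑ k ∈ range K, ∫ x, ch d a n k x ∂ν := by
      unfold FF
      rw [integral_const_mul, integral_finsetSum]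
      intro k _
      exact Integrable.of_bound (ch d a n k).continuous.aestronglyMeasurable 1
        (Filter.Eventually.of_forall fun x => norm_ch d a n k x)
    rw [h1]
    have h2 : ∑ k ∈ range K, ∫ x, ch d a n k x ∂ν = 1 := by
      rw [Finset.sum_eq_single_of_mem 0 (Finset.mem_range.2 hK)]
      · have h3 : ch d a n 0 = 1 := by
          unfold ch
          have h4 : (fun i => ((pol d a (n.factorial * 0) i : ℕ) : ℤ)) = (0 : Fin r → ℤ) := by
            funext i
            have h5 : pol d a (n.factorial * 0) i = 0 := by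
              unfold pol
              rw [mul_zero, Finset.sum_eq_single_of_mem 0 (Finset.mem_range.2 (Nat.succ_pos d))]
              · rw [ha i, mul_zero]
              · intro j _ hj
                rw [Nat.choose_eq_zero_of_lt (Nat.pos_of_ne_zero hj), zero_mul]
            rw [h5]
            rfl
          rw [h4, UnitAddTorus.mFourier_zero]
        rw [h3]
        simp
      · intro k _ hk
        exact hμ (n.factorial * k) (Nat.mul_pos n.factorial_pos (Nat.pos_of_ne_zero hk))
    rw [h2, mul_one]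
  -- the main inequality
  have hmain : ∀ n, ν.real (AA d a n) ≤ ν.real (A \ AA d a n) := by
    intro n
    have hsub : AA d a n ⊆ A := Set.subset_iUnion (AA d a) n
    have hlim : Tendsto (fun K : ℕ => ∫ x in Aᶜ, FF d a n K x ∂ν) atTop (𝓝 0) := by
      have h1 := tendsto_integral_of_dominated_convergence (μ := ν.restrict Aᶜ)
        (F := fun K x => FF d a n K x) (f := fun _ => (0 : ℂ)) (fun _ => (1 : ℝ))
        (fun K => (cont_FF d a n K).aestronglyMeasurable) (integrable_const _)
        (fun K => Filter.Eventually.of_forall fun x => norm_FF d a n K x) ?_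
      · simpa using h1
      · refine (ae_restrict_iff' hAmm.compl).2 (Filter.Eventually.of_forall fun x hx => ?_)
        rcases h d r a ha x with ⟨n₀, h2⟩ | h2
        · exfalso
          apply hx
          rw [hA]
          exact Set.mem_iUnion.2 ⟨n₀, fun m hm k => h2 m hm k⟩
        · exact h2 n
    have hineq : ∀ K : ℕ, 1 ≤ K → ν.real (AA d a n) ≤
        ‖(1 / (K : ℂ))‖ + ν.real (A \ AA d a n) + ‖∫ x in Aᶜ, FF d a n K x ∂ν‖ := by
      intro K hK
      have e1 : ∫ x, FF d a n K x ∂ν = (∫ x in AA d a n, FF d a n K x ∂ν) +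
          ∫ x in (AA d a n)ᶜ, FF d a n K x ∂ν :=
        (integral_add_compl (hAm n) (hint n K)).symm
      have e2 : ∫ x in (AA d a n)ᶜ, FF d a n K x ∂ν = (∫ x in A \ AA d a n, FF d a n K x ∂ν) +
          ∫ x in Aᶜ, FF d a n K x ∂ν := by
        have e3 : (AA d a n)ᶜ = (A \ AA d a n) ∪ Aᶜ := by
          ext x
          constructor
          · intro hx
            by_cases hxA : x ∈ A
            · exact Or.inl ⟨hxA, hx⟩
            · exact Or.inr hxA
          · rintro (hx | hx)
            · exact hx.2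
            · exact fun h' => hx (hsub h')
        rw [e3]
        refine setIntegral_union ?_ hAmm.compl (hint n K).integrableOn (hint n K).integrableOn
        rw [Set.disjoint_left]
        intro x hx hx'
        exact hx' hx.1
      have e4 : ∫ x in AA d a n, FF d a n K x ∂ν = (ν.real (AA d a n) : ℂ) := by
        have e5 : ∫ x in AA d a n, FF d a n K x ∂ν = ∫ x in AA d a n, (1 : ℂ) ∂ν := by
          refine setIntegral_congr_fun (hAm n) fun x hx => ?_
          change FF d a n K x = 1
          unfold FF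
          rw [Finset.sum_congr rfl fun k _ => hx n le_rfl k]
          have hK0 : (K : ℂ) ≠ 0 := by
            have : K ≠ 0 := by omega
            exact_mod_cast this
          simp only [Finset.sum_const, Finset.card_range, nsmul_eq_mul, mul_one]
          field_simp
        rw [e5, setIntegral_const]
        simp
      have e6 : ‖∫ x in A \ AA d a n, FF d a n K x ∂ν‖ ≤ 1 * ν.real (A \ AA d a n) :=
        norm_setIntegral_le_of_norm_le_const (measure_lt_top _ _)
          (fun x _ => norm_FF d a n K x)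
      have e7 : (ν.real (AA d a n) : ℂ) = 1 / (K : ℂ) - (∫ x in A \ AA d a n, FF d a n K x ∂ν) -
          ∫ x in Aᶜ, FF d a n K x ∂ν := by
        rw [← hval n K hK, e1, e2, e4]
        ring
      have e8 : ν.real (AA d a n) = ‖(ν.real (AA d a n) : ℂ)‖ := by
        rw [Complex.norm_real, Real.norm_of_nonneg measureReal_nonneg]
      rw [e8, e7]
      refine (norm_sub_le _ _).trans ?_
      refine add_le_add ((norm_sub_le _ _).trans ?_) le_rfl
      refine add_le_add le_rfl ?_
      rw [one_mul] at e6
      exact e6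
    have hK0 : Tendsto (fun K : ℕ => ‖(1 / (K : ℂ))‖) atTop (𝓝 0) := by
      have h1 : Tendsto (fun K : ℕ => 1 / (K : ℝ)) atTop (𝓝 0) :=
        tendsto_one_div_atTop_nhds_zero_nat
      refine h1.congr fun K => ?_
      rw [norm_div, norm_one, Complex.norm_natCast]
    have hR : Tendsto (fun K : ℕ => ‖(1 / (K : ℂ))‖ + ν.real (A \ AA d a n) +
        ‖∫ x in Aᶜ, FF d a n K x ∂ν‖) atTop (𝓝 (0 + ν.real (A \ AA d a n) + ‖(0 : ℂ)‖)) :=
      (hK0.add tendsto_const_nhds).add hlim.norm
    have hfin := ge_of_tendsto hR ((eventually_ge_atTop 1).mono fun K hK => hineq K hK)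
    simpa using hfin
  -- the limit `n → ∞`
  have hdiff : ∀ n, 2 * ν.real (AA d a n) ≤ ν.real A := by
    intro n
    have h1 := hmain n
    rw [measureReal_diff (Set.subset_iUnion (AA d a) n) (hAm n)] at h1
    linarith
  have hconv : Tendsto (fun n => ν.real (AA d a n)) atTop (𝓝 (ν.real A)) := by
    have h1 := tendsto_measure_iUnion_atTop (μ := ν) (mono_AA d a)
    exact (ENNReal.tendsto_toReal (measure_ne_top _ _)).comp h1
  have hle : 2 * ν.real A ≤ ν.real A :=
    le_of_tendsto (hconv.const_mul 2) (Filter.Eventually.of_forall hdiff)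
  have hA0 : ν.real A = 0 := le_antisymm (by linarith) measureReal_nonneg
  have hA1 : ν A = 0 := by
    rwa [measureReal_eq_zero_iff] at hA0
  refine measure_mono_null ?_ hA1
  rw [Set.singleton_subset_iff, hA]
  refine Set.mem_iUnion.2 ⟨0, fun m _ k => ?_⟩
  unfold ch
  rw [UnitAddTorus.mFourier]
  simp

end Pool.Agent.J6H96.CF
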