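import Pool.Agent.J6H96.CF.Stm
import Pool.Agent.H507R3.RamAll

/-! # Module CF-RAM: the counts are polynomial on a homogeneous set -/

set_option autoImplicit false

namespace Pool.Agent.J6H96.CF

open Finset

namespace RAM

/-- the number of the cells with image `s` in the class `i` -/
def w {N d r : ℕ} (χ : (Fin d → Fin N) → Fin r) (s : Finset (Fin N)) (i : Fin r) : ℕ :=
  (univ.filter fun x : Fin d → Fin N => univ.image x = s ∧ χ x = i).card

theorem w_zero {N d r : ℕ} (χ : (Fin d → Fin N) → Fin r) (s : Finset (Fin N)) (i : Fin r)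
    (h : d < s.card ∨ (1 ≤ d ∧ s = ∅)) : w χ s i = 0 := by
  rw [w, card_eq_zero, filter_eq_empty_iff]
  rintro x - ⟨hx, -⟩
  rcases h with h | ⟨h, h'⟩
  · have h1 : (univ.image x).card ≤ (univ : Finset (Fin d)).card := card_image_le
    rw [hx, card_univ, Fintype.card_fin] at h1
    omega
  · rw [h'] at hx
    have h1 : x ⟨0, h⟩ ∈ univ.image x := mem_image_of_mem _ (mem_univ _)
    rw [hx] at h1
    exact notMem_empty _ h1

theorem w_le {N d r : ℕ} (χ : (Fin d → Fin N) → Fin r) (s : Finset (Fin N)) (i : Fin r) :
    w χ s i ≤ d ^ d := by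
  by_cases h : d < s.card
  · rw [w_zero χ s i (Or.inl h)]
    exact Nat.zero_le _
  · push Not at h
    calc w χ s i ≤ (Fintype.piFinset fun _ : Fin d => s).card := by
          refine card_le_card fun x hx => ?_
          rw [mem_filter] at hx
          rw [Fintype.mem_piFinset]
          intro j
          rw [← hx.2.1]
          exact mem_image_of_mem _ (mem_univ _)
      _ = s.card ^ d := by simp
      _ ≤ d ^ d := Nat.pow_le_pow_left h d

theorem cnt_cube {N d r : ℕ} (χ : (Fin d → Fin N) → Fin r) (γ : Finset (Fin N)) (i : Fin r) :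
    cnt χ (cube d γ) i = ∑ s ∈ γ.powerset, w χ s i := by
  have h1 : ∀ x ∈ (cube d γ).filter (fun x => χ x = i), univ.image x ∈ γ.powerset := by
    intro x hx
    rw [mem_filter, cube, Fintype.mem_piFinset] at hx
    rw [mem_powerset]
    intro y hy
    obtain ⟨j, -, rfl⟩ := mem_image.1 hy
    exact hx.1 j
  rw [cnt, card_eq_sum_card_fiberwise h1]
  refine sum_congr rfl fun s hs => ?_
  rw [w]
  congr 1
  ext x
  simp only [mem_filter, mem_univ, true_and, cube, Fintype.mem_piFinset]
  constructor
  · rintro ⟨⟨h2, h3⟩, h4⟩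
    exact ⟨h4, h3⟩
  · rintro ⟨h2, h3⟩
    refine ⟨⟨fun j => ?_, h3⟩, h2⟩
    rw [mem_powerset] at hs
    apply hs
    rw [← h2]
    exact mem_image_of_mem _ (mem_univ _)

end RAM

theorem t_RAM : S_RAM := by
  classical
  intro d r m hd
  obtain ⟨M, hM⟩ := Pool.Agent.H507R3.RamAll.ramsey_all (Fin r → Fin (d ^ d + 1)) d m
  refine ⟨M, fun N V χ hV => ?_⟩
  obtain ⟨T, hTS, hTc, hT⟩ := hM (V.map Fin.valEmbedding)
    (fun Q i => ⟨RAM.w χ (univ.filter fun x : Fin N => (x : ℕ) ∈ Q) i,
      Nat.lt_succ_of_le (RAM.w_le χ _ i)⟩) (by rwa [card_map])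
  choose! k hk using hT
  have hHT : (univ.filter fun x : Fin N => (x : ℕ) ∈ T).map Fin.valEmbedding = T := by
    ext y
    simp only [mem_map, mem_filter, mem_univ, true_and, Fin.valEmbedding_apply]
    constructor
    · rintro ⟨x, hx, rfl⟩
      exact hx
    · intro hy
      obtain ⟨x, -, hx⟩ := mem_map.1 (hTS hy)
      rw [Fin.valEmbedding_apply] at hx
      exact ⟨x, by rwa [hx], hx⟩
  refine ⟨univ.filter fun x : Fin N => (x : ℕ) ∈ T, fun j i => if j = 0 then 0 else (k j i : ℕ),
    ?_, ?_, ?_, ?_, ?_⟩
  · intro x hx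
    rw [mem_filter] at hx
    obtain ⟨y, hy, hyx⟩ := mem_map.1 (hTS hx.2)
    rw [Fin.valEmbedding_apply] at hyx
    rwa [← Fin.ext hyx]
  · rw [← hTc, ← hHT, card_map, hHT]
  · intro j i
    dsimp only
    split_ifs
    · exact Nat.zero_le _
    · exact Nat.le_of_lt_succ (k j i).2
  · intro i
    simp
  · intro γ hγ i
    have hw : ∀ s ∈ γ.powerset, RAM.w χ s i =
        (fun j => if j ≤ d then (if j = 0 then 0 else (k j i : ℕ)) else 0) s.card := by
      intro s hs
      rw [mem_powerset] at hs
      dsimp only
      by_cases h1 : s.card ≤ d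
      · rw [if_pos h1]
        by_cases h2 : s.card = 0
        · rw [if_pos h2]
          exact RAM.w_zero χ s i (Or.inr ⟨hd, card_eq_zero.1 h2⟩)
        · rw [if_neg h2]
          have h3 : s.map Fin.valEmbedding ⊆ T := by
            rw [← hHT]
            exact map_subset_map.2 (hs.trans hγ)
          have h4 := hk s.card h1 (s.map Fin.valEmbedding) h3 (card_map _)
          have h5 : (univ.filter fun x : Fin N => (x : ℕ) ∈ s.map Fin.valEmbedding) = s := by
            ext x
            simp only [mem_filter, mem_univ, true_and, mem_map, Fin.valEmbedding_apply]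
            constructor
            · rintro ⟨y, hy, hyx⟩
              rwa [← Fin.ext hyx]
            · intro hx
              exact ⟨x, hx, rfl⟩
          have h6 := congrArg (fun c : Fin r → Fin (d ^ d + 1) => ((c i : Fin (d ^ d + 1)) : ℕ)) h4
          dsimp only at h6
          rw [h5] at h6
          exact h6
      · rw [if_neg h1]
        exact RAM.w_zero χ s i (Or.inl (not_le.1 h1))
    have e0 := sum_powerset_apply_card
      (fun j => if j ≤ d then (if j = 0 then 0 else (k j i : ℕ)) else 0) (x := γ)
    rw [RAM.cnt_cube, sum_congr rfl hw, pol]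
    refine e0.trans ?_
    have e1 : ∑ j ∈ range (γ.card + 1), γ.card.choose j •
        (if j ≤ d then (if j = 0 then 0 else (k j i : ℕ)) else 0) =
        ∑ j ∈ range (max γ.card d + 1), γ.card.choose j *
        (if j ≤ d then (if j = 0 then 0 else (k j i : ℕ)) else 0) := by
      simp only [smul_eq_mul]
      refine sum_subset (fun j hj => ?_) fun j _ hj => ?_
      · rw [mem_range] at hj ⊢
        have := le_max_left γ.card d
        omega
      · rw [mem_range, not_lt] at hj
        rw [Nat.choose_eq_zero_of_lt (by omega), zero_mul]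
    have e2 : ∑ j ∈ range (d + 1), γ.card.choose j * (if j = 0 then 0 else (k j i : ℕ)) =
        ∑ j ∈ range (max γ.card d + 1), γ.card.choose j *
        (if j ≤ d then (if j = 0 then 0 else (k j i : ℕ)) else 0) := by
      have e3 : ∑ j ∈ range (d + 1), γ.card.choose j * (if j = 0 then 0 else (k j i : ℕ)) =
          ∑ j ∈ range (d + 1), γ.card.choose j *
          (if j ≤ d then (if j = 0 then 0 else (k j i : ℕ)) else 0) := by
        refine sum_congr rfl fun j hj => ?_
        rw [mem_range] at hj
        rw [if_pos (show j ≤ d by omega)]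
      rw [e3]
      refine sum_subset (fun j hj => ?_) fun j _ hj => ?_
      · rw [mem_range] at hj ⊢
        have := le_max_right γ.card d
        omega
      · rw [mem_range, not_lt] at hj
        rw [if_neg (show ¬ j ≤ d by omega), mul_zero]
    exact e1.trans e2.symm

end Pool.Agent.J6H96.CF
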