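import Pool.Agent.J6H96.CF.Stm

/-!
# Module SAR of project CF: the vector version of the theorem of Furstenberg and Sárközy
-/

set_option autoImplicit false

namespace Pool.Agent.J6H96.CF

open Finset MeasureTheory Filter Topology

theorem t_SAR (h1 : S_FC) (h2 : S_FEJ) (h3 : S_LIM) (h4 : S_DIR) : S_SAR := by
  intro d r a ha δ hδ
  by_contra hcon
  push Not at hcon
  choose K hK R hR hRc hno using fun m : ℕ => hcon (m + 1)
  have hKpos : ∀ m, (0 : ℝ) < K m := fun m => by
    have : 0 < K m := by have := hK m; omega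
    exact_mod_cast this
  have hcard : ∀ m, (0 : ℝ) < (R m).card := fun m =>
    lt_of_lt_of_le (mul_pos hδ (pow_pos (hKpos m) r)) (hRc m)
  have hne : ∀ m, (R m).Nonempty := fun m => by
    rw [← Finset.card_pos]
    exact_mod_cast hcard m
  choose μ hμ using fun m => h1 r (R m) (hne m)
  obtain ⟨ν, hν⟩ : ∃ ν, Tendsto μ (hyperfilter ℕ) (𝓝 ν) :=
    ⟨((hyperfilter ℕ).map μ).lim, ((hyperfilter ℕ).map μ).le_nhds_lim⟩
  have hint : ∀ n : Fin r → ℤ, Tendsto
      (fun m => ∫ x, UnitAddTorus.mFourier n x ∂(μ m : Measure (UnitAddTorus (Fin r))))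
      (hyperfilter ℕ) (𝓝 (∫ x, UnitAddTorus.mFourier n x ∂(ν : Measure (UnitAddTorus (Fin r))))) := by
    intro n
    have h := (ProbabilityMeasure.tendsto_iff_forall_integral_rclike_tendsto ℂ).1 hν
      (BoundedContinuousFunction.mkOfCompact (UnitAddTorus.mFourier n))
    exact h
  -- the coefficients at `pol d a k` vanish
  have hzero : (ν : Measure (UnitAddTorus (Fin r))) {0} = 0 := by
    refine h3 d r a ha ν fun k hk => ?_
    have h5 : ∀ᶠ m in (hyperfilter ℕ : Filter ℕ),
        (0 : ℂ) = ∫ x, UnitAddTorus.mFourier (fun i => (pol d a k i : ℤ)) x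
          ∂(μ m : Measure (UnitAddTorus (Fin r))) := by
      refine Filter.Eventually.filter_mono Nat.hyperfilter_le_atTop
        ((eventually_ge_atTop k).mono fun m hm => ?_)
      rw [hμ m, Finset.filter_eq_empty_iff.2, Finset.card_empty, Nat.cast_zero, zero_div]
      intro p hp hc
      have hkm : k ≤ K m := by have := hK m; omega
      refine hno m k hk hkm p.1 (Finset.mem_product.1 hp).1 ?_
      have : p.1 + pol d a k = p.2 := by
        funext i
        have := hc i
        exact_mod_cast this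
      rw [this]
      exact (Finset.mem_product.1 hp).2
    exact tendsto_nhds_unique (hint _) (tendsto_const_nhds.congr' h5)
  -- the Fejér sums
  have hfej : ∀ M : ℕ, 1 ≤ M → δ * (M : ℝ) ^ (2 * r) ≤ ∑ v ∈ box r M, ∑ w ∈ box r M,
      (∫ x, UnitAddTorus.mFourier (fun i => (v i : ℤ) - (w i : ℤ)) x
        ∂(ν : Measure (UnitAddTorus (Fin r)))).re := by
    intro M hM
    have hl : Tendsto (fun m => δ * (M : ℝ) ^ (2 * r) * ((K m : ℝ) / ((K m : ℝ) + M)) ^ r)
        (hyperfilter ℕ) (𝓝 (δ * (M : ℝ) ^ (2 * r) * 1 ^ r)) := by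
      refine Tendsto.const_mul _ (Tendsto.pow ?_ r)
      refine Tendsto.mono_left ?_ Nat.hyperfilter_le_atTop
      have h6 : Tendsto (fun m => (K m : ℝ)) atTop atTop := by
        refine tendsto_atTop_mono (fun m => ?_) tendsto_natCast_atTop_atTop
        have : m ≤ K m := by have := hK m; omega
        exact_mod_cast this
      have h7 : Tendsto (fun m => 1 - (M : ℝ) / ((K m : ℝ) + M)) atTop (𝓝 (1 - 0)) :=
        tendsto_const_nhds.sub (tendsto_const_nhds.div_atTop (h6.atTop_add tendsto_const_nhds))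
      rw [sub_zero] at h7
      refine h7.congr fun m => ?_
      have h8 : (K m : ℝ) + M ≠ 0 := by
        have := hKpos m
        positivity
      field_simp
      ring
    have hr : Tendsto (fun m => ∑ v ∈ box r M, ∑ w ∈ box r M,
        (∫ x, UnitAddTorus.mFourier (fun i => (v i : ℤ) - (w i : ℤ)) x
          ∂(μ m : Measure (UnitAddTorus (Fin r)))).re) (hyperfilter ℕ)
        (𝓝 (∑ v ∈ box r M, ∑ w ∈ box r M,
          (∫ x, UnitAddTorus.mFourier (fun i => (v i : ℤ) - (w i : ℤ)) x
            ∂(ν : Measure (UnitAddTorus (Fin r)))).re)) :=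
      tendsto_finsetSum _ fun v _ => tendsto_finsetSum _ fun w _ =>
        (Complex.continuous_re.tendsto _).comp (hint _)
    have hle := le_of_tendsto_of_tendsto' hl hr fun m => ?_
    · rwa [one_pow, mul_one] at hle
    · have h5 := h2 r (K m) M (R m) (hR m)
      have h6 : ∑ v ∈ box r M, ∑ w ∈ box r M,
          (∫ x, UnitAddTorus.mFourier (fun i => (v i : ℤ) - (w i : ℤ)) x
            ∂(μ m : Measure (UnitAddTorus (Fin r)))).re =
          (∑ v ∈ box r M, ∑ w ∈ box r M,
            (((R m ×ˢ R m).filter (fun p => p.1 + v = p.2 + w)).card : ℝ)) / (R m).card := by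
        rw [Finset.sum_div]
        refine Finset.sum_congr rfl fun v _ => ?_
        rw [Finset.sum_div]
        refine Finset.sum_congr rfl fun w _ => ?_
        rw [hμ m]
        have h7 : ((R m ×ˢ R m).filter (fun p => ∀ i, (p.1 i : ℤ) + ((v i : ℤ) - (w i : ℤ)) = p.2 i)) =
            (R m ×ˢ R m).filter (fun p => p.1 + v = p.2 + w) := by
          refine Finset.filter_congr fun p _ => ?_
          rw [funext_iff]
          refine forall_congr' fun i => ?_
          rw [Pi.add_apply, Pi.add_apply]
          omega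
        rw [h7]
        have h8 : ∀ x y : ℕ, ((x : ℂ) / (y : ℂ)).re = (x : ℝ) / (y : ℝ) := by
          intro x y
          rw [← Complex.ofReal_natCast, ← Complex.ofReal_natCast, ← Complex.ofReal_div,
            Complex.ofReal_re]
        exact h8 _ _
      rw [h6, le_div_iff₀ (hcard m)]
      have hpos : (0 : ℝ) < ((K m : ℝ) + M) ^ r := by
        have := hKpos m
        positivity
      have h9 : δ * (M : ℝ) ^ (2 * r) * ((K m : ℝ) / ((K m : ℝ) + M)) ^ r * (R m).card *
          ((K m : ℝ) + M) ^ r ≤ ((R m).card : ℝ) ^ 2 * (M : ℝ) ^ (2 * r) := by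
        rw [div_pow]
        have h10 : δ * (M : ℝ) ^ (2 * r) * ((K m : ℝ) ^ r / ((K m : ℝ) + M) ^ r) * (R m).card *
            ((K m : ℝ) + M) ^ r = (δ * (K m : ℝ) ^ r) * ((R m).card * (M : ℝ) ^ (2 * r)) := by
          field_simp
        rw [h10]
        refine (mul_le_mul_of_nonneg_right (hRc m) (by positivity)).trans (le_of_eq ?_)
        ring
      have h11 := h9.trans h5
      rw [mul_comm (((K m : ℝ) + M) ^ r)] at h11
      exact le_of_mul_le_mul_right h11 hpos
  have h12 := h4 r δ ν hfej
  rw [hzero, ENNReal.toReal_zero] at h12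
  exact absurd h12 (not_le.2 hδ)

end Pool.Agent.J6H96.CF
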