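import Pool.Agent.J6H49.CF.SHIFT

set_option autoImplicit false

namespace Pool.Agent.J6H96.CF

theorem t_SHIFT : S_SHIFT := Pool.Agent.J6H49.CF.t_SHIFT

end Pool.Agent.J6H96.CF
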