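import Pool.Agent.J6H96.CF.Stm

/-!
# Project CF, module SHS: telescoping of unit shifts
-/

set_option autoImplicit false

namespace Pool.Agent.J6H96.CF

open Finset MeasureTheory Filter Topology

theorem shs_aux (h : S_SHIFT) (E : Type) [DecidableEq E] (U : Finset E) (r : ℕ) (χ : E → Fin r)
    (g : (Fin r → ℕ) → ℝ) (hg : ∀ v, 0 ≤ g v ∧ g v ≤ 1) (J : Finset (Fin r)) (n : ℕ)
    (hn : ∀ i ∈ J, n ≤ cnt χ U i) (w : Fin r → ℕ) (hw : ∀ i ∈ J, w i = 0) :
    ∀ (s : ℕ) (u : Fin r → ℕ), ∑ i ∈ J, u i = s → (∀ i, i ∉ J → u i = w i) →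
      |∑ A ∈ U.powerset, g (cnt χ A + u) - ∑ A ∈ U.powerset, g (cnt χ A + w)| ≤
        (s : ℝ) * (2 ^ U.card * (2 / √((n : ℝ) + 1))) := by
  intro s
  induction s with
  | zero =>
    intro u hs hu
    have huw : u = w := by
      funext i
      by_cases hi : i ∈ J
      · rw [hw i hi]
        exact (Finset.sum_eq_zero_iff.mp hs) i hi
      · exact hu i hi
    rw [huw]
    simp
  | succ s ih =>
    intro u hs hu
    obtain ⟨i, hi, hpos⟩ : ∃ i ∈ J, u i ≠ 0 := by
      by_contra hcon
      push Not at hcon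
      rw [Finset.sum_eq_zero hcon] at hs
      omega
    set u' : Fin r → ℕ := Function.update u i (u i - 1) with hu'
    have hsplit : u = u' + Pi.single i 1 := by
      funext j
      rw [Pi.add_apply, hu']
      by_cases hj : j = i
      · subst hj
        rw [Function.update_self, Pi.single_eq_same]
        omega
      · rw [Function.update_of_ne hj, Pi.single_eq_of_ne hj, add_zero]
    have hs' : ∑ j ∈ J, u' j = s := by
      have h1 : ∑ j ∈ J, u j = ∑ j ∈ J, u' j + ∑ j ∈ J, (Pi.single i 1 : Fin r → ℕ) j := by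
        rw [← Finset.sum_add_distrib]
        apply Finset.sum_congr rfl
        intro j _
        exact congrFun hsplit j
      have h2 : ∑ j ∈ J, (Pi.single i 1 : Fin r → ℕ) j = 1 := by
        rw [Finset.sum_eq_single i]
        · simp
        · intro j _ hj
          exact Pi.single_eq_of_ne hj _
        · intro hcon
          exact absurd hi hcon
      omega
    have hout : ∀ j, j ∉ J → u' j = w j := by
      intro j hj
      have hji : j ≠ i := fun e => hj (e ▸ hi)
      rw [hu', Function.update_of_ne hji]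
      exact hu j hj
    have h1 := ih u' hs' hout
    have h2 := h E U r χ g hg u' i
    have h3 : ∑ A ∈ U.powerset, g (cnt χ A + u) =
        ∑ A ∈ U.powerset, g (cnt χ A + u' + Pi.single i 1) := by
      apply Finset.sum_congr rfl
      intro A _
      rw [add_assoc, ← hsplit]
    have h4 : (2 : ℝ) ^ U.card * (2 / √((cnt χ U i : ℝ) + 1)) ≤
        2 ^ U.card * (2 / √((n : ℝ) + 1)) := by
      apply mul_le_mul_of_nonneg_left _ (by positivity)
      apply div_le_div_of_nonneg_left (by norm_num) (by positivity)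
      apply Real.sqrt_le_sqrt
      have : (n : ℝ) ≤ (cnt χ U i : ℝ) := by exact_mod_cast hn i hi
      linarith
    rw [h3]
    calc |∑ A ∈ U.powerset, g (cnt χ A + u' + Pi.single i 1) - ∑ A ∈ U.powerset, g (cnt χ A + w)|
        ≤ |∑ A ∈ U.powerset, g (cnt χ A + u' + Pi.single i 1) -
            ∑ A ∈ U.powerset, g (cnt χ A + u')| +
          |∑ A ∈ U.powerset, g (cnt χ A + u') - ∑ A ∈ U.powerset, g (cnt χ A + w)| :=
          abs_sub_le _ _ _
      _ ≤ 2 ^ U.card * (2 / √((n : ℝ) + 1)) + (s : ℝ) * (2 ^ U.card * (2 / √((n : ℝ) + 1))) :=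
          add_le_add (h2.trans h4) h1
      _ = ((s + 1 : ℕ) : ℝ) * (2 ^ U.card * (2 / √((n : ℝ) + 1))) := by
          push_cast
          ring

theorem t_SHS (h : S_SHIFT) : S_SHS := by
  intro E _ U r χ g hg J n B hn u v hB huv
  set w : Fin r → ℕ := fun i => if i ∈ J then 0 else u i with hw
  have hw0 : ∀ i ∈ J, w i = 0 := by
    intro i hi
    simp [hw, hi]
  have hX : (0 : ℝ) ≤ 2 ^ U.card * (2 / √((n : ℝ) + 1)) := by positivity
  have key : ∀ x : Fin r → ℕ, (∀ i ∈ J, x i ≤ B) → (∀ i, i ∉ J → x i = w i) →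
      |∑ A ∈ U.powerset, g (cnt χ A + x) - ∑ A ∈ U.powerset, g (cnt χ A + w)| ≤
        ((r * B : ℕ) : ℝ) * (2 ^ U.card * (2 / √((n : ℝ) + 1))) := by
    intro x hx hxw
    refine (shs_aux h E U r χ g hg J n hn w hw0 _ x rfl hxw).trans ?_
    apply mul_le_mul_of_nonneg_right _ hX
    have h1 : ∑ i ∈ J, x i ≤ J.card * B := by
      have := Finset.sum_le_card_nsmul J x B hx
      simpa using this
    have h2 : J.card ≤ r := by
      have := Finset.card_le_univ J
      simpa using this
    have h3 : J.card * B ≤ r * B := Nat.mul_le_mul_right B h2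
    exact_mod_cast h1.trans h3
  have hu := key u (fun i hi => (hB i hi).1) (by
    intro i hi
    simp [hw, hi])
  have hv := key v (fun i hi => (hB i hi).2) (by
    intro i hi
    simp [hw, hi, huv i hi])
  rw [abs_sub_comm] at hv
  calc |∑ A ∈ U.powerset, g (cnt χ A + u) - ∑ A ∈ U.powerset, g (cnt χ A + v)|
      ≤ |∑ A ∈ U.powerset, g (cnt χ A + u) - ∑ A ∈ U.powerset, g (cnt χ A + w)| +
        |∑ A ∈ U.powerset, g (cnt χ A + w) - ∑ A ∈ U.powerset, g (cnt χ A + v)| :=
        abs_sub_le _ _ _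
    _ ≤ ((r * B : ℕ) : ℝ) * (2 ^ U.card * (2 / √((n : ℝ) + 1))) +
        ((r * B : ℕ) : ℝ) * (2 ^ U.card * (2 / √((n : ℝ) + 1))) := add_le_add hu hv
    _ = 2 ^ U.card * (4 * r * B / √((n : ℝ) + 1)) := by
        push_cast
        ring

end Pool.Agent.J6H96.CF
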