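import Pool.Agent.J6H96.CF.Stm
import Pool.Agent.H767R2.Weyl

/-!
# Project CF: the pointwise dichotomy for polynomial phases on the torus (module WEYL)
-/

set_option autoImplicit false

namespace Pool.Agent.J6H96.CF

open Finset Filter Topology Polynomial Pool.Agent.H767R2

theorem ee_sum {ι : Type} (s : Finset ι) (f : ι → ℝ) : ee (∑ i ∈ s, f i) = ∏ i ∈ s, ee (f i) := by
  classical
  induction s using Finset.induction_on with
  | empty => simp [ee_zero]
  | insert a s ha ih => rw [Finset.sum_insert ha, Finset.prod_insert ha, ee_add, ih]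

theorem mF_eq_ee {r : ℕ} (x : UnitAddTorus (Fin r)) (y : Fin r → ℝ)
    (hy : ∀ i, ((y i : ℝ) : UnitAddCircle) = x i) (n : Fin r → ℤ) :
    UnitAddTorus.mFourier n x = ee (∑ i, (n i : ℝ) * y i) := by
  have h1 : UnitAddTorus.mFourier n x = ∏ i, fourier (n i) (x i) := rfl
  rw [h1, ee_sum]
  refine Finset.prod_congr rfl fun i _ => ?_
  rw [← hy i, fourier_coe_apply, ee]
  congr 1
  push_cast
  ring

/-- the polynomial with the values `k choose j` -/
theorem exists_choose_poly (j : ℕ) : ∃ P : ℝ[X], ∀ k : ℕ, P.eval (k : ℝ) = (k.choose j : ℝ) := by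
  refine ⟨C ((j.factorial : ℝ)⁻¹) * descPochhammer ℝ j, fun k => ?_⟩
  have hj : (j.factorial : ℝ) ≠ 0 := by exact_mod_cast j.factorial_ne_zero
  rw [eval_mul, eval_C, descPochhammer_eval_eq_descFactorial, Nat.descFactorial_eq_factorial_mul_choose,
    Nat.cast_mul, ← mul_assoc, inv_mul_cancel₀ hj, one_mul]

theorem exists_phase {d r : ℕ} (a : ℕ → Fin r → ℕ) (h0 : ∀ i, a 0 i = 0) (y : Fin r → ℝ) :
    ∃ β : ℝ[X], β.coeff 0 = 0 ∧ ∀ k : ℕ, β.eval (k : ℝ) = ∑ i, ((pol d a k i : ℤ) : ℝ) * y i := by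
  choose P hP using exists_choose_poly
  refine ⟨∑ i, ∑ j ∈ range (d + 1), C (y i * a j i) * P j, ?_, ?_⟩
  · rw [coeff_zero_eq_eval_zero]
    simp only [eval_finsetSum, eval_mul, eval_C]
    refine Finset.sum_eq_zero fun i _ => Finset.sum_eq_zero fun j _ => ?_
    have := hP j 0
    rw [Nat.cast_zero] at this
    rw [this]
    rcases Nat.eq_zero_or_pos j with rfl | hj
    · rw [h0]; simp
    · rw [Nat.choose_eq_zero_of_lt hj]; simp
  · intro k
    simp only [eval_finsetSum, eval_mul, eval_C, hP, pol]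
    refine Finset.sum_congr rfl fun i _ => ?_
    push_cast
    rw [Finset.sum_mul]
    refine Finset.sum_congr rfl fun j _ => ?_
    ring

theorem int_value (β : ℝ[X]) (h0 : β.coeff 0 = 0) (h : ∀ j, 1 ≤ j → ¬ Irrational (β.coeff j)) :
    ∃ n₀ : ℕ, ∀ n, n₀ ≤ n → ∀ k : ℕ, ∃ z : ℤ, β.eval ((n.factorial * k : ℕ) : ℝ) = z := by
  have hq : ∀ j, ∃ q : ℚ, β.coeff j = q := by
    intro j
    rcases Nat.eq_zero_or_pos j with rfl | hj
    · exact ⟨0, by rw [h0]; simp⟩
    · have := h j hj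
      unfold Irrational at this
      rw [not_not] at this
      obtain ⟨q, hq⟩ := this
      exact ⟨q, hq.symm⟩
  choose q hq using hq
  refine ⟨∑ j ∈ range (β.natDegree + 1), (q j).den, fun n hn k => ?_⟩
  have key : ∀ j ∈ range (β.natDegree + 1), ∃ z : ℤ, β.coeff j * ((n.factorial * k : ℕ) : ℝ) ^ j = z := by
    intro j hj
    rcases Nat.eq_zero_or_pos j with rfl | hj1
    · exact ⟨0, by rw [h0]; simp⟩
    · have h1 : (q j).den ≤ n :=
        (Finset.single_le_sum (f := fun j => (q j).den) (fun _ _ => Nat.zero_le _) hj).trans hn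
      have h2 : (q j).den ∣ (n.factorial * k) ^ j :=
        dvd_pow ((Nat.dvd_factorial (q j).pos h1).mul_right k) (by omega)
      obtain ⟨t, ht⟩ := h2
      refine ⟨(q j).num * t, ?_⟩
      rw [hq, ← Nat.cast_pow, ht]
      have h3 : ((q j : ℚ) : ℝ) * ((q j).den : ℝ) = ((q j).num : ℝ) := by
        exact_mod_cast Rat.mul_den_eq_num (q j)
      push_cast
      rw [← h3]
      ring
  choose! z hz using key
  refine ⟨∑ j ∈ range (β.natDegree + 1), z j, ?_⟩
  rw [eval_eq_sum_range]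
  push_cast
  refine Finset.sum_congr rfl fun j hj => ?_
  rw [← hz j hj]
  push_cast
  ring

theorem t_WEYL : S_WEYL := by
  intro d r a h0 x
  have hsurj : ∀ i, ∃ y : ℝ, ((y : ℝ) : UnitAddCircle) = x i := fun i =>
    QuotientAddGroup.mk_surjective (x i)
  choose y hy using hsurj
  obtain ⟨β, hβ0, hβ⟩ := exists_phase (d := d) a h0 y
  have hval : ∀ k : ℕ, UnitAddTorus.mFourier (fun i => (pol d a k i : ℤ)) x = ee (β.eval (k : ℝ)) := by
    intro k
    rw [mF_eq_ee x y hy, hβ]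
  by_cases hirr : ∃ j, 1 ≤ j ∧ Irrational (β.coeff j)
  · right
    intro n
    obtain ⟨j, hj1, hj⟩ := hirr
    have hW := weyl_poly (β.comp (C ((n.factorial : ℕ) : ℝ) * X)) ⟨j, hj1, by
      rw [comp_C_mul_X_coeff, ← Nat.cast_pow]
      exact hj.mul_natCast (pow_ne_zero _ n.factorial_ne_zero)⟩
    refine hW.congr fun K => ?_
    unfold cav
    congr 1
    refine Finset.sum_congr rfl fun k _ => ?_
    rw [hval]
    show ee (eval (k : ℝ) (β.comp (C ((n.factorial : ℕ) : ℝ) * X))) = _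
    rw [eval_comp, eval_mul, eval_C, eval_X, Nat.cast_mul]
  · left
    push Not at hirr
    obtain ⟨n₀, hn₀⟩ := int_value β hβ0 hirr
    refine ⟨n₀, fun n hn k => ?_⟩
    obtain ⟨z, hz⟩ := hn₀ n hn k
    rw [hval, hz, ee_int]

end Pool.Agent.J6H96.CF
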