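import Pool.Agent.J6H96.CF.Main
import Pool.Agent.J6H96.CF.RAM
import Pool.Agent.J6H96.CF.FC
import Pool.Agent.J6H92.CF.FEJ
import Pool.Agent.J6H96.CF.WEYL
import Pool.Agent.J6H96.CF.LIM
import Pool.Agent.J6H96.CF.DIR
import Pool.Agent.J6H96.CF.SHIFT
import Pool.Agent.J6H96.CF.SHS
import Pool.Agent.J6H96.CF.SAR

/-!
Families determined by boundedly many counts: all modules together.
-/

set_option autoImplicit false

namespace Pool.Agent.J6H96.CF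

open Finset

theorem sar : S_SAR := t_SAR t_FC Pool.Agent.J6H92.CF.t_FEJ (t_LIM t_WEYL) t_DIR

theorem all (d : ℕ) (hd : 1 ≤ d) (r : ℕ) (δ : ℝ) (hδ : 0 < δ) :
    ∃ ε : ℝ, 0 < ε ∧ ∃ M : ℕ, ∀ (N : ℕ) (I : Finset (Fin N)), M ≤ I.card →
      ∀ (χ : Finset (Fin d → Fin N) → (Fin d → Fin N) → Fin r)
        (F S : Finset (Finset (Fin d → Fin N))),
        (∀ C A B, Disjoint C (cube d I) → A ⊆ cube d I → B ⊆ cube d I →
          cnt (χ C) A = cnt (χ C) B → A ∪ C ∈ F → B ∪ C ∈ F) →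
        δ * 2 ^ (N ^ d) ≤ (F.card : ℝ) → ((F \ S).card : ℝ) ≤ ε * 2 ^ (N ^ d) →
        ∃ A ∈ S, ∃ γ : Finset (Fin N), γ ⊆ I ∧ γ.Nonempty ∧
          Disjoint A (cube d γ) ∧ A ∪ cube d γ ∈ S :=
  main t_RAM sar (t_SHS t_SHIFT) d hd r δ hδ

end Pool.Agent.J6H96.CF
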