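import Pool.Agent.J6H96.CF.Stm2

/-!
# Project CF, module CONC: second moment for disjoint blocks in the cube.
-/

set_option autoImplicit false

namespace Pool.Agent.J6H96.CF

open Finset

namespace CONC

/-- the number of the subsets of `P` disjoint from `V`, times `2 ^ |V|`, is `2 ^ |P|` -/
theorem count_disj {E : Type} [DecidableEq E] (P V : Finset E) (hV : V ⊆ P) :
    (2 : ℝ) ^ V.card * ((P.powerset.filter (fun A => Disjoint A V)).card : ℝ) = 2 ^ P.card := by
  have h1 : P.powerset.filter (fun A => Disjoint A V) = (P \ V).powerset := by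
    ext A
    simp only [mem_filter, mem_powerset]
    constructor
    · rintro ⟨h, hd⟩
      exact Finset.subset_sdiff.mpr ⟨h, hd⟩
    · intro h
      exact Finset.subset_sdiff.mp h
  rw [h1, card_powerset, card_sdiff_of_subset hV]
  push_cast
  rw [← pow_add]
  congr 1
  have := card_le_card hV
  omega

/-- the indicator of `A ∩ V = ∅` -/
noncomputable def ind {E : Type} [DecidableEq E] (V A : Finset E) : ℝ := if Disjoint A V then 1 else 0

theorem sum_ind {E : Type} [DecidableEq E] (P V : Finset E) (hV : V ⊆ P) :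
    (2 : ℝ) ^ V.card * ∑ A ∈ P.powerset, ind V A = 2 ^ P.card := by
  rw [← count_disj P V hV]
  congr 1
  unfold ind
  rw [Finset.sum_boole]

theorem ind_mul {E : Type} [DecidableEq E] (V W A : Finset E) :
    ind V A * ind W A = ind (V ∪ W) A := by
  unfold ind
  by_cases h1 : Disjoint A V <;> by_cases h2 : Disjoint A W <;>
    simp [h1, h2, Finset.disjoint_union_right]

theorem cross {E : Type} [DecidableEq E] (P : Finset E) (w m : ℕ) (Wj : Fin m → Finset E)
    (hP : ∀ j, Wj j ⊆ P) (hw : ∀ j, (Wj j).card = w) (hd : ∀ j l, j ≠ l → Disjoint (Wj j) (Wj l))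
    (j l : Fin m) :
    ∑ A ∈ P.powerset, (2 ^ w * ind (Wj j) A - 1) * (2 ^ w * ind (Wj l) A - 1) =
      if j = l then ((2 : ℝ) ^ w - 1) * 2 ^ P.card else 0 := by
  have e1 : ∀ A ∈ P.powerset, (2 ^ w * ind (Wj j) A - 1) * (2 ^ w * ind (Wj l) A - 1) =
      (2 ^ w * 2 ^ w) * ind (Wj j ∪ Wj l) A - 2 ^ w * ind (Wj j) A - 2 ^ w * ind (Wj l) A + 1 := by
    intro A _
    rw [← ind_mul]
    ring
  rw [Finset.sum_congr rfl e1, Finset.sum_add_distrib, Finset.sum_sub_distrib,
    Finset.sum_sub_distrib, ← Finset.mul_sum, ← Finset.mul_sum, ← Finset.mul_sum]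
  have e2 := sum_ind P (Wj j) (hP j)
  have e3 := sum_ind P (Wj l) (hP l)
  rw [hw j] at e2
  rw [hw l] at e3
  have e4 := sum_ind P (Wj j ∪ Wj l) (Finset.union_subset (hP j) (hP l))
  have e5 : ∑ _A ∈ P.powerset, (1 : ℝ) = 2 ^ P.card := by
    rw [Finset.sum_const, card_powerset]
    simp
  rw [e2, e3, e5]
  by_cases h : j = l
  · subst h
    rw [Finset.union_self, hw j] at e4
    rw [Finset.union_self, mul_assoc, e4, if_pos rfl]
    ring
  · rw [card_union_of_disjoint (hd j l h), hw j, hw l, pow_add] at e4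
    rw [e4, if_neg h]
    ring

theorem first {E : Type} [DecidableEq E] (P : Finset E) (w m : ℕ) (Wj : Fin m → Finset E)
    (hP : ∀ j, Wj j ⊆ P) (hw : ∀ j, (Wj j).card = w) (hd : ∀ j l, j ≠ l → Disjoint (Wj j) (Wj l))
    (S : Finset (Finset E)) (hS : ∀ A ∈ S, A ⊆ P) :
    |2 ^ w * ∑ j, (((S.filter (fun A => Disjoint A (Wj j))).card : ℕ) : ℝ) - m * (S.card : ℝ)| ≤
        2 ^ P.card * √(m * 2 ^ w) := by
  set f : Finset E → ℝ := fun A => ∑ j, (2 ^ w * ind (Wj j) A - 1) with hf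
  have hsum : 2 ^ w * ∑ j, (((S.filter (fun A => Disjoint A (Wj j))).card : ℕ) : ℝ) - m * (S.card : ℝ)
      = ∑ A ∈ S, f A := by
    rw [hf]
    simp only
    rw [Finset.sum_comm]
    have : ∀ j : Fin m, ∑ A ∈ S, (2 ^ w * ind (Wj j) A - 1) =
        2 ^ w * (((S.filter (fun A => Disjoint A (Wj j))).card : ℕ) : ℝ) - (S.card : ℝ) := by
      intro j
      rw [Finset.sum_sub_distrib, ← Finset.mul_sum]
      unfold ind
      rw [Finset.sum_boole]
      simp
    rw [Finset.sum_congr rfl (fun j _ => this j), Finset.sum_sub_distrib, ← Finset.mul_sum]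
    simp
  have hsq : ∑ A ∈ P.powerset, f A ^ 2 ≤ m * 2 ^ w * 2 ^ P.card := by
    have e1 : ∀ A ∈ P.powerset, f A ^ 2 = ∑ j, ∑ l,
        (2 ^ w * ind (Wj j) A - 1) * (2 ^ w * ind (Wj l) A - 1) := by
      intro A _
      rw [hf, sq, Finset.sum_mul_sum]
    rw [Finset.sum_congr rfl e1, Finset.sum_comm]
    have e2 : ∀ j : Fin m, ∑ A ∈ P.powerset, ∑ l,
        (2 ^ w * ind (Wj j) A - 1) * (2 ^ w * ind (Wj l) A - 1) = ((2 : ℝ) ^ w - 1) * 2 ^ P.card := by
      intro j
      rw [Finset.sum_comm, Finset.sum_congr rfl (fun l _ => cross P w m Wj hP hw hd j l)]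
      simp
    rw [Finset.sum_congr rfl (fun j _ => e2 j)]
    rw [Finset.sum_const, Finset.card_univ, Fintype.card_fin, nsmul_eq_mul]
    have h0 : (0 : ℝ) ≤ m := Nat.cast_nonneg m
    have h1 : (0 : ℝ) < 2 ^ P.card := by positivity
    nlinarith [mul_nonneg h0 h1.le]
  have hcs : (∑ A ∈ S, f A) ^ 2 ≤ (2 ^ P.card) ^ 2 * (m * 2 ^ w) := by
    have hsub : S ⊆ P.powerset := fun A hA => mem_powerset.mpr (hS A hA)
    have c1 : (∑ A ∈ S, f A) ^ 2 ≤ (S.card : ℝ) * ∑ A ∈ S, f A ^ 2 := sq_sum_le_card_mul_sum_sq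
    have c2 : ∑ A ∈ S, f A ^ 2 ≤ ∑ A ∈ P.powerset, f A ^ 2 :=
      Finset.sum_le_sum_of_subset_of_nonneg hsub (fun _ _ _ => sq_nonneg _)
    have c3 : (S.card : ℝ) ≤ 2 ^ P.card := by
      have := card_le_card hsub
      rw [card_powerset] at this
      exact_mod_cast this
    have c4 : 0 ≤ ∑ A ∈ S, f A ^ 2 := Finset.sum_nonneg (fun _ _ => sq_nonneg _)
    calc (∑ A ∈ S, f A) ^ 2 ≤ (S.card : ℝ) * ∑ A ∈ S, f A ^ 2 := c1
      _ ≤ 2 ^ P.card * ∑ A ∈ S, f A ^ 2 := mul_le_mul_of_nonneg_right c3 c4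
      _ ≤ 2 ^ P.card * (m * 2 ^ w * 2 ^ P.card) :=
          mul_le_mul_of_nonneg_left (c2.trans hsq) (by positivity)
      _ = (2 ^ P.card) ^ 2 * (m * 2 ^ w) := by ring
  rw [hsum]
  have h2 := Real.abs_le_sqrt hcs
  rwa [Real.sqrt_mul (by positivity), Real.sqrt_sq (by positivity)] at h2

end CONC

theorem t_CONC : S_CONC := by
  intro E _ P w m Wj hP hw hd S hS
  refine ⟨CONC.first P w m Wj hP hw hd S hS, ?_⟩
  set S' : Finset (Finset E) := S.image (fun A => P \ A) with hS'
  have hinj : Set.InjOn (fun A : Finset E => P \ A) (S : Set (Finset E)) := by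
    intro A hA B hB hAB
    simp only at hAB
    have hA' := hS A (mem_coe.mp hA)
    have hB' := hS B (mem_coe.mp hB)
    rw [← Finset.sdiff_sdiff_eq_self hA', ← Finset.sdiff_sdiff_eq_self hB', hAB]
  have hS'P : ∀ A ∈ S', A ⊆ P := by
    intro A hA
    obtain ⟨B, _, rfl⟩ := mem_image.mp hA
    exact sdiff_subset
  have hcard : S'.card = S.card := card_image_of_injOn hinj
  have hfil : ∀ j, (S'.filter (fun A => Disjoint A (Wj j))).card =
      (S.filter (fun A => Wj j ⊆ A)).card := by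
    intro j
    rw [hS', filter_image]
    have e : S.filter (fun A => Disjoint (P \ A) (Wj j)) = S.filter (fun A => Wj j ⊆ A) := by
      apply filter_congr
      intro A _
      rw [Finset.disjoint_left]
      constructor
      · intro h x hx
        by_contra hxA
        exact h (mem_sdiff.mpr ⟨hP j hx, hxA⟩) hx
      · intro h x hx hx'
        exact (mem_sdiff.mp hx).2 (h hx')
    rw [e]
    apply card_image_of_injOn
    exact hinj.mono (by
      intro A hA
      exact mem_coe.mpr (mem_filter.mp (mem_coe.mp hA)).1)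
  have h := CONC.first P w m Wj hP hw hd S' hS'P
  simp only [hfil, hcard] at h
  exact h

end Pool.Agent.J6H96.CF
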