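import Pool.Agent.J6H96.CF.Main2
import Pool.Agent.J6H96.CF.CONC
import Pool.Agent.J6H96.CF.All

/-!
Families determined by boundedly many counts: all modules of the second part together.
-/

set_option autoImplicit false

namespace Pool.Agent.J6H96.CF

open Finset

theorem all2 (d : ℕ) (hd : 1 ≤ d) (r : ℕ) (δ η : ℝ) (hδ : 0 < δ) (hη : 0 < η) :
    ∃ M : ℕ, ∀ (N : ℕ) (I : Finset (Fin N)), M ≤ I.card →
      ∀ (χ : Finset (Fin d → Fin N) → (Fin d → Fin N) → Fin r)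
        (F S : Finset (Finset (Fin d → Fin N))),
        (∀ C A B, Disjoint C (cube d I) → A ⊆ cube d I → B ⊆ cube d I →
          cnt (χ C) A = cnt (χ C) B → A ∪ C ∈ F → B ∪ C ∈ F) →
        δ * 2 ^ (N ^ d) ≤ (F.card : ℝ) →
        (1 / 2 + η) * (F.card : ℝ) ≤ ((F.filter fun A => A ∈ S).card : ℝ) →
        ∃ A ∈ S, ∃ γ : Finset (Fin N), γ ⊆ I ∧ γ.Nonempty ∧
          Disjoint A (cube d γ) ∧ A ∪ cube d γ ∈ S :=
  main2 t_RAM sar (t_SHS t_SHIFT) t_CONC d hd r δ η hδ hη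

end Pool.Agent.J6H96.CF
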