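import Pool.Agent.J6H96.CF.Stm3

/-!
# Project CF: changes along blocks
-/

set_option autoImplicit false

namespace Pool.Agent.J6H96.CF

open Finset

open Classical in
theorem block_le {E : Type} [DecidableEq E] (P : Finset E) (U : Finset E → Prop) (W : Finset E)
    (hW : W ⊆ P) :
    (P.powerset.filter fun A => Disjoint A W ∧ ¬ (U A ↔ U (A ∪ W))).card ≤
      ∑ x ∈ W, (P.powerset.filter fun A => x ∉ A ∧ ¬ (U A ↔ U (insert x A))).card := by
  induction W using Finset.induction_on with
  | empty => simp
  | insert y V hy ih =>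
    rw [Finset.sum_insert hy]
    have hV : V ⊆ P := (Finset.subset_insert _ _).trans hW
    have h1 := ih hV
    set F := P.powerset.filter fun A => Disjoint A (insert y V) ∧
      ¬ (U (A ∪ V) ↔ U (insert y (A ∪ V))) with hF
    have h2 : (P.powerset.filter fun A => Disjoint A (insert y V) ∧
        ¬ (U A ↔ U (A ∪ insert y V))) ⊆
        (P.powerset.filter fun A => Disjoint A V ∧ ¬ (U A ↔ U (A ∪ V))) ∪ F := by
      intro A hA
      rw [Finset.mem_filter] at hA
      obtain ⟨hA1, hA2, hA3⟩ := hA
      rw [Finset.union_insert] at hA3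
      rw [Finset.mem_union, Finset.mem_filter, hF, Finset.mem_filter]
      have hA4 : Disjoint A V := Finset.disjoint_of_subset_right (Finset.subset_insert _ _) hA2
      by_cases h : U A ↔ U (A ∪ V)
      · exact Or.inr ⟨hA1, hA2, fun h' => hA3 (h.trans h')⟩
      · exact Or.inl ⟨hA1, hA4, h⟩
    have h3 : F.card ≤ (P.powerset.filter fun A => y ∉ A ∧ ¬ (U A ↔ U (insert y A))).card := by
      refine Finset.card_le_card_of_injOn (fun A => A ∪ V) ?_ ?_
      · intro A hA
        rw [Finset.mem_coe, hF, Finset.mem_filter, Finset.mem_powerset] at hA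
        obtain ⟨hA1, hA2, hA3⟩ := hA
        rw [Finset.mem_coe, Finset.mem_filter, Finset.mem_powerset]
        refine ⟨Finset.union_subset hA1 hV, ?_, hA3⟩
        rw [Finset.mem_union, not_or]
        exact ⟨Finset.disjoint_right.1 hA2 (Finset.mem_insert_self _ _), hy⟩
      · intro A hA B hB h
        rw [Finset.mem_coe, hF, Finset.mem_filter] at hA hB
        have hA4 : Disjoint A V :=
          Finset.disjoint_of_subset_right (Finset.subset_insert _ _) hA.2.1
        have hB4 : Disjoint B V :=
          Finset.disjoint_of_subset_right (Finset.subset_insert _ _) hB.2.1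
        have h' : A ∪ V = B ∪ V := h
        have e1 : (A ∪ V) \ V = A := by
          rw [Finset.union_sdiff_right]
          exact Finset.sdiff_eq_self_of_disjoint hA4
        have e2 : (B ∪ V) \ V = B := by
          rw [Finset.union_sdiff_right]
          exact Finset.sdiff_eq_self_of_disjoint hB4
        rw [← e1, h', e2]
    have h4 := (Finset.card_le_card h2).trans (Finset.card_union_le _ _)
    omega

theorem t_BLK (h : S_UNI) : S_BLK := by
  classical
  intro E _ P U hU w m Wj h1 h2 h3
  set X := Finset.univ.biUnion Wj with hX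
  have hXP : X ⊆ P := by
    rw [hX, Finset.biUnion_subset]
    exact fun j _ => h1 j
  have hXc : X.card = m * w := by
    rw [hX, Finset.card_biUnion fun j _ l _ hjl => h3 j l hjl]
    simp [h2]
  have h4 := h E P U hU X hXP
  have h5 : (X.card : ℝ) = (m : ℝ) * w := by
    rw [hXc]
    push_cast
    ring
  rw [h5] at h4
  refine le_trans ?_ h4
  rw [hX, Finset.sum_biUnion fun j _ l _ hjl => h3 j l hjl]
  refine Finset.sum_le_sum fun j _ => ?_
  have h6 := block_le P U (Wj j) (h1 j)
  have h7 : (((P.powerset.filter fun A => Disjoint A (Wj j) ∧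
      ¬ (U A ↔ U (A ∪ Wj j))).card : ℕ) : ℝ) ≤
      ((∑ x ∈ Wj j, (P.powerset.filter fun A => x ∉ A ∧ ¬ (U A ↔ U (insert x A))).card : ℕ) : ℝ) := by
    exact_mod_cast h6
  push_cast at h7
  exact h7

end Pool.Agent.J6H96.CF
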