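import Pool.Agent.J6H96.CF.Stm3

/-!
# CF-UNI: the total influence of unate families
-/

set_option autoImplicit false

namespace Pool.Agent.J6H96.CF

open Finset

namespace UNIaux

variable {E : Type} [DecidableEq E]

/-- the sign of `x` in `A` -/
noncomputable def sg (x : E) (A : Finset E) : ℝ := if x ∈ A then 1 else -1

theorem sg_mul_self (x : E) (A : Finset E) : sg x A * sg x A = 1 := by
  unfold sg
  split_ifs <;> norm_num

theorem sum_split (P : Finset E) {x : E} (hx : x ∈ P) (f : Finset E → ℝ) :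
    ∑ A ∈ P.powerset, f A = ∑ A ∈ (P.erase x).powerset, (f A + f (insert x A)) := by
  have h1 := Finset.sum_powerset_insert (Finset.notMem_erase x P) f
  rw [Finset.insert_erase hx] at h1
  rw [h1, Finset.sum_add_distrib]

theorem notMem_of {P A : Finset E} {x : E} (hA : A ∈ (P.erase x).powerset) : x ∉ A := fun h =>
  Finset.notMem_erase x P (Finset.mem_powerset.mp hA h)

theorem sub_of {P A : Finset E} {x : E} (hA : A ∈ (P.erase x).powerset) : A ⊆ P :=
  (Finset.mem_powerset.mp hA).trans (Finset.erase_subset x P)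

theorem sg_ins (x : E) (A : Finset E) : sg x (insert x A) = 1 := by
  unfold sg
  rw [if_pos (Finset.mem_insert_self x A)]

theorem sg_not {x : E} {A : Finset E} (h : x ∉ A) : sg x A = -1 := by
  unfold sg
  rw [if_neg h]

theorem sg_ins_ne {x y : E} (h : y ≠ x) (A : Finset E) : sg y (insert x A) = sg y A := by
  unfold sg
  by_cases h1 : y ∈ A
  · rw [if_pos h1, if_pos (Finset.mem_insert_of_mem h1)]
  · rw [if_neg h1, if_neg (fun h2 => h1 ((Finset.mem_insert.mp h2).resolve_left h))]

theorem orth (P : Finset E) {x y : E} (hx : x ∈ P) (h : y ≠ x) :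
    ∑ A ∈ P.powerset, sg x A * sg y A = 0 := by
  rw [sum_split P hx]
  refine Finset.sum_eq_zero fun A hA => ?_
  rw [sg_ins, sg_ins_ne h, sg_not (notMem_of hA)]
  ring

theorem sq_sum (P X : Finset E) (hX : X ⊆ P) (s : E → ℝ) (hs : ∀ x, s x * s x = 1) :
    ∑ A ∈ P.powerset, (∑ x ∈ X, s x * sg x A) ^ 2 = (X.card : ℝ) * 2 ^ P.card := by
  have h1 : ∀ A ∈ P.powerset, (∑ x ∈ X, s x * sg x A) ^ 2 =
      ∑ x ∈ X, ∑ y ∈ X, s x * s y * (sg x A * sg y A) := by
    intro A _
    rw [sq, Finset.sum_mul_sum]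
    refine Finset.sum_congr rfl fun x _ => Finset.sum_congr rfl fun y _ => ?_
    ring
  rw [Finset.sum_congr rfl h1, Finset.sum_comm]
  have h2 : ∀ x ∈ X, ∑ A ∈ P.powerset, ∑ y ∈ X, s x * s y * (sg x A * sg y A) = 2 ^ P.card := by
    intro x hx
    rw [Finset.sum_comm, Finset.sum_eq_single_of_mem x hx]
    · rw [Finset.sum_congr rfl (fun A _ => by rw [sg_mul_self, hs x, mul_one] :
        ∀ A ∈ P.powerset, s x * s x * (sg x A * sg x A) = (1 : ℝ))]
      rw [Finset.sum_const, Finset.card_powerset, nsmul_eq_mul, mul_one]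
      push_cast
      rfl
    · intro y _ hy
      rw [← Finset.mul_sum, orth P (hX hx) hy, mul_zero]
  rw [Finset.sum_congr rfl h2, Finset.sum_const, nsmul_eq_mul]

end UNIaux

open UNIaux

theorem t_UNI : S_UNI := by
  classical
  intro E _ P U hU X hX
  let s : E → ℝ := fun x => if (∀ A, A ⊆ P → x ∉ A → U A → U (insert x A)) then 1 else -1
  have hs : ∀ x, s x * s x = 1 := by
    intro x
    show (if _ then (1 : ℝ) else -1) * (if _ then (1 : ℝ) else -1) = 1
    split_ifs <;> norm_num
  let ind : Finset E → ℝ := fun A => if U A then 1 else 0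
  have hcl : ∀ x ∈ P, ((P.powerset.filter fun A => x ∉ A ∧ ¬ (U A ↔ U (insert x A))).card : ℝ) =
      s x * ∑ A ∈ P.powerset, ind A * sg x A := by
    intro x hx
    have e1 : ((P.powerset.filter fun A => x ∉ A ∧ ¬ (U A ↔ U (insert x A))).card : ℝ) =
        ∑ A ∈ P.powerset, (if x ∉ A ∧ ¬ (U A ↔ U (insert x A)) then (1 : ℝ) else 0) := by
      rw [Finset.card_filter]
      push_cast
      rfl
    rw [e1, sum_split P hx, sum_split P hx, Finset.mul_sum]
    refine Finset.sum_congr rfl fun A hA => ?_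
    have hxA : x ∉ A := notMem_of hA
    have hAP : A ⊆ P := sub_of hA
    rw [sg_ins, sg_not hxA, if_neg (fun h : x ∉ insert x A ∧ _ => h.1 (Finset.mem_insert_self x A)),
      add_zero]
    show _ = (if _ then (1 : ℝ) else -1) * ((if U A then (1 : ℝ) else 0) * -1 +
      (if U (insert x A) then (1 : ℝ) else 0) * 1)
    by_cases h : (∀ A, A ⊆ P → x ∉ A → U A → U (insert x A))
    · rw [if_pos h]
      by_cases h1 : U A
      · have h2 := h A hAP hxA h1
        rw [if_pos h1, if_pos h2, if_neg (fun h3 => h3.2 ⟨fun _ => h2, fun _ => h1⟩)]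
        norm_num
      · by_cases h2 : U (insert x A)
        · rw [if_neg h1, if_pos h2, if_pos ⟨hxA, fun h3 => h1 (h3.mpr h2)⟩]
          norm_num
        · rw [if_neg h1, if_neg h2, if_neg (fun h3 => h3.2 ⟨fun h4 => absurd h4 h1, fun h4 => absurd h4 h2⟩)]
          norm_num
    · have h' := (hU x hx).resolve_left h
      rw [if_neg h]
      by_cases h2 : U (insert x A)
      · have h1 := h' A hAP hxA h2
        rw [if_pos h1, if_pos h2, if_neg (fun h3 => h3.2 ⟨fun _ => h2, fun _ => h1⟩)]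
        norm_num
      · by_cases h1 : U A
        · rw [if_pos h1, if_neg h2, if_pos ⟨hxA, fun h3 => h2 (h3.mp h1)⟩]
          norm_num
        · rw [if_neg h1, if_neg h2, if_neg (fun h3 => h3.2 ⟨fun h4 => absurd h4 h1, fun h4 => absurd h4 h2⟩)]
          norm_num
  have htot : ∑ x ∈ X, ((P.powerset.filter fun A => x ∉ A ∧ ¬ (U A ↔ U (insert x A))).card : ℝ) ≤
      ∑ A ∈ P.powerset, |∑ x ∈ X, s x * sg x A| := by
    rw [Finset.sum_congr rfl (fun x hx => hcl x (hX hx))]
    have e2 : ∑ x ∈ X, s x * ∑ A ∈ P.powerset, ind A * sg x A =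
        ∑ A ∈ P.powerset, ind A * ∑ x ∈ X, s x * sg x A := by
      simp only [Finset.mul_sum]
      rw [Finset.sum_comm]
      refine Finset.sum_congr rfl fun A _ => Finset.sum_congr rfl fun x _ => ?_
      ring
    rw [e2]
    refine Finset.sum_le_sum fun A _ => ?_
    show (if U A then (1 : ℝ) else 0) * _ ≤ _
    split_ifs
    · rw [one_mul]
      exact le_abs_self _
    · rw [zero_mul]
      exact abs_nonneg _
  have hCS : (∑ A ∈ P.powerset, |∑ x ∈ X, s x * sg x A|) ^ 2 ≤
      (2 ^ P.card * √(X.card : ℝ)) ^ 2 := by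
    refine (sq_sum_le_card_mul_sum_sq).trans ?_
    have e3 : ∑ A ∈ P.powerset, |∑ x ∈ X, s x * sg x A| ^ 2 = (X.card : ℝ) * 2 ^ P.card := by
      rw [← sq_sum P X hX s hs]
      exact Finset.sum_congr rfl fun A _ => sq_abs _
    rw [e3, Finset.card_powerset, mul_pow, Real.sq_sqrt (Nat.cast_nonneg _)]
    push_cast
    apply le_of_eq
    ring
  have h0 : 0 ≤ ∑ A ∈ P.powerset, |∑ x ∈ X, s x * sg x A| :=
    Finset.sum_nonneg fun A _ => abs_nonneg _
  have h1 := (sq_le_sq₀ h0 (by positivity)).mp hCS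
  exact le_trans (le_trans (le_of_eq (by
    refine Finset.sum_congr rfl fun x _ => ?_
    congr)) htot) h1

end Pool.Agent.J6H96.CF
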