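import Pool.Agent.J6H96.CF.Main3
import Pool.Agent.J6H96.CF.CONC
import Pool.Agent.J6H96.CF.UNI
import Pool.Agent.J6H96.CF.BLK
import Pool.Agent.J6H96.CF.All

/-!
Families determined by boundedly many counts and unate families: all modules together.
-/

set_option autoImplicit false

namespace Pool.Agent.J6H96.CF

open Finset

theorem all3 (d : ℕ) (hd : 1 ≤ d) (r κ : ℕ) (δ η : ℝ) (hδ : 0 < δ) (hη : 0 < η) :
    ∃ M : ℕ, ∀ (N : ℕ) (I : Finset (Fin N)), M ≤ I.card →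
      ∀ (χ : Finset (Fin d → Fin N) → (Fin d → Fin N) → Fin r)
        (U : Finset (Fin d → Fin N) → Fin κ → Finset (Fin d → Fin N) → Prop)
        (F S : Finset (Finset (Fin d → Fin N))),
        (∀ C, Disjoint C (cube d I) → ∀ j, Unate (cube d I) (U C j)) →
        (∀ C A B, Disjoint C (cube d I) → A ⊆ cube d I → B ⊆ cube d I →
          cnt (χ C) A = cnt (χ C) B → (∀ j, U C j A ↔ U C j B) → A ∪ C ∈ F → B ∪ C ∈ F) →
        δ * 2 ^ (N ^ d) ≤ (F.card : ℝ) →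
        (1 / 2 + η) * (F.card : ℝ) ≤ ((F.filter fun A => A ∈ S).card : ℝ) →
        ∃ A ∈ S, ∃ γ : Finset (Fin N), γ ⊆ I ∧ γ.Nonempty ∧
          Disjoint A (cube d γ) ∧ A ∪ cube d γ ∈ S :=
  main3 t_RAM sar (t_SHS t_SHIFT) t_CONC (t_BLK t_UNI) d hd r κ δ η hδ hη

end Pool.Agent.J6H96.CF
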