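import Pool.Agent.J6H96.CF.Stm

/-!
Families determined by boundedly many counts: the main argument.
-/

set_option autoImplicit false

namespace Pool.Agent.J6H96.CF

open Finset

section basic

variable {E : Type} [DecidableEq E] {r : ℕ}

theorem cnt_union (χ : E → Fin r) {A B : Finset E} (h : Disjoint A B) :
    cnt χ (A ∪ B) = cnt χ A + cnt χ B := by
  funext i
  unfold cnt
  rw [Pi.add_apply, filter_union, card_union_of_disjoint (disjoint_filter_filter h)]

omit [DecidableEq E] in
theorem cnt_le (χ : E → Fin r) (A : Finset E) (i : Fin r) : cnt χ A i ≤ A.card :=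
  card_filter_le _ _

theorem sum_powerset_union {U W : Finset E} (h : Disjoint U W) (f : Finset E → ℝ) :
    ∑ A ∈ (U ∪ W).powerset, f A = ∑ C ∈ W.powerset, ∑ B ∈ U.powerset, f (B ∪ C) := by
  rw [← sum_product' W.powerset U.powerset (fun C B => f (B ∪ C))]
  symm
  have hU : ∀ B C : Finset E, B ⊆ U → C ⊆ W → (B ∪ C) ∩ U = B ∧ (B ∪ C) ∩ W = C := by
    intro B C hB hC
    rw [disjoint_left] at h
    constructor
    · ext x
      simp only [mem_inter, mem_union]
      constructor
      · rintro ⟨h1 | h1, h2⟩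
        · exact h1
        · exact absurd (hC h1) (h h2)
      · exact fun h1 => ⟨Or.inl h1, hB h1⟩
    · ext x
      simp only [mem_inter, mem_union]
      constructor
      · rintro ⟨h1 | h1, h2⟩
        · exact absurd h2 (h (hB h1))
        · exact h1
      · exact fun h1 => ⟨Or.inr h1, hC h1⟩
  refine sum_nbij' (fun p => p.2 ∪ p.1) (fun A => (A ∩ W, A ∩ U)) ?_ ?_ ?_ ?_ ?_
  · rintro ⟨C, B⟩ hp
    rw [mem_product, mem_powerset, mem_powerset] at hp
    rw [mem_powerset]
    exact union_subset_union hp.2 hp.1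
  · intro A _
    rw [mem_product, mem_powerset, mem_powerset]
    exact ⟨inter_subset_right, inter_subset_right⟩
  · rintro ⟨C, B⟩ hp
    rw [mem_product, mem_powerset, mem_powerset] at hp
    obtain ⟨h1, h2⟩ := hU B C hp.2 hp.1
    exact Prod.ext h2 h1
  · intro A hA
    rw [mem_powerset] at hA
    change A ∩ U ∪ A ∩ W = A
    rw [← inter_union_distrib_left]
    exact inter_eq_left.2 hA
  · rintro ⟨C, B⟩ _
    rfl

end basic

/-- the coefficients from a finite set -/
def extc {d r : ℕ} (a : Fin (d + 1) → Fin r → Fin (d ^ d + 1)) (j : ℕ) (i : Fin r) : ℕ :=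
  if h : j < d + 1 ∧ j ≠ 0 then a ⟨j, h.1⟩ i else 0

theorem card_cube {N : ℕ} (d : ℕ) (γ : Finset (Fin N)) : (cube d γ).card = γ.card ^ d := by
  unfold cube
  rw [Fintype.card_piFinset, prod_const, card_univ, Fintype.card_fin]

theorem mem_cube {N d : ℕ} {γ : Finset (Fin N)} {x : Fin d → Fin N} :
    x ∈ cube d γ ↔ ∀ j, x j ∈ γ := by
  unfold cube
  rw [Fintype.mem_piFinset]

theorem cube_mono {N d : ℕ} {γ γ' : Finset (Fin N)} (h : γ ⊆ γ') : cube d γ ⊆ cube d γ' := by
  intro x hx
  rw [mem_cube] at hx ⊢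
  exact fun j => h (hx j)

theorem core (hRAM : S_RAM) (hSAR : S_SAR) (hSHS : S_SHS) (d : ℕ) (hd : 1 ≤ d) (r : ℕ) (δ : ℝ)
    (hδ : 0 < δ) :
    ∃ ε : ℝ, 0 < ε ∧ ∃ M : ℕ, ∀ (N : ℕ) (I : Finset (Fin N)), M ≤ I.card →
      ∀ (χ : (Fin d → Fin N) → Fin r) (F S : Finset (Finset (Fin d → Fin N))),
        (∀ A ∈ F, A ⊆ cube d I) →
        (∀ A B, A ⊆ cube d I → B ⊆ cube d I → cnt χ A = cnt χ B → A ∈ F → B ∈ F) →
        δ * 2 ^ (I.card ^ d) ≤ (F.card : ℝ) → ((F \ S).card : ℝ) ≤ ε * 2 ^ (I.card ^ d) →
        ∃ A ∈ S, A ⊆ cube d I ∧ ∃ γ : Finset (Fin N), γ ⊆ I ∧ γ.Nonempty ∧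
          Disjoint A (cube d γ) ∧ A ∪ cube d γ ∈ S := by
  classical
  choose K0 hK0 using fun a : Fin (d + 1) → Fin r → Fin (d ^ d + 1) =>
    hSAR d r (extc a) (fun i => by simp [extc]) (δ / 2) (half_pos hδ)
  set K : ℕ := univ.sup K0 + 1 with hK
  have hKK : ∀ a, K0 a ≤ K := fun a => (le_sup (mem_univ a)).trans (Nat.le_succ _)
  have hK1 : 1 ≤ K := Nat.succ_le_succ (Nat.zero_le _)
  obtain ⟨M1, hM1⟩ := hRAM d r K hd
  set w0 : ℕ := K ^ d + r * K with hw0
  set Bd : ℕ := w0 + K with hBd
  obtain ⟨n, hn⟩ : ∃ n : ℕ, 4 * (r : ℝ) * Bd / √((n : ℝ) + 1) ≤ δ / 8 := by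
    obtain ⟨n, hn⟩ := exists_nat_gt ((4 * (r : ℝ) * Bd / (δ / 8)) ^ 2)
    refine ⟨n, ?_⟩
    have h1 : 4 * (r : ℝ) * Bd / (δ / 8) ≤ √((n : ℝ) + 1) := by
      apply Real.le_sqrt_of_sq_le
      linarith
    have h2 : 0 < √((n : ℝ) + 1) := Real.sqrt_pos.2 (by positivity)
    rw [div_le_iff₀ h2]
    rw [div_le_iff₀ (by positivity)] at h1
    linarith
  set nb : ℕ := n + w0 with hnb
  refine ⟨δ / 4 / 2 ^ w0, by positivity, M1 + r * (nb * d), ?_⟩
  intro N I hI χ F S hFI hF hFc hFS
  -- big classes
  set big : Finset (Fin r) := univ.filter fun i => nb ≤ cnt χ (cube d I) i with hbig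
  set touched : Finset (Fin N) := (univ \ big).biUnion fun i =>
    ((cube d I).filter fun x => χ x = i).biUnion fun x => univ.image x with htouched
  have htc : touched.card ≤ r * (nb * d) := by
    refine card_biUnion_le.trans ?_
    calc ∑ i ∈ univ \ big, (((cube d I).filter fun x => χ x = i).biUnion
          fun x => univ.image x).card ≤ ∑ i ∈ univ \ big, nb * d := by
          refine sum_le_sum fun i hi => ?_
          have h1 : cnt χ (cube d I) i ≤ nb := by
            rw [mem_sdiff, hbig, mem_filter, not_and] at hi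
            exact le_of_lt (not_le.1 (hi.2 (mem_univ i)))
          refine (card_biUnion_le_card_mul _ _ d fun x _ => ?_).trans
            (Nat.mul_le_mul_right d h1)
          refine card_image_le.trans ?_
          rw [card_univ, Fintype.card_fin]
      _ ≤ r * (nb * d) := by
          rw [sum_const, smul_eq_mul]
          refine Nat.mul_le_mul_right _ ?_
          refine (card_le_univ _).trans ?_
          rw [Fintype.card_fin]
  set V : Finset (Fin N) := I \ touched with hV
  have hVc : M1 ≤ V.card := by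
    have h1 := le_card_sdiff touched I
    rw [← hV] at h1
    omega
  obtain ⟨H, a, hHV, hHc, ha, ha0, hpol⟩ := hM1 N V χ hVc
  have hHI : H ⊆ I := hHV.trans sdiff_subset
  have hH_big : ∀ x ∈ cube d H, χ x ∈ big := by
    intro x hx
    by_contra hcon
    have hxI := cube_mono hHI hx
    rw [mem_cube] at hx
    have h1 : x ⟨0, hd⟩ ∈ V := hHV (hx _)
    rw [hV, mem_sdiff] at h1
    apply h1.2
    rw [htouched, mem_biUnion]
    refine ⟨χ x, by rw [mem_sdiff]; exact ⟨mem_univ _, hcon⟩, ?_⟩
    rw [mem_biUnion]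
    exact ⟨x, by rw [mem_filter]; exact ⟨hxI, rfl⟩, mem_image_of_mem _ (mem_univ _)⟩
  -- the auxiliary cells
  have hT : ∀ i : Fin r, ∃ T : Finset (Fin d → Fin N), T ⊆ (cube d I \ cube d H).filter
      (fun x => χ x = i) ∧ T.card = if i ∈ big then K else 0 := by
    intro i
    by_cases hi : i ∈ big
    · simp only [if_pos hi]
      refine exists_subset_card_eq ?_
      have h1 : nb ≤ cnt χ (cube d I) i := by
        rw [hbig, mem_filter] at hi
        exact hi.2
      have h2 : (cube d I).filter (fun x => χ x = i) \ cube d H =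
          (cube d I \ cube d H).filter (fun x => χ x = i) := by
        ext x
        simp only [mem_sdiff, mem_filter]
        tauto
      rw [← h2]
      have h3 := le_card_sdiff (cube d H) ((cube d I).filter (fun x => χ x = i))
      rw [card_cube, hHc] at h3
      have h4 : 1 ≤ r := by
        have := i.2
        omega
      have h5 : K ≤ r * K := Nat.le_mul_of_pos_left K h4
      unfold cnt at h1
      omega
    · simp only [if_neg hi]
      exact ⟨∅, empty_subset _, card_empty⟩
  choose T hT1 hT2 using hT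
  have hτ : ∀ (i : Fin r) (t : ℕ), ∃ s ⊆ T i, t ≤ (T i).card → s.card = t := by
    intro i t
    by_cases ht : t ≤ (T i).card
    · obtain ⟨s, hs, hs'⟩ := exists_subset_card_eq ht
      exact ⟨s, hs, fun _ => hs'⟩
    · exact ⟨∅, empty_subset _, fun h => absurd h ht⟩
  choose τ hτ1 hτ2 using hτ
  set TT : Finset (Fin d → Fin N) := univ.biUnion T with hTT
  set W : Finset (Fin d → Fin N) := cube d H ∪ TT with hW
  set U : Finset (Fin d → Fin N) := cube d I \ W with hU
  have hTTI : TT ⊆ cube d I \ cube d H := by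
    rw [hTT, biUnion_subset]
    exact fun i _ => (hT1 i).trans (filter_subset _ _)
  have hWI : W ⊆ cube d I := union_subset (cube_mono hHI) (hTTI.trans sdiff_subset)
  have hUW : Disjoint U W := sdiff_disjoint
  have hUWI : U ∪ W = cube d I := sdiff_union_of_subset hWI
  have hWc : W.card ≤ w0 := by
    refine (card_union_le _ _).trans ?_
    rw [card_cube, hHc, hw0]
    refine Nat.add_le_add_left ?_ _
    refine card_biUnion_le.trans ?_
    calc ∑ i : Fin r, (T i).card ≤ ∑ _i : Fin r, K := by
          refine sum_le_sum fun i _ => ?_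
          rw [hT2]
          split_ifs
          · exact le_rfl
          · exact Nat.zero_le _
      _ = r * K := by rw [sum_const, card_univ, Fintype.card_fin, smul_eq_mul]
  have hWbig : ∀ x ∈ W, χ x ∈ big := by
    intro x hx
    rw [hW, mem_union] at hx
    rcases hx with hx | hx
    · exact hH_big x hx
    · rw [hTT, mem_biUnion] at hx
      obtain ⟨i, -, hi⟩ := hx
      have h1 := hT1 i hi
      rw [mem_filter] at h1
      rw [h1.2]
      by_contra hcon
      have h2 := hT2 i
      rw [if_neg hcon, card_eq_zero] at h2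
      rw [h2] at hi
      exact notMem_empty _ hi
  have hcard : U.card + W.card = I.card ^ d := by
    rw [← card_cube, ← hUWI, card_union_of_disjoint hUW]
  -- the sets with given counts
  let X : (Fin r → ℕ) → Finset (Fin d → Fin N) := fun v =>
    univ.biUnion fun i => if i ∈ big then τ i (v i) else ∅
  let bp : (Fin r → ℕ) → Fin r → ℕ := fun v i => if i ∈ big then v i else 0
  have hXT : ∀ v, X v ⊆ TT := by
    intro v x hx
    rw [mem_biUnion] at hx
    obtain ⟨i, -, hi⟩ := hx
    split_ifs at hi with h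
    · rw [hTT, mem_biUnion]
      exact ⟨i, mem_univ i, hτ1 _ _ hi⟩
    · exact absurd hi (notMem_empty _)
  have hXc : ∀ v ∈ box r K, cnt χ (X v) = bp v := by
    intro v hv
    funext i
    unfold box at hv
    rw [Fintype.mem_piFinset] at hv
    have hvi := hv i
    rw [mem_range] at hvi
    have h1 : (X v).filter (fun x => χ x = i) = if i ∈ big then τ i (v i) else ∅ := by
      ext x
      rw [mem_filter, mem_biUnion]
      constructor
      · rintro ⟨⟨j, -, hj⟩, hx⟩
        split_ifs at hj with h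
        · have h2 := hT1 j (hτ1 _ _ hj)
          rw [mem_filter] at h2
          have h3 : j = i := by rw [← h2.2, hx]
          subst h3
          rw [if_pos h]
          exact hj
        · exact absurd hj (notMem_empty _)
      · intro hx
        refine ⟨⟨i, mem_univ i, hx⟩, ?_⟩
        split_ifs at hx with h
        · have h2 := hT1 i (hτ1 _ _ hx)
          rw [mem_filter] at h2
          exact h2.2
        · exact absurd hx (notMem_empty _)
    change ((X v).filter (fun x => χ x = i)).card = if i ∈ big then v i else 0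
    rw [h1]
    split_ifs with h
    · exact hτ2 i (v i) (by rw [hT2, if_pos h]; exact hvi.le)
    · exact card_empty
  -- the condition on the counts
  set R : Finset (Fin r → ℕ) := F.image (cnt χ) with hR
  have hFR : ∀ A, A ⊆ cube d I → (cnt χ A ∈ R ↔ A ∈ F) := by
    intro A hA
    rw [hR, mem_image]
    constructor
    · rintro ⟨B, hB, hBA⟩
      exact hF B A (hFI B hB) hA hBA hB
    · exact fun h => ⟨A, h, rfl⟩
  let g : (Fin r → ℕ) → ℝ := fun v => if v ∈ R then 1 else 0
  have hg : ∀ v, 0 ≤ g v ∧ g v ≤ 1 := by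
    intro v
    simp only [g]
    split_ifs <;> norm_num
  let f : (Fin r → ℕ) → ℝ := fun u => ∑ B ∈ U.powerset, g (cnt χ B + u)
  have hUI : U ⊆ cube d I := sdiff_subset
  have hsum : (F.card : ℝ) = ∑ C ∈ W.powerset, f (cnt χ C) := by
    have h1 : (F.card : ℝ) = ∑ A ∈ (U ∪ W).powerset, g (cnt χ A) := by
      rw [hUWI]
      have h2 : (cube d I).powerset.filter (fun A => cnt χ A ∈ R) = F := by
        ext A
        rw [mem_filter, mem_powerset]
        constructor
        · rintro ⟨h3, h4⟩
          exact (hFR A h3).1 h4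
        · exact fun h => ⟨hFI A h, (hFR A (hFI A h)).2 h⟩
      simp only [g]
      rw [sum_boole, h2]
    rw [h1, sum_powerset_union hUW]
    refine sum_congr rfl fun C hC => sum_congr rfl fun B hB => ?_
    rw [mem_powerset] at hB hC
    rw [cnt_union χ (disjoint_of_subset_left hB (disjoint_of_subset_right hC hUW))]
  have h2U : (0 : ℝ) < 2 ^ U.card := by positivity
  obtain ⟨C0, hC0, hfC⟩ : ∃ C ∈ W.powerset, δ * 2 ^ U.card ≤ f (cnt χ C) := by
    by_contra hcon
    push Not at hcon
    have h1 : ∑ C ∈ W.powerset, f (cnt χ C) < ∑ _C ∈ W.powerset, δ * 2 ^ U.card :=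
      sum_lt_sum_of_nonempty ⟨∅, empty_mem_powerset W⟩ hcon
    rw [← hsum, sum_const, card_powerset, nsmul_eq_mul] at h1
    rw [← hcard, pow_add] at hFc
    push_cast at h1
    nlinarith
  rw [mem_powerset] at hC0
  -- comparison of the shifts
  have hcmp : ∀ v ∈ box r K, 7 / 8 * δ * 2 ^ U.card ≤ f (bp v) := by
    intro v hv
    unfold box at hv
    rw [Fintype.mem_piFinset] at hv
    have h1 := hSHS (Fin d → Fin N) U r χ g hg big n Bd (by
      intro i hi
      have h2 : nb ≤ cnt χ (cube d I) i := by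
        rw [hbig, mem_filter] at hi
        exact hi.2
      have h3 : cnt χ (cube d I) i = cnt χ U i + cnt χ W i := by
        rw [← hUWI, cnt_union χ hUW, Pi.add_apply]
      have h4 := cnt_le χ W i
      omega) (cnt χ C0) (bp v) (by
      intro i hi
      constructor
      · have h2 := (cnt_le χ C0 i).trans (card_le_card hC0)
        omega
      · have h2 := hv i
        rw [mem_range] at h2
        simp only [bp, if_pos hi]
        omega) (by
      intro i hi
      simp only [bp, if_neg hi]
      unfold cnt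
      rw [card_eq_zero, filter_eq_empty_iff]
      intro x hx hxi
      exact hi (hxi ▸ hWbig x (hC0 hx)))
    have h2 : 2 ^ U.card * (4 * (r : ℝ) * Bd / √((n : ℝ) + 1)) ≤ 2 ^ U.card * (δ / 8) :=
      mul_le_mul_of_nonneg_left hn h2U.le
    have h3 := (abs_le.1 h1).2
    simp only [f] at hfC ⊢
    nlinarith
  -- many contents
  let RB : Finset (Fin d → Fin N) → Finset (Fin r → ℕ) := fun B =>
    (box r K).filter fun v => cnt χ B + bp v ∈ R
  have hbox : (box r K).card = K ^ r := by
    unfold box
    rw [Fintype.card_piFinset, prod_const, card_univ, Fintype.card_fin, card_range]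
  have hdbl : ∑ B ∈ U.powerset, ((RB B).card : ℝ) = ∑ v ∈ box r K, f (bp v) := by
    simp only [RB, f, g]
    rw [sum_comm]
    refine sum_congr rfl fun B _ => ?_
    rw [sum_boole]
  set BB : Finset (Finset (Fin d → Fin N)) :=
    U.powerset.filter fun B => δ / 2 * (K : ℝ) ^ r ≤ ((RB B).card : ℝ) with hBB
  have hKr : (0 : ℝ) < (K : ℝ) ^ r := by
    have : (0 : ℝ) < K := by exact_mod_cast hK1
    positivity
  have hBBc : 3 / 8 * δ * 2 ^ U.card ≤ (BB.card : ℝ) := by
    have h1 : ∑ v ∈ box r K, f (bp v) ≥ (K : ℝ) ^ r * (7 / 8 * δ * 2 ^ U.card) := by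
      calc ∑ v ∈ box r K, f (bp v) ≥ ∑ _v ∈ box r K, 7 / 8 * δ * 2 ^ U.card :=
            sum_le_sum hcmp
        _ = (K : ℝ) ^ r * (7 / 8 * δ * 2 ^ U.card) := by
            rw [sum_const, hbox, nsmul_eq_mul]
            push_cast
            ring
    have h2 : ∑ B ∈ U.powerset, ((RB B).card : ℝ) ≤
        ∑ B ∈ U.powerset, ((if B ∈ BB then (K : ℝ) ^ r else 0) + δ / 2 * (K : ℝ) ^ r) := by
      refine sum_le_sum fun B hB => ?_
      have h3 : ((RB B).card : ℝ) ≤ (K : ℝ) ^ r := by
        have : (RB B).card ≤ K ^ r := by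
          rw [← hbox]
          exact card_filter_le _ _
        exact_mod_cast this
      by_cases hb : B ∈ BB
      · rw [if_pos hb]
        have : 0 ≤ δ / 2 * (K : ℝ) ^ r := by positivity
        linarith
      · rw [if_neg hb, zero_add]
        rw [hBB, mem_filter, not_and] at hb
        exact (not_le.1 (hb hB)).le
    have h4 : ∑ B ∈ U.powerset, ((if B ∈ BB then (K : ℝ) ^ r else 0) + δ / 2 * (K : ℝ) ^ r) =
        (BB.card : ℝ) * (K : ℝ) ^ r + 2 ^ U.card * (δ / 2 * (K : ℝ) ^ r) := by
      rw [sum_add_distrib, sum_const, card_powerset, nsmul_eq_mul, ← sum_filter]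
      have h5 : U.powerset.filter (fun B => B ∈ BB) = BB := by
        ext B
        rw [mem_filter]
        constructor
        · exact fun h => h.2
        · intro h
          refine ⟨?_, h⟩
          rw [hBB, mem_filter] at h
          exact h.1
      rw [h5, sum_const, nsmul_eq_mul]
      push_cast
      rfl
    rw [hdbl, h4] at h2
    have h6 : (K : ℝ) ^ r * (3 / 8 * δ * 2 ^ U.card) ≤ (K : ℝ) ^ r * (BB.card : ℝ) := by
      nlinarith
    exact le_of_mul_le_mul_left h6 hKr
  -- the coefficients
  let a' : Fin (d + 1) → Fin r → Fin (d ^ d + 1) := fun j i =>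
    ⟨a j i, Nat.lt_succ_of_le (ha j i)⟩
  have hpa : ∀ k, pol d (extc a') k = pol d a k := by
    intro k
    funext i
    unfold pol
    refine sum_congr rfl fun j hj => ?_
    rw [mem_range] at hj
    by_cases h0 : j = 0
    · subst h0
      rw [ha0]
      simp [extc]
    · simp only [extc]
      rw [dif_pos ⟨hj, h0⟩]
  have hpsm : ∀ k ≤ K, ∀ i, i ∉ big → pol d a k i = 0 := by
    intro k hk i hi
    obtain ⟨γ, hγ, hγc⟩ := exists_subset_card_eq (s := H) (n := k) (by rw [hHc]; exact hk)
    rw [← hγc, ← hpol γ hγ i]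
    unfold cnt
    rw [card_eq_zero, filter_eq_empty_iff]
    intro x hx hxi
    exact hi (hxi ▸ hH_big x (cube_mono hγ hx))
  by_contra hcon
  -- every good content gives a member of `F \ S`
  have key : ∀ B ∈ BB, ∃ D ∈ F \ S, D ∩ U = B := by
    intro B hB
    rw [hBB, mem_filter, mem_powerset] at hB
    obtain ⟨hBU, hBR⟩ := hB
    obtain ⟨k, hk1, hkK, v, hv, hvk⟩ := hK0 a' K (hKK a') (RB B) (by
      intro v hv i
      simp only [RB] at hv
      rw [mem_filter] at hv
      have h1 := hv.1
      unfold box at h1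
      rw [Fintype.mem_piFinset] at h1
      exact mem_range.1 (h1 i)) hBR
    rw [hpa k] at hvk
    simp only [RB] at hv hvk
    rw [mem_filter] at hv hvk
    obtain ⟨γ, hγ, hγc⟩ := exists_subset_card_eq (s := H) (n := k) (by rw [hHc]; exact hkK)
    have hγW : cube d γ ⊆ W := (cube_mono hγ).trans subset_union_left
    have hXW : X v ⊆ W := (hXT v).trans subset_union_right
    have hdX : Disjoint B (X v) := disjoint_of_subset_left hBU (disjoint_of_subset_right hXW hUW)
    have hdγ : Disjoint (B ∪ X v) (cube d γ) := by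
      rw [disjoint_union_left]
      refine ⟨disjoint_of_subset_left hBU (disjoint_of_subset_right hγW hUW), ?_⟩
      refine disjoint_of_subset_left ((hXT v).trans hTTI)
        (disjoint_of_subset_right (cube_mono hγ) sdiff_disjoint)
    have hA : B ∪ X v ⊆ cube d I := union_subset (hBU.trans hUI) (hXW.trans hWI)
    have hA' : B ∪ X v ∪ cube d γ ⊆ cube d I := union_subset hA (hγW.trans hWI)
    have h1 : B ∪ X v ∈ F := by
      rw [← hFR _ hA, cnt_union χ hdX, hXc v hv.1]
      exact hv.2
    have h2 : B ∪ X v ∪ cube d γ ∈ F := by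
      rw [← hFR _ hA', cnt_union χ hdγ, cnt_union χ hdX, hXc v hv.1]
      have h3 : cnt χ (cube d γ) = pol d a k := by
        funext i
        rw [hpol γ hγ i, hγc]
      have h4 : bp v + pol d a k = bp (v + pol d a k) := by
        funext i
        simp only [bp, Pi.add_apply]
        split_ifs with h
        · rfl
        · rw [hpsm k hkK i h]
      rw [h3, add_assoc, h4]
      exact hvk.2
    have hne : γ.Nonempty := by
      rw [← card_pos, hγc]
      exact hk1
    have hcase : B ∪ X v ∉ S ∨ B ∪ X v ∪ cube d γ ∉ S := by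
      by_contra h5
      push Not at h5
      exact hcon ⟨B ∪ X v, h5.1, hA, γ, hγ.trans hHI, hne, hdγ, h5.2⟩
    have hint : ∀ C ⊆ W, (B ∪ C) ∩ U = B := by
      intro C hC
      ext x
      simp only [mem_inter, mem_union]
      constructor
      · rintro ⟨h5 | h5, h6⟩
        · exact h5
        · exact absurd (hC h5) (disjoint_left.1 hUW h6)
      · exact fun h5 => ⟨Or.inl h5, hBU h5⟩
    rcases hcase with h5 | h5
    · exact ⟨_, mem_sdiff.2 ⟨h1, h5⟩, hint _ hXW⟩
    · refine ⟨_, mem_sdiff.2 ⟨h2, h5⟩, ?_⟩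
      rw [union_assoc]
      exact hint _ (union_subset hXW hγW)
  choose! D hD1 hD2 using key
  have hle : BB.card ≤ (F \ S).card := by
    refine card_le_card_of_injOn D (fun B hB => hD1 B hB) ?_
    intro B hB B' hB' h
    rw [← hD2 B hB, ← hD2 B' hB', h]
  have hleR : (BB.card : ℝ) ≤ ((F \ S).card : ℝ) := by exact_mod_cast hle
  have h1 : δ / 4 / 2 ^ w0 * 2 ^ (I.card ^ d) ≤ δ / 4 * 2 ^ U.card := by
    rw [← hcard, pow_add 2 U.card W.card, div_mul_eq_mul_div, div_le_iff₀ (by positivity)]
    have h2 : (2 : ℝ) ^ W.card ≤ 2 ^ w0 := pow_le_pow_right₀ (by norm_num) hWc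
    have h3 : 0 ≤ δ / 4 * 2 ^ U.card := by positivity
    nlinarith
  nlinarith

end Pool.Agent.J6H96.CF
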