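import Pool.Agent.J6H96.CF.Stm

/-!
# Project CF (helper96), second part: every family `S` with more than half of a count family is good.
-/

set_option autoImplicit false

namespace Pool.Agent.J6H96.CF

open Finset

/-- **CONC** (no hypotheses). Let `Z_j A = 2^w 1[A ∩ W_j = ∅] - 1`. Then `∑_{A ⊆ P} Z_j A Z_l A = 0` for `j ≠ l`
and `= (2^w - 1) 2^|P|` for `j = l` (as `#{A ⊆ P : A ∩ V = ∅} = 2^(|P| - |V|)` for `V ⊆ P`:
`A ⊆ P` with `A ∩ V = ∅` iff `A ⊆ P \ V`; for `V = W_j` and `V = W_j ∪ W_l`). So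
`∑_{A ⊆ P} (∑_j Z_j A)² ≤ m 2^w 2^|P|`, and by Cauchy-Schwarz
`|∑_{A ∈ S} ∑_j Z_j A| ≤ √|S| √(m 2^w 2^|P|) ≤ 2^|P| √(m 2^w)`. The second part follows from the first part
for the family of the complements `P \ A`, `A ∈ S`. -/
def S_CONC : Prop := ∀ (E : Type) [DecidableEq E] (P : Finset E) (w m : ℕ) (Wj : Fin m → Finset E),
  (∀ j, Wj j ⊆ P) → (∀ j, (Wj j).card = w) → (∀ j l, j ≠ l → Disjoint (Wj j) (Wj l)) →
  ∀ S : Finset (Finset E), (∀ A ∈ S, A ⊆ P) →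
    |2 ^ w * ∑ j, (((S.filter (fun A => Disjoint A (Wj j))).card : ℕ) : ℝ) - m * (S.card : ℝ)| ≤
        2 ^ P.card * √(m * 2 ^ w) ∧
    |2 ^ w * ∑ j, (((S.filter (fun A => Wj j ⊆ A)).card : ℕ) : ℝ) - m * (S.card : ℝ)| ≤
        2 ^ P.card * √(m * 2 ^ w)

end Pool.Agent.J6H96.CF
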