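import Pool.Agent.J6H96.CF.Var
import Pool.Agent.J6H96.CF.Stm2

/-!
Families determined by boundedly many counts: more than half of the family is good.
-/

set_option autoImplicit false

namespace Pool.Agent.J6H96.CF

open Finset

theorem blocks {α : Type} [DecidableEq α] (H : Finset α) (m K k : ℕ) (hH : H.card = m * K)
    (hk : k ≤ K) :
    ∃ γ : Fin m → Finset α, (∀ j, γ j ⊆ H) ∧ (∀ j, (γ j).card = k) ∧
      ∀ j l, j ≠ l → Disjoint (γ j) (γ l) := by
  classical
  let e := (H.equivFinOfCardEq hH).symm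
  let φ : Fin m × Fin K → α := fun p => (e (finProdFinEquiv p)).1
  have hφ : Function.Injective φ := fun p q h =>
    finProdFinEquiv.injective (e.injective (Subtype.ext h))
  refine ⟨fun j => univ.image fun t : Fin k => φ (j, Fin.castLE hk t), ?_, ?_, ?_⟩
  · intro j x hx
    rw [mem_image] at hx
    obtain ⟨t, -, rfl⟩ := hx
    exact (e _).2
  · intro j
    rw [card_image_of_injective, card_univ, Fintype.card_fin]
    intro s t h
    have h1 := hφ h
    rw [Prod.mk.injEq] at h1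
    exact Fin.castLE_injective hk h1.2
  · intro j l hjl
    rw [disjoint_left]
    intro x hx hx'
    rw [mem_image] at hx hx'
    obtain ⟨t, -, rfl⟩ := hx
    obtain ⟨s, -, h⟩ := hx'
    have h1 := hφ h
    rw [Prod.mk.injEq] at h1
    exact hjl h1.1.symm

theorem lev_card {E : Type} [DecidableEq E] {r : ℕ} (χ : E → Fin r) (P : Finset E)
    (Q : Finset (Fin r → ℕ)) (p : Finset E → Prop) [DecidablePred p] :
    ((P.powerset.filter fun A => cnt χ A ∈ Q).filter p).card =
      ∑ c ∈ Q, ((P.powerset.filter fun A => cnt χ A = c).filter p).card := by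
  rw [card_eq_sum_card_fiberwise (f := cnt χ) (t := Q) (fun A hA => by
    rw [mem_coe, mem_filter, mem_filter] at hA
    exact hA.1.2)]
  refine sum_congr rfl fun c hc => ?_
  congr 1
  ext A
  simp only [mem_filter]
  constructor
  · rintro ⟨⟨⟨h1, -⟩, h2⟩, h3⟩
    exact ⟨⟨h1, h3⟩, h2⟩
  · rintro ⟨⟨h1, h3⟩, h2⟩
    exact ⟨⟨⟨h1, h3 ▸ hc⟩, h2⟩, h3⟩

theorem core2 (hRAM : S_RAM) (hSAR : S_SAR) (hSHS : S_SHS) (hCONC : S_CONC) (d : ℕ) (hd : 1 ≤ d)
    (r : ℕ) (δ η : ℝ) (hδ : 0 < δ) (hη : 0 < η) (hη1 : η ≤ 1 / 2) :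
    ∃ M : ℕ, ∀ (N : ℕ) (I : Finset (Fin N)), M ≤ I.card →
      ∀ (χ : (Fin d → Fin N) → Fin r) (F S : Finset (Finset (Fin d → Fin N))),
        (∀ A ∈ F, A ⊆ cube d I) →
        (∀ A B, A ⊆ cube d I → B ⊆ cube d I → cnt χ A = cnt χ B → A ∈ F → B ∈ F) →
        δ * 2 ^ (I.card ^ d) ≤ (F.card : ℝ) →
        (1 / 2 + η) * (F.card : ℝ) ≤ ((F.filter fun A => A ∈ S).card : ℝ) →
        ∃ A ∈ S, A ⊆ cube d I ∧ ∃ γ : Finset (Fin N), γ ⊆ I ∧ γ.Nonempty ∧
          Disjoint A (cube d γ) ∧ A ∪ cube d γ ∈ S := by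
  classical
  obtain ⟨K, nb0, c0, hK1, hc0, hvar⟩ := var hSAR hSHS d r (η / 2 * δ) (by positivity)
  have hηc : 0 < η * c0 := by positivity
  obtain ⟨n, hn⟩ : ∃ n : ℕ, 4 * (r : ℝ) * (K ^ d : ℕ) / √((n : ℝ) + 1) ≤ η * c0 / 4 := by
    obtain ⟨n, hn⟩ := exists_nat_gt ((4 * (r : ℝ) * (K ^ d : ℕ) / (η * c0 / 4)) ^ 2)
    refine ⟨n, ?_⟩
    have h1 : 4 * (r : ℝ) * (K ^ d : ℕ) / (η * c0 / 4) ≤ √((n : ℝ) + 1) := by
      apply Real.le_sqrt_of_sq_le
      linarith
    have h2 : 0 < √((n : ℝ) + 1) := Real.sqrt_pos.2 (by positivity)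
    rw [div_le_iff₀ h2]
    rw [div_le_iff₀ (by positivity)] at h1
    linarith
  obtain ⟨m, hm⟩ : ∃ m : ℕ, 144 * 2 ^ (K ^ d) / (η * c0) ^ 2 < (m : ℝ) := exists_nat_gt _
  have hm0 : (0 : ℝ) < m := lt_trans (by positivity) hm
  have hm1 : 1 ≤ m := by exact_mod_cast hm0
  obtain ⟨M1, hM1⟩ := hRAM d r (m * K) hd
  set nb : ℕ := max nb0 n with hnb
  refine ⟨M1 + r * (nb * d), ?_⟩
  intro N I hI χ F S hFI hF hFc hFS
  have hKm : K ≤ m * K := Nat.le_mul_of_pos_left K hm1
  -- big classes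
  set big : Finset (Fin r) := univ.filter fun i => nb ≤ cnt χ (cube d I) i with hbig
  set touched : Finset (Fin N) := (univ \ big).biUnion fun i =>
    ((cube d I).filter fun x => χ x = i).biUnion fun x => univ.image x with htouched
  have htc : touched.card ≤ r * (nb * d) := by
    refine card_biUnion_le.trans ?_
    calc ∑ i ∈ univ \ big, (((cube d I).filter fun x => χ x = i).biUnion
          fun x => univ.image x).card ≤ ∑ i ∈ univ \ big, nb * d := by
          refine sum_le_sum fun i hi => ?_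
          have h1 : cnt χ (cube d I) i ≤ nb := by
            rw [mem_sdiff, hbig, mem_filter, not_and] at hi
            exact le_of_lt (not_le.1 (hi.2 (mem_univ i)))
          refine (card_biUnion_le_card_mul _ _ d fun x _ => ?_).trans
            (Nat.mul_le_mul_right d h1)
          refine card_image_le.trans ?_
          rw [card_univ, Fintype.card_fin]
      _ ≤ r * (nb * d) := by
          rw [sum_const, smul_eq_mul]
          refine Nat.mul_le_mul_right _ ?_
          refine (card_le_univ _).trans ?_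
          rw [Fintype.card_fin]
  set V : Finset (Fin N) := I \ touched with hV
  have hVc : M1 ≤ V.card := by
    have h1 := le_card_sdiff touched I
    rw [← hV] at h1
    omega
  obtain ⟨H, a, hHV, hHc, ha, ha0, hpol⟩ := hM1 N V χ hVc
  have hHI : H ⊆ I := hHV.trans sdiff_subset
  have hH_big : ∀ x ∈ cube d H, χ x ∈ big := by
    intro x hx
    by_contra hcon
    have hxI := cube_mono hHI hx
    rw [mem_cube] at hx
    have h1 : x ⟨0, hd⟩ ∈ V := hHV (hx _)
    rw [hV, mem_sdiff] at h1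
    apply h1.2
    rw [htouched, mem_biUnion]
    refine ⟨χ x, by rw [mem_sdiff]; exact ⟨mem_univ _, hcon⟩, ?_⟩
    rw [mem_biUnion]
    exact ⟨x, by rw [mem_filter]; exact ⟨hxI, rfl⟩, mem_image_of_mem _ (mem_univ _)⟩
  have hpsm : ∀ k ≤ K, ∀ i, i ∉ big → pol d a k i = 0 := by
    intro k hk i hi
    obtain ⟨γ, hγ, hγc⟩ := exists_subset_card_eq (s := H) (n := k)
      (by rw [hHc]; exact hk.trans hKm)
    rw [← hγc, ← hpol γ hγ i]
    unfold cnt
    rw [card_eq_zero, filter_eq_empty_iff]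
    intro x hx hxi
    exact hi (hxi ▸ hH_big x (cube_mono hγ hx))
  have hpB : ∀ k ≤ K, ∀ i, pol d a k i ≤ K ^ d := by
    intro k hk i
    obtain ⟨γ, hγ, hγc⟩ := exists_subset_card_eq (s := H) (n := k)
      (by rw [hHc]; exact hk.trans hKm)
    rw [← hγc, ← hpol γ hγ i]
    refine (cnt_le χ _ i).trans ?_
    rw [card_cube, hγc]
    exact Nat.pow_le_pow_left hk d
  set P : Finset (Fin d → Fin N) := cube d I with hP
  have hPc : P.card = I.card ^ d := card_cube d I
  rw [← hPc] at hFc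
  have h2P : (0 : ℝ) < 2 ^ P.card := by positivity
  -- levels
  set R : Finset (Fin r → ℕ) := F.image (cnt χ) with hR
  have hFR : P.powerset.filter (fun A => cnt χ A ∈ R) = F := by
    ext A
    rw [mem_filter, mem_powerset, hR, mem_image]
    constructor
    · rintro ⟨hA, B, hB, hBA⟩
      exact hF B A (hFI B hB) hA hBA hB
    · exact fun h => ⟨hFI A h, A, h, rfl⟩
  let L : (Fin r → ℕ) → Finset (Finset (Fin d → Fin N)) := fun c =>
    P.powerset.filter fun A => cnt χ A = c
  let LS : (Fin r → ℕ) → Finset (Finset (Fin d → Fin N)) := fun c =>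
    (P.powerset.filter fun A => cnt χ A = c).filter fun A => A ∈ S
  have hlev : ∀ Q : Finset (Fin r → ℕ), ((P.powerset.filter fun A => cnt χ A ∈ Q).card : ℝ) =
      ∑ c ∈ Q, ((L c).card : ℝ) := by
    intro Q
    have h1 := lev_card χ P Q (fun _ => True)
    simp only [filter_true] at h1
    simp only [L]
    exact_mod_cast h1
  have hlevS : ∀ Q : Finset (Fin r → ℕ), (((P.powerset.filter fun A => cnt χ A ∈ Q).filter
      fun A => A ∈ S).card : ℝ) = ∑ c ∈ Q, ((LS c).card : ℝ) := by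
    intro Q
    have h1 := lev_card χ P Q (fun A => A ∈ S)
    simp only [LS]
    exact_mod_cast h1
  set R' : Finset (Fin r → ℕ) :=
    R.filter fun c => (1 / 2 + η / 2) * ((L c).card : ℝ) ≤ ((LS c).card : ℝ) with hR'
  have hLS : ∀ c, ((LS c).card : ℝ) ≤ ((L c).card : ℝ) := by
    intro c
    have : (LS c).card ≤ (L c).card := card_filter_le _ _
    exact_mod_cast this
  have hR'c : η / 2 * δ * 2 ^ P.card ≤ ((P.powerset.filter fun A => cnt χ A ∈ R').card : ℝ) := by
    have h1 : ((F.filter fun A => A ∈ S).card : ℝ) ≤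
        ((P.powerset.filter fun A => cnt χ A ∈ R').card : ℝ) + (1 / 2 + η / 2) * (F.card : ℝ) := by
      have e1 : ((F.filter fun A => A ∈ S).card : ℝ) = ∑ c ∈ R, ((LS c).card : ℝ) := by
        rw [← hlevS R, hFR]
      have e2 : (F.card : ℝ) = ∑ c ∈ R, ((L c).card : ℝ) := by
        rw [← hlev R, hFR]
      have e3 : ∑ c ∈ R', ((L c).card : ℝ) = ∑ c ∈ R, if c ∈ R' then ((L c).card : ℝ) else 0 := by
        rw [← sum_filter]
        refine sum_congr ?_ fun _ _ => rfl
        ext c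
        simp only [hR', mem_filter]
        tauto
      rw [e1, e2, hlev R', e3, mul_sum, ← sum_add_distrib]
      refine sum_le_sum fun c hc => ?_
      have h0 : (0 : ℝ) ≤ (1 / 2 + η / 2) * ((L c).card : ℝ) := by positivity
      by_cases h : c ∈ R'
      · rw [if_pos h]
        linarith [hLS c]
      · rw [if_neg h, zero_add]
        rw [hR', mem_filter, not_and] at h
        exact (not_le.1 (h hc)).le
    nlinarith
  have hdens : ∀ Q : Finset (Fin r → ℕ), Q ⊆ R' →
      (1 / 2 + η / 2) * ((P.powerset.filter fun A => cnt χ A ∈ Q).card : ℝ) ≤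
      (((P.powerset.filter fun A => cnt χ A ∈ Q).filter fun A => A ∈ S).card : ℝ) := by
    intro Q hQ
    rw [hlev, hlevS, mul_sum]
    refine sum_le_sum fun c hc => ?_
    have h1 := hQ hc
    rw [hR', mem_filter] at h1
    exact h1.2
  obtain ⟨k, hk1, hkK, hkc⟩ := hvar (Fin d → Fin N) P χ a R' ha ha0 (by
    intro i hi k hk
    refine hpsm k hk i fun hib => ?_
    rw [hbig, mem_filter] at hib
    have h1 : nb0 ≤ nb := le_max_left _ _
    omega) hR'c
  set p : Fin r → ℕ := pol d a k with hp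
  set Q : Finset (Fin r → ℕ) := R'.filter fun c => c + p ∈ R' with hQ
  set Qp : Finset (Fin r → ℕ) := Q.image fun c => c + p with hQp
  have hQR : Q ⊆ R' := filter_subset _ _
  have hQpR : Qp ⊆ R' := by
    intro c hc
    rw [hQp, mem_image] at hc
    obtain ⟨c', hc', rfl⟩ := hc
    rw [hQ, mem_filter] at hc'
    exact hc'.2
  have hQmem : ∀ c, c + p ∈ Qp ↔ c ∈ Q := by
    intro c
    rw [hQp, mem_image]
    constructor
    · rintro ⟨c', hc', h⟩
      have h1 : c' = c := by
        funext i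
        have h2 := congrFun h i
        simp only [Pi.add_apply] at h2
        omega
      exact h1 ▸ hc'
    · exact fun h => ⟨c, h, rfl⟩
  set fQ : Finset (Finset (Fin d → Fin N)) := P.powerset.filter fun A => cnt χ A ∈ Q with hfQ
  set fQp : Finset (Finset (Fin d → Fin N)) := P.powerset.filter fun A => cnt χ A ∈ Qp with hfQp
  have hfQc : c0 * 2 ^ P.card ≤ (fQ.card : ℝ) := by
    refine hkc.trans (le_of_eq ?_)
    congr 2
    rw [hfQ]
    ext A
    simp only [mem_filter, hQ]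
  -- comparison of the two levels
  have hshift : (fQ.card : ℝ) - η * c0 / 4 * 2 ^ P.card ≤ (fQp.card : ℝ) := by
    let g : (Fin r → ℕ) → ℝ := fun v => if v ∈ Qp then 1 else 0
    have hg : ∀ v, 0 ≤ g v ∧ g v ≤ 1 := by
      intro v
      simp only [g]
      split_ifs <;> norm_num
    have h1 := hSHS (Fin d → Fin N) P r χ g hg big n (K ^ d) (by
      intro i hi
      rw [hbig, mem_filter] at hi
      exact (le_max_right _ _).trans hi.2) p 0 (by
      intro i _
      exact ⟨hpB k hkK i, Nat.zero_le _⟩) (by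
      intro i hi
      exact hpsm k hkK i hi)
    have e1 : ∑ A ∈ P.powerset, g (cnt χ A + p) = (fQ.card : ℝ) := by
      simp only [g, hQmem]
      rw [sum_boole]
    have e2 : ∑ A ∈ P.powerset, g (cnt χ A + 0) = (fQp.card : ℝ) := by
      simp only [g, add_zero]
      rw [sum_boole]
    rw [e1, e2] at h1
    have h2 : 2 ^ P.card * (4 * (r : ℝ) * (K ^ d : ℕ) / √((n : ℝ) + 1)) ≤
        2 ^ P.card * (η * c0 / 4) := mul_le_mul_of_nonneg_left hn h2P.le
    have h3 := (abs_le.1 h1).2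
    linarith
  by_contra hcon
  obtain ⟨γ, hγH, hγc, hγd⟩ := blocks H m K k hHc hkK
  have hWP : ∀ j, cube d (γ j) ⊆ P := fun j => cube_mono ((hγH j).trans hHI)
  have hWc : ∀ j, (cube d (γ j)).card = k ^ d := fun j => by rw [card_cube, hγc]
  have hWd : ∀ j l, j ≠ l → Disjoint (cube d (γ j)) (cube d (γ l)) := by
    intro j l hjl
    rw [disjoint_left]
    intro x hx hx'
    rw [mem_cube] at hx hx'
    exact disjoint_left.1 (hγd j l hjl) (hx ⟨0, hd⟩) (hx' ⟨0, hd⟩)
  have hcW : ∀ j, cnt χ (cube d (γ j)) = p := by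
    intro j
    funext i
    rw [hpol (γ j) (hγH j) i, hγc]
  set SQ := fQ.filter fun A => A ∈ S with hSQ
  set SQp := fQp.filter fun A => A ∈ S with hSQp
  have hj : ∀ j, (SQ.filter fun A => Disjoint A (cube d (γ j))).card +
      (SQp.filter fun A => cube d (γ j) ⊆ A).card ≤
      (fQ.filter fun A => Disjoint A (cube d (γ j))).card := by
    intro j
    have hinj : Set.InjOn (fun D : Finset (Fin d → Fin N) => D \ cube d (γ j))
        (SQp.filter fun A => cube d (γ j) ⊆ A : Finset (Finset (Fin d → Fin N))) := by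
      intro D hD D' hD' h
      rw [mem_coe, mem_filter] at hD hD'
      have h0 : D \ cube d (γ j) = D' \ cube d (γ j) := h
      have h1 : D \ cube d (γ j) ∪ cube d (γ j) = D' \ cube d (γ j) ∪ cube d (γ j) := by
        rw [h0]
      rwa [sdiff_union_of_subset hD.2, sdiff_union_of_subset hD'.2] at h1
    rw [← card_image_of_injOn hinj, ← card_union_of_disjoint]
    · refine card_le_card ?_
      intro A hA
      rw [mem_union] at hA
      rcases hA with hA | hA
      · rw [mem_filter] at hA ⊢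
        rw [hSQ, mem_filter] at hA
        exact ⟨hA.1.1, hA.2⟩
      · rw [mem_image] at hA
        obtain ⟨D, hD, rfl⟩ := hA
        rw [mem_filter, hSQp, mem_filter, hfQp, mem_filter, mem_powerset] at hD
        obtain ⟨⟨⟨hDP, hDc⟩, -⟩, hDW⟩ := hD
        rw [mem_filter, hfQ, mem_filter, mem_powerset]
        refine ⟨⟨sdiff_subset.trans hDP, ?_⟩, sdiff_disjoint⟩
        rw [← hQmem, ← hcW j, ← cnt_union χ sdiff_disjoint, sdiff_union_of_subset hDW]
        exact hDc
    · rw [disjoint_left]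
      intro A hA hA'
      rw [mem_filter, hSQ, mem_filter, hfQ, mem_filter, mem_powerset] at hA
      rw [mem_image] at hA'
      obtain ⟨D, hD, rfl⟩ := hA'
      rw [mem_filter, hSQp, mem_filter] at hD
      refine hcon ⟨_, hA.1.2, hA.1.1.1, γ j, (hγH j).trans hHI, ?_, hA.2, ?_⟩
      · rw [← card_pos, hγc]
        exact hk1
      · rw [sdiff_union_of_subset hD.2]
        exact hD.1.2
  have hsub : ∀ A ∈ fQ, A ⊆ P := by
    intro A hA
    rw [hfQ, mem_filter, mem_powerset] at hA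
    exact hA.1
  have hsubp : ∀ A ∈ fQp, A ⊆ P := by
    intro A hA
    rw [hfQp, mem_filter, mem_powerset] at hA
    exact hA.1
  have c1 := (hCONC (Fin d → Fin N) P (k ^ d) m (fun j => cube d (γ j)) hWP hWc hWd SQ
    (fun A hA => hsub A (mem_of_mem_filter A hA))).1
  have c2 := (hCONC (Fin d → Fin N) P (k ^ d) m (fun j => cube d (γ j)) hWP hWc hWd SQp
    (fun A hA => hsubp A (mem_of_mem_filter A hA))).2
  have c3 := (hCONC (Fin d → Fin N) P (k ^ d) m (fun j => cube d (γ j)) hWP hWc hWd fQ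
    (fun A hA => hsub A hA)).1
  have hjs : ∑ j, (((SQ.filter fun A => Disjoint A (cube d (γ j))).card : ℕ) : ℝ) +
      ∑ j, (((SQp.filter fun A => cube d (γ j) ⊆ A).card : ℕ) : ℝ) ≤
      ∑ j, (((fQ.filter fun A => Disjoint A (cube d (γ j))).card : ℕ) : ℝ) := by
    rw [← sum_add_distrib]
    refine sum_le_sum fun j _ => ?_
    exact_mod_cast hj j
  have h2w : (0 : ℝ) < 2 ^ (k ^ d) := by positivity
  have hjs' := mul_le_mul_of_nonneg_left hjs h2w.le
  rw [mul_add] at hjs'
  have d1 := (abs_le.1 c1).1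
  have d2 := (abs_le.1 c2).1
  have d3 := (abs_le.1 c3).2
  have e1 := hdens Q hQR
  have e2 := hdens Qp hQpR
  rw [← hfQ, ← hSQ] at e1
  rw [← hfQp, ← hSQp] at e2
  set X := √((m : ℝ) * 2 ^ (k ^ d)) with hX
  have hX0 : 0 ≤ X := Real.sqrt_nonneg _
  have hXX : X ^ 2 ≤ m * 2 ^ (K ^ d) := by
    rw [hX, Real.sq_sqrt (by positivity)]
    refine mul_le_mul_of_nonneg_left ?_ hm0.le
    exact pow_le_pow_right₀ (by norm_num) (Nat.pow_le_pow_left hkK d)
  -- `m (|SQ| + |SQp|) ≤ m |fQ| + 3 E`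
  have s1 : (m : ℝ) * ((SQ.card : ℝ) + (SQp.card : ℝ)) ≤ m * (fQ.card : ℝ) +
      3 * (2 ^ P.card * X) := by linarith
  have s2 : (1 / 2 + η / 2) * (fQ.card : ℝ) - η * c0 / 4 * 2 ^ P.card ≤ (SQp.card : ℝ) := by
    have h1 : (1 / 2 + η / 2) * ((fQ.card : ℝ) - η * c0 / 4 * 2 ^ P.card) ≤
        (1 / 2 + η / 2) * (fQp.card : ℝ) := mul_le_mul_of_nonneg_left hshift (by positivity)
    have h2 : 0 ≤ (1 / 2 - η / 2) * (η * c0 / 4 * 2 ^ P.card) :=
      mul_nonneg (by linarith) (by positivity)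
    linarith
  have s3 : (m : ℝ) * (η * (fQ.card : ℝ) - η * c0 / 4 * 2 ^ P.card) ≤ 3 * (2 ^ P.card * X) := by
    have h1 : (1 + η) * (fQ.card : ℝ) - η * c0 / 4 * 2 ^ P.card ≤ (SQ.card : ℝ) + (SQp.card : ℝ) := by
      linarith
    have h2 := mul_le_mul_of_nonneg_left h1 hm0.le
    linarith
  have s4 : (m : ℝ) * (3 / 4 * (η * c0)) * 2 ^ P.card ≤ 3 * X * 2 ^ P.card := by
    have h1 : 3 / 4 * (η * c0) * 2 ^ P.card ≤ η * (fQ.card : ℝ) - η * c0 / 4 * 2 ^ P.card := by
      have := mul_le_mul_of_nonneg_left hfQc hη.le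
      linarith
    have h2 := mul_le_mul_of_nonneg_left h1 hm0.le
    linarith
  have s5 : (m : ℝ) * (η * c0 / 4) ≤ X := by
    have := le_of_mul_le_mul_right s4 h2P
    linarith
  have s6 : ((m : ℝ) * (η * c0 / 4)) ^ 2 ≤ X ^ 2 := by
    refine pow_le_pow_left₀ (by positivity) s5 2
  have s7 : (m : ℝ) * (η * c0) ^ 2 ≤ 16 * 2 ^ (K ^ d) := by
    have h1 := s6.trans hXX
    have h2 : (m : ℝ) * ((m : ℝ) * (η * c0) ^ 2) ≤ m * (16 * 2 ^ (K ^ d)) := by
      nlinarith
    exact le_of_mul_le_mul_left h2 hm0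
  rw [div_lt_iff₀ (by positivity)] at hm
  have h3 : (0 : ℝ) < 2 ^ (K ^ d) := by positivity
  linarith

end Pool.Agent.J6H96.CF
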