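import Pool.Agent.J6H96.CF.Stm

/-!
# Project CF (helper96), third part: count families and unate families together.
-/

set_option autoImplicit false

namespace Pool.Agent.J6H96.CF

open Finset

/-- `U` is unate in the elements of `P`: for every `x ∈ P` adding `x` preserves `U`, or removing `x` does. -/
def Unate {E : Type} [DecidableEq E] (P : Finset E) (U : Finset E → Prop) : Prop :=
  ∀ x ∈ P, (∀ A, A ⊆ P → x ∉ A → U A → U (insert x A)) ∨
    (∀ A, A ⊆ P → x ∉ A → U (insert x A) → U A)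

open Classical in
/-- **UNI** (no hypotheses). Let `s x = 1` in the first case and `s x = -1` in the second. The number of changes in
the direction `x` is `s x ∑_{A ⊆ P, x ∉ A} ([U (insert x A)] - [U A]) = s x ∑_{A ⊆ P} [U A] σ_x A` with `σ_x A = 1` if
`x ∈ A` and `-1` otherwise. So the sum is `∑_A [U A] ∑_{x ∈ X} s x σ_x A ≤ ∑_A |∑_{x ∈ X} s x σ_x A|`, and
`∑_A (∑_{x ∈ X} s x σ_x A)² = |X| 2^|P|` (`∑_A σ_x A σ_y A = 0` for `x ≠ y`), so by Cauchy-Schwarz it is at most
`2^|P| √|X|`. -/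
def S_UNI : Prop := ∀ (E : Type) [DecidableEq E] (P : Finset E) (U : Finset E → Prop), Unate P U →
  ∀ X ⊆ P, ∑ x ∈ X, ((P.powerset.filter fun A => x ∉ A ∧ ¬ (U A ↔ U (insert x A))).card : ℝ) ≤
    2 ^ P.card * √(X.card : ℝ)

open Classical in
/-- **BLK** (hypothesis `S_UNI`). Order each block `W_j` (`x_1, …, x_w`, e.g. `Finset.toList` or induction over the
block). If `A ∩ W_j = ∅` and `U A`, `U (A ∪ W_j)` differ, there is `i` such that `U` differs at `B = A ∪ {x_1, …, x_(i-1)}` and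
`insert x_i B`. The pair `(x_i, B)` determines `j` (disjoint blocks), `i` and `A = B \ W_j`. So the sum is at most
the one of `S_UNI` for `X = ⋃ W_j`, `|X| ≤ m w`. -/
def S_BLK : Prop := ∀ (E : Type) [DecidableEq E] (P : Finset E) (U : Finset E → Prop), Unate P U →
  ∀ (w m : ℕ) (Wj : Fin m → Finset E), (∀ j, Wj j ⊆ P) → (∀ j, (Wj j).card = w) →
    (∀ j l, j ≠ l → Disjoint (Wj j) (Wj l)) →
    ∑ j, ((P.powerset.filter fun A => Disjoint A (Wj j) ∧ ¬ (U A ↔ U (A ∪ Wj j))).card : ℝ) ≤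
      2 ^ P.card * √((m : ℝ) * w)

end Pool.Agent.J6H96.CF
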