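import Pool.Agent.J6H96.CF.Core2
import Pool.Agent.J6H96.CF.Stm3

/-!
Families determined by boundedly many counts and unate families: more than half of the family is good.
-/

set_option autoImplicit false

namespace Pool.Agent.J6H96.CF

open Finset

open Classical in
theorem core3 (hRAM : S_RAM) (hSAR : S_SAR) (hSHS : S_SHS) (hCONC : S_CONC) (hBLK : S_BLK) (d : ℕ)
    (hd : 1 ≤ d) (r κ : ℕ) (δ η : ℝ) (hδ : 0 < δ) (hη : 0 < η) (hη1 : η ≤ 1 / 2) :
    ∃ M : ℕ, ∀ (N : ℕ) (I : Finset (Fin N)), M ≤ I.card →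
      ∀ (χ : (Fin d → Fin N) → Fin r) (U : Fin κ → Finset (Fin d → Fin N) → Prop)
        (F S : Finset (Finset (Fin d → Fin N))),
        (∀ j, Unate (cube d I) (U j)) → (∀ A ∈ F, A ⊆ cube d I) →
        (∀ A B, A ⊆ cube d I → B ⊆ cube d I → cnt χ A = cnt χ B → (∀ j, U j A ↔ U j B) →
          A ∈ F → B ∈ F) →
        δ * 2 ^ (I.card ^ d) ≤ (F.card : ℝ) →
        (1 / 2 + η) * (F.card : ℝ) ≤ ((F.filter fun A => A ∈ S).card : ℝ) →
        ∃ A ∈ S, A ⊆ cube d I ∧ ∃ γ : Finset (Fin N), γ ⊆ I ∧ γ.Nonempty ∧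
          Disjoint A (cube d γ) ∧ A ∪ cube d γ ∈ S := by
  set β : ℝ := η / 2 * δ / 2 ^ κ with hβ
  have hβ0 : 0 < β := by positivity
  obtain ⟨K, nb, c0, hK1, hc0, hvar⟩ := var hSAR hSHS d r (β / 2) (half_pos hβ0)
  have hβc : 0 < β / 2 * c0 := by positivity
  set Z : ℝ := 5 * √(2 ^ (K ^ d)) + 2 * (2 ^ (K ^ d) * (κ * √((K : ℝ) ^ d))) with hZ
  have hZ0 : 0 ≤ Z := by positivity
  obtain ⟨m, hm⟩ : ∃ m : ℕ, (Z / (β / 2 * c0)) ^ 2 < (m : ℝ) := exists_nat_gt _
  have hm0 : (0 : ℝ) < m := lt_of_le_of_lt (by positivity) hm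
  have hm1 : 1 ≤ m := by exact_mod_cast hm0
  have hmZ : Z < √(m : ℝ) * (β / 2 * c0) := by
    rw [← div_lt_iff₀ hβc]
    exact Real.lt_sqrt_of_sq_lt hm
  obtain ⟨M1, hM1⟩ := hRAM d r (m * K) hd
  refine ⟨M1 + r * (nb * d), ?_⟩
  intro N I hI χ U F S hU hFI hF hFc hFS
  have hKm : K ≤ m * K := Nat.le_mul_of_pos_left K hm1
  -- big classes
  set big : Finset (Fin r) := univ.filter fun i => nb ≤ cnt χ (cube d I) i with hbig
  set touched : Finset (Fin N) := (univ \ big).biUnion fun i =>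
    ((cube d I).filter fun x => χ x = i).biUnion fun x => univ.image x with htouched
  have htc : touched.card ≤ r * (nb * d) := by
    refine card_biUnion_le.trans ?_
    calc ∑ i ∈ univ \ big, (((cube d I).filter fun x => χ x = i).biUnion
          fun x => univ.image x).card ≤ ∑ i ∈ univ \ big, nb * d := by
          refine sum_le_sum fun i hi => ?_
          have h1 : cnt χ (cube d I) i ≤ nb := by
            rw [mem_sdiff, hbig, mem_filter, not_and] at hi
            exact le_of_lt (not_le.1 (hi.2 (mem_univ i)))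
          refine (card_biUnion_le_card_mul _ _ d fun x _ => ?_).trans
            (Nat.mul_le_mul_right d h1)
          refine card_image_le.trans ?_
          rw [card_univ, Fintype.card_fin]
      _ ≤ r * (nb * d) := by
          rw [sum_const, smul_eq_mul]
          refine Nat.mul_le_mul_right _ ?_
          refine (card_le_univ _).trans ?_
          rw [Fintype.card_fin]
  set V : Finset (Fin N) := I \ touched with hV
  have hVc : M1 ≤ V.card := by
    have h1 := le_card_sdiff touched I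
    rw [← hV] at h1
    omega
  obtain ⟨H, a, hHV, hHc, ha, ha0, hpol⟩ := hM1 N V χ hVc
  have hHI : H ⊆ I := hHV.trans sdiff_subset
  have hH_big : ∀ x ∈ cube d H, χ x ∈ big := by
    intro x hx
    by_contra hcon
    have hxI := cube_mono hHI hx
    rw [mem_cube] at hx
    have h1 : x ⟨0, hd⟩ ∈ V := hHV (hx _)
    rw [hV, mem_sdiff] at h1
    apply h1.2
    rw [htouched, mem_biUnion]
    refine ⟨χ x, by rw [mem_sdiff]; exact ⟨mem_univ _, hcon⟩, ?_⟩
    rw [mem_biUnion]
    exact ⟨x, by rw [mem_filter]; exact ⟨hxI, rfl⟩, mem_image_of_mem _ (mem_univ _)⟩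
  have hpsm : ∀ k ≤ K, ∀ i, i ∉ big → pol d a k i = 0 := by
    intro k hk i hi
    obtain ⟨γ, hγ, hγc⟩ := exists_subset_card_eq (s := H) (n := k)
      (by rw [hHc]; exact hk.trans hKm)
    rw [← hγc, ← hpol γ hγ i]
    unfold cnt
    rw [card_eq_zero, filter_eq_empty_iff]
    intro x hx hxi
    exact hi (hxi ▸ hH_big x (cube_mono hγ hx))
  have hpB : ∀ k ≤ K, ∀ i, pol d a k i ≤ K ^ d := by
    intro k hk i
    obtain ⟨γ, hγ, hγc⟩ := exists_subset_card_eq (s := H) (n := k)
      (by rw [hHc]; exact hk.trans hKm)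
    rw [← hγc, ← hpol γ hγ i]
    refine (cnt_le χ _ i).trans ?_
    rw [card_cube, hγc]
    exact Nat.pow_le_pow_left hk d
  set P : Finset (Fin d → Fin N) := cube d I with hP
  have hPc : P.card = I.card ^ d := card_cube d I
  rw [← hPc] at hFc
  have h2P : (0 : ℝ) < 2 ^ P.card := by positivity
  -- the pattern of the unate families
  let τ : Finset (Fin d → Fin N) → Fin κ → Bool := fun A j => decide (U j A)
  have hτU : ∀ A B, τ A = τ B → ∀ j, U j A ↔ U j B := by
    intro A B h j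
    have h1 := congrFun h j
    simp only [τ] at h1
    rwa [decide_eq_decide] at h1
  obtain ⟨θ, hθ⟩ : ∃ θ : Fin κ → Bool, (1 / 2 + η / 2) * ((F.filter fun A => τ A = θ).card : ℝ) +
      β * 2 ^ P.card ≤ (((F.filter fun A => A ∈ S).filter fun A => τ A = θ).card : ℝ) := by
    by_contra hcon
    push Not at hcon
    have h1 : ∑ θ : Fin κ → Bool, (((F.filter fun A => A ∈ S).filter fun A => τ A = θ).card : ℝ) <
        ∑ θ : Fin κ → Bool, ((1 / 2 + η / 2) * ((F.filter fun A => τ A = θ).card : ℝ) +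
          β * 2 ^ P.card) :=
      sum_lt_sum_of_nonempty univ_nonempty fun θ _ => hcon θ
    have e1 : ((F.filter fun A => A ∈ S).card : ℝ) =
        ∑ θ : Fin κ → Bool, (((F.filter fun A => A ∈ S).filter fun A => τ A = θ).card : ℝ) := by
      exact_mod_cast card_eq_sum_card_fiberwise (f := τ) (fun A _ => mem_coe.2 (mem_univ (τ A)))
    have e2 : (F.card : ℝ) = ∑ θ : Fin κ → Bool, ((F.filter fun A => τ A = θ).card : ℝ) := by
      exact_mod_cast card_eq_sum_card_fiberwise (f := τ) (fun A _ => mem_coe.2 (mem_univ (τ A)))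
    rw [← e1, sum_add_distrib, ← mul_sum, ← e2, sum_const, card_univ, Fintype.card_fun,
      Fintype.card_fin, Fintype.card_bool, nsmul_eq_mul] at h1
    push_cast at h1
    have e3 : (2 : ℝ) ^ κ * (β * 2 ^ P.card) = η / 2 * (δ * 2 ^ P.card) := by
      rw [hβ]
      field_simp
    rw [e3] at h1
    have h3 := mul_le_mul_of_nonneg_left hFc (by positivity : 0 ≤ η / 2)
    linarith
  set Fθ := F.filter fun A => τ A = θ with hFθ
  -- levels
  set R : Finset (Fin r → ℕ) := Fθ.image (cnt χ) with hR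
  have hFR : (P.powerset.filter (fun A => cnt χ A ∈ R)).filter (fun A => τ A = θ) = Fθ := by
    ext A
    rw [mem_filter, mem_filter, mem_powerset, hR, mem_image]
    constructor
    · rintro ⟨⟨hA, B, hB, hBA⟩, hAθ⟩
      rw [hFθ, mem_filter] at hB ⊢
      exact ⟨hF B A (hFI B hB.1) hA hBA (hτU B A (hB.2.trans hAθ.symm)) hB.1, hAθ⟩
    · intro h
      have h' := h
      rw [hFθ, mem_filter] at h'
      exact ⟨⟨hFI A h'.1, A, h, rfl⟩, h'.2⟩
  let n0 : (Fin r → ℕ) → ℝ := fun c => ((P.powerset.filter fun A => cnt χ A = c).card : ℝ)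
  let n1 : (Fin r → ℕ) → ℝ := fun c =>
    (((P.powerset.filter fun A => cnt χ A = c).filter fun A => τ A = θ).card : ℝ)
  let n2 : (Fin r → ℕ) → ℝ := fun c =>
    (((P.powerset.filter fun A => cnt χ A = c).filter fun A => τ A = θ ∧ A ∈ S).card : ℝ)
  have hl0 : ∀ Q : Finset (Fin r → ℕ), ((P.powerset.filter fun A => cnt χ A ∈ Q).card : ℝ) =
      ∑ c ∈ Q, n0 c := by
    intro Q
    have h1 := lev_card χ P Q (fun _ => True)
    simp only [filter_true] at h1
    simp only [n0]
    exact_mod_cast h1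
  have hl1 : ∀ Q : Finset (Fin r → ℕ), (((P.powerset.filter fun A => cnt χ A ∈ Q).filter
      fun A => τ A = θ).card : ℝ) = ∑ c ∈ Q, n1 c := by
    intro Q
    have h1 := lev_card χ P Q (fun A => τ A = θ)
    simp only [n1]
    exact_mod_cast h1
  have hl2 : ∀ Q : Finset (Fin r → ℕ), (((P.powerset.filter fun A => cnt χ A ∈ Q).filter
      fun A => τ A = θ ∧ A ∈ S).card : ℝ) = ∑ c ∈ Q, n2 c := by
    intro Q
    have h1 := lev_card χ P Q (fun A => τ A = θ ∧ A ∈ S)
    simp only [n2]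
    exact_mod_cast h1
  have hn20 : ∀ c, n2 c ≤ n0 c := by
    intro c
    simp only [n2, n0]
    exact_mod_cast card_filter_le _ _
  have hn0 : ∀ c, 0 ≤ n0 c := fun c => Nat.cast_nonneg _
  have hn1 : ∀ c, 0 ≤ n1 c := fun c => Nat.cast_nonneg _
  set R' : Finset (Fin r → ℕ) :=
    R.filter fun c => (1 / 2 + η / 2) * n1 c + β / 2 * n0 c ≤ n2 c with hR'
  have hle2 : ∀ Q : Finset (Fin r → ℕ),
      ((P.powerset.filter fun A => cnt χ A ∈ Q).card : ℝ) ≤ 2 ^ P.card := by
    intro Q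
    have : (P.powerset.filter fun A => cnt χ A ∈ Q).card ≤ 2 ^ P.card := by
      rw [← card_powerset]
      exact card_filter_le _ _
    exact_mod_cast this
  have hR'c : β / 2 * 2 ^ P.card ≤ ((P.powerset.filter fun A => cnt χ A ∈ R').card : ℝ) := by
    have e1 : (((F.filter fun A => A ∈ S).filter fun A => τ A = θ).card : ℝ) = ∑ c ∈ R, n2 c := by
      rw [← hl2 R]
      congr 2
      have h1 := hFR
      ext A
      have h2 : A ∈ Fθ ↔ A ∈ (P.powerset.filter (fun A => cnt χ A ∈ R)).filter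
          (fun A => τ A = θ) := by rw [h1]
      rw [hFθ] at h2
      simp only [mem_filter] at h2 ⊢
      tauto
    have e2 : (Fθ.card : ℝ) = ∑ c ∈ R, n1 c := by
      rw [← hl1 R, hFR]
    have e3 : ∑ c ∈ R', n0 c = ∑ c ∈ R, if c ∈ R' then n0 c else 0 := by
      rw [← sum_filter]
      refine sum_congr ?_ fun _ _ => rfl
      ext c
      simp only [hR', mem_filter]
      tauto
    have h1 : ∑ c ∈ R, n2 c ≤ ∑ c ∈ R, ((if c ∈ R' then n0 c else 0) +
        ((1 / 2 + η / 2) * n1 c + β / 2 * n0 c)) := by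
      refine sum_le_sum fun c hc => ?_
      have h0 : (0 : ℝ) ≤ (1 / 2 + η / 2) * n1 c := mul_nonneg (by linarith) (hn1 c)
      have h0' : (0 : ℝ) ≤ β / 2 * n0 c := mul_nonneg (by linarith) (hn0 c)
      by_cases h : c ∈ R'
      · rw [if_pos h]
        linarith [hn20 c]
      · rw [if_neg h, zero_add]
        rw [hR', mem_filter, not_and] at h
        exact (not_le.1 (h hc)).le
    rw [sum_add_distrib, sum_add_distrib, ← mul_sum, ← mul_sum, ← e3, ← e2, ← e1, ← hl0 R',
      ← hl0 R] at h1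
    have h2 := mul_le_mul_of_nonneg_left (hle2 R) (by positivity : 0 ≤ β / 2)
    linarith
  have hdens : ∀ Q : Finset (Fin r → ℕ), Q ⊆ R' →
      (1 / 2 + η / 2) * (((P.powerset.filter fun A => cnt χ A ∈ Q).filter
        fun A => τ A = θ).card : ℝ) + β / 2 * ((P.powerset.filter fun A => cnt χ A ∈ Q).card : ℝ) ≤
      (((P.powerset.filter fun A => cnt χ A ∈ Q).filter fun A => τ A = θ ∧ A ∈ S).card : ℝ) := by
    intro Q hQ
    rw [hl0, hl1, hl2, mul_sum, mul_sum, ← sum_add_distrib]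
    refine sum_le_sum fun c hc => ?_
    have h1 := hQ hc
    rw [hR', mem_filter] at h1
    exact h1.2
  obtain ⟨k, hk1, hkK, hkc⟩ := hvar (Fin d → Fin N) P χ a R' ha ha0 (by
    intro i hi k hk
    refine hpsm k hk i fun hib => ?_
    rw [hbig, mem_filter] at hib
    omega) hR'c
  set p : Fin r → ℕ := pol d a k with hp
  set Q : Finset (Fin r → ℕ) := R'.filter fun c => c + p ∈ R' with hQ
  set Qp : Finset (Fin r → ℕ) := Q.image fun c => c + p with hQp
  have hQR : Q ⊆ R' := filter_subset _ _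
  have hQpR : Qp ⊆ R' := by
    intro c hc
    rw [hQp, mem_image] at hc
    obtain ⟨c', hc', rfl⟩ := hc
    rw [hQ, mem_filter] at hc'
    exact hc'.2
  have hQmem : ∀ c, c + p ∈ Qp ↔ c ∈ Q := by
    intro c
    rw [hQp, mem_image]
    constructor
    · rintro ⟨c', hc', h⟩
      have h1 : c' = c := by
        funext i
        have h2 := congrFun h i
        simp only [Pi.add_apply] at h2
        omega
      exact h1 ▸ hc'
    · exact fun h => ⟨c, h, rfl⟩
  set fQ : Finset (Finset (Fin d → Fin N)) := P.powerset.filter fun A => cnt χ A ∈ Q with hfQ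
  set fQp : Finset (Finset (Fin d → Fin N)) := P.powerset.filter fun A => cnt χ A ∈ Qp with hfQp
  have hfQc : c0 * 2 ^ P.card ≤ (fQ.card : ℝ) := by
    refine hkc.trans (le_of_eq ?_)
    congr 2
    rw [hfQ]
    ext A
    simp only [mem_filter, hQ]
  by_contra hcon
  obtain ⟨γ, hγH, hγc, hγd⟩ := blocks H m K k hHc hkK
  have hWP : ∀ j, cube d (γ j) ⊆ P := fun j => cube_mono ((hγH j).trans hHI)
  have hWc : ∀ j, (cube d (γ j)).card = k ^ d := fun j => by rw [card_cube, hγc]
  have hWd : ∀ j l, j ≠ l → Disjoint (cube d (γ j)) (cube d (γ l)) := by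
    intro j l hjl
    rw [disjoint_left]
    intro x hx hx'
    rw [mem_cube] at hx hx'
    exact disjoint_left.1 (hγd j l hjl) (hx ⟨0, hd⟩) (hx' ⟨0, hd⟩)
  have hcW : ∀ j, cnt χ (cube d (γ j)) = p := by
    intro j
    funext i
    rw [hpol (γ j) (hγH j) i, hγc]
  set gQ := fQ.filter fun A => τ A = θ with hgQ
  set gQp := fQp.filter fun A => τ A = θ with hgQp
  set SQ := fQ.filter fun A => τ A = θ ∧ A ∈ S with hSQ
  set SQp := fQp.filter fun A => τ A = θ ∧ A ∈ S with hSQp
  let Bs : Fin m → Finset (Finset (Fin d → Fin N)) := fun j =>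
    P.powerset.filter fun A => Disjoint A (cube d (γ j)) ∧ τ A ≠ τ (A ∪ cube d (γ j))
  have hcnt1 : ∀ j A, Disjoint A (cube d (γ j)) → (cnt χ (A ∪ cube d (γ j)) ∈ Qp ↔ cnt χ A ∈ Q) := by
    intro j A hA
    rw [cnt_union χ hA, hcW j, hQmem]
  have hj : ∀ j, (SQ.filter fun A => Disjoint A (cube d (γ j))).card +
      (SQp.filter fun A => cube d (γ j) ⊆ A).card ≤
      (gQ.filter fun A => Disjoint A (cube d (γ j))).card + (Bs j).card := by
    intro j
    have hinj : Set.InjOn (fun D : Finset (Fin d → Fin N) => D \ cube d (γ j))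
        (SQp.filter fun A => cube d (γ j) ⊆ A : Finset (Finset (Fin d → Fin N))) := by
      intro D hD D' hD' h
      rw [mem_coe, mem_filter] at hD hD'
      have h0 : D \ cube d (γ j) = D' \ cube d (γ j) := h
      have h1 : D \ cube d (γ j) ∪ cube d (γ j) = D' \ cube d (γ j) ∪ cube d (γ j) := by
        rw [h0]
      rwa [sdiff_union_of_subset hD.2, sdiff_union_of_subset hD'.2] at h1
    rw [← card_image_of_injOn hinj, ← card_union_of_disjoint]
    · refine le_trans (card_le_card ?_) (card_union_le _ _)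
      intro A hA
      rw [mem_union] at hA ⊢
      rcases hA with hA | hA
      · left
        rw [mem_filter] at hA ⊢
        rw [hSQ, mem_filter] at hA
        rw [hgQ, mem_filter]
        exact ⟨⟨hA.1.1, hA.1.2.1⟩, hA.2⟩
      · rw [mem_image] at hA
        obtain ⟨D, hD, rfl⟩ := hA
        rw [mem_filter, hSQp, mem_filter, hfQp, mem_filter, mem_powerset] at hD
        obtain ⟨⟨⟨hDP, hDc⟩, hDθ, -⟩, hDW⟩ := hD
        have hdis : Disjoint (D \ cube d (γ j)) (cube d (γ j)) := sdiff_disjoint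
        have hun : D \ cube d (γ j) ∪ cube d (γ j) = D := sdiff_union_of_subset hDW
        have hsub : D \ cube d (γ j) ⊆ P := sdiff_subset.trans hDP
        by_cases hτ : τ (D \ cube d (γ j)) = θ
        · left
          rw [mem_filter, hgQ, mem_filter, hfQ, mem_filter, mem_powerset]
          refine ⟨⟨⟨hsub, ?_⟩, hτ⟩, hdis⟩
          rw [← hcnt1 j _ hdis, hun]
          exact hDc
        · right
          simp only [Bs]
          rw [mem_filter, mem_powerset]
          refine ⟨hsub, hdis, ?_⟩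
          rw [hun, hDθ]
          exact hτ
    · rw [disjoint_left]
      intro A hA hA'
      rw [mem_filter, hSQ, mem_filter, hfQ, mem_filter, mem_powerset] at hA
      rw [mem_image] at hA'
      obtain ⟨D, hD, rfl⟩ := hA'
      rw [mem_filter, hSQp, mem_filter] at hD
      refine hcon ⟨_, hA.1.2.2, hA.1.1.1, γ j, (hγH j).trans hHI, ?_, hA.2, ?_⟩
      · rw [← card_pos, hγc]
        exact hk1
      · rw [sdiff_union_of_subset hD.2]
        exact hD.1.2.2
  have hj2 : ∀ j, (gQ.filter fun A => Disjoint A (cube d (γ j))).card ≤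
      (gQp.filter fun A => cube d (γ j) ⊆ A).card + (Bs j).card := by
    intro j
    have hinj : Set.InjOn (fun A : Finset (Fin d → Fin N) => A ∪ cube d (γ j))
        ((gQ.filter fun A => Disjoint A (cube d (γ j))) \ Bs j :
          Finset (Finset (Fin d → Fin N))) := by
      intro A hA A' hA' h
      rw [mem_coe, mem_sdiff, mem_filter] at hA hA'
      have h0 : A ∪ cube d (γ j) = A' ∪ cube d (γ j) := h
      have h1 : (A ∪ cube d (γ j)) \ cube d (γ j) = (A' ∪ cube d (γ j)) \ cube d (γ j) := by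
        rw [h0]
      rwa [union_sdiff_right, union_sdiff_right, hA.1.2.sdiff_eq_left, hA'.1.2.sdiff_eq_left] at h1
    have h1 : ((gQ.filter fun A => Disjoint A (cube d (γ j))) \ Bs j).card ≤
        (gQp.filter fun A => cube d (γ j) ⊆ A).card := by
      refine card_le_card_of_injOn _ ?_ hinj
      intro A hA
      rw [mem_coe, mem_sdiff, mem_filter, hgQ, mem_filter, hfQ, mem_filter, mem_powerset] at hA
      obtain ⟨⟨⟨⟨hAP, hAc⟩, hAθ⟩, hAd⟩, hAB⟩ := hA
      rw [mem_coe, mem_filter, hgQp, mem_filter, hfQp, mem_filter, mem_powerset]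
      refine ⟨⟨⟨union_subset hAP (hWP j), (hcnt1 j A hAd).2 hAc⟩, ?_⟩, subset_union_right⟩
      by_contra hne
      apply hAB
      simp only [Bs]
      rw [mem_filter, mem_powerset]
      refine ⟨hAP, hAd, ?_⟩
      rw [hAθ]
      exact fun h => hne h.symm
    have h2 := card_le_card_sdiff_add_card (s := gQ.filter fun A => Disjoint A (cube d (γ j)))
      (t := Bs j)
    omega
  have hsub : ∀ A ∈ fQ, A ⊆ P := by
    intro A hA
    rw [hfQ, mem_filter, mem_powerset] at hA
    exact hA.1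
  have hsubp : ∀ A ∈ fQp, A ⊆ P := by
    intro A hA
    rw [hfQp, mem_filter, mem_powerset] at hA
    exact hA.1
  have c1 := (hCONC (Fin d → Fin N) P (k ^ d) m (fun j => cube d (γ j)) hWP hWc hWd SQ
    (fun A hA => hsub A (mem_of_mem_filter A hA))).1
  have c2 := (hCONC (Fin d → Fin N) P (k ^ d) m (fun j => cube d (γ j)) hWP hWc hWd SQp
    (fun A hA => hsubp A (mem_of_mem_filter A hA))).2
  have c3 := (hCONC (Fin d → Fin N) P (k ^ d) m (fun j => cube d (γ j)) hWP hWc hWd gQ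
    (fun A hA => hsub A (mem_of_mem_filter A hA))).1
  have c4 := (hCONC (Fin d → Fin N) P (k ^ d) m (fun j => cube d (γ j)) hWP hWc hWd gQp
    (fun A hA => hsubp A (mem_of_mem_filter A hA))).2
  -- the changes of the pattern
  have hBsum : ∑ j, ((Bs j).card : ℝ) ≤ κ * (2 ^ P.card * √((m : ℝ) * (k ^ d : ℕ))) := by
    have h1 : ∀ j, ((Bs j).card : ℝ) ≤ ∑ i : Fin κ, ((P.powerset.filter fun A =>
        Disjoint A (cube d (γ j)) ∧ ¬ (U i A ↔ U i (A ∪ cube d (γ j)))).card : ℝ) := by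
      intro j
      have h2 : Bs j ⊆ univ.biUnion fun i : Fin κ => P.powerset.filter fun A =>
          Disjoint A (cube d (γ j)) ∧ ¬ (U i A ↔ U i (A ∪ cube d (γ j))) := by
        intro A hA
        simp only [Bs] at hA
        rw [mem_filter] at hA
        obtain ⟨hAP, hAd, hAτ⟩ := hA
        rw [mem_biUnion]
        by_contra hno
        apply hAτ
        funext i
        simp only [τ]
        rw [decide_eq_decide]
        by_contra h4
        exact hno ⟨i, mem_univ i, mem_filter.2 ⟨hAP, hAd, h4⟩⟩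
      have h3 := (card_le_card h2).trans card_biUnion_le
      exact_mod_cast h3
    calc ∑ j, ((Bs j).card : ℝ) ≤ ∑ j, ∑ i : Fin κ, ((P.powerset.filter fun A =>
          Disjoint A (cube d (γ j)) ∧ ¬ (U i A ↔ U i (A ∪ cube d (γ j)))).card : ℝ) :=
          sum_le_sum fun j _ => h1 j
      _ = ∑ i : Fin κ, ∑ j, ((P.powerset.filter fun A =>
          Disjoint A (cube d (γ j)) ∧ ¬ (U i A ↔ U i (A ∪ cube d (γ j)))).card : ℝ) := sum_comm
      _ ≤ ∑ _i : Fin κ, 2 ^ P.card * √((m : ℝ) * (k ^ d : ℕ)) :=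
          sum_le_sum fun i _ => hBLK (Fin d → Fin N) P (U i) (hU i) (k ^ d) m
            (fun j => cube d (γ j)) hWP hWc hWd
      _ = κ * (2 ^ P.card * √((m : ℝ) * (k ^ d : ℕ))) := by
          rw [sum_const, card_univ, Fintype.card_fin, nsmul_eq_mul]
  have hjs : ∑ j, (((SQ.filter fun A => Disjoint A (cube d (γ j))).card : ℕ) : ℝ) +
      ∑ j, (((SQp.filter fun A => cube d (γ j) ⊆ A).card : ℕ) : ℝ) ≤
      ∑ j, (((gQ.filter fun A => Disjoint A (cube d (γ j))).card : ℕ) : ℝ) +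
        ∑ j, ((Bs j).card : ℝ) := by
    rw [← sum_add_distrib, ← sum_add_distrib]
    refine sum_le_sum fun j _ => ?_
    exact_mod_cast hj j
  have hjs2 : ∑ j, (((gQ.filter fun A => Disjoint A (cube d (γ j))).card : ℕ) : ℝ) ≤
      ∑ j, (((gQp.filter fun A => cube d (γ j) ⊆ A).card : ℕ) : ℝ) + ∑ j, ((Bs j).card : ℝ) := by
    rw [← sum_add_distrib]
    refine sum_le_sum fun j _ => ?_
    exact_mod_cast hj2 j
  have h2w : (0 : ℝ) < 2 ^ (k ^ d) := by positivity
  have hjs' := mul_le_mul_of_nonneg_left hjs h2w.le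
  have hjs2' := mul_le_mul_of_nonneg_left hjs2 h2w.le
  rw [mul_add, mul_add] at hjs'
  rw [mul_add] at hjs2'
  have d1 := (abs_le.1 c1).1
  have d2 := (abs_le.1 c2).1
  have d3 := (abs_le.1 c3).2
  have d3' := (abs_le.1 c3).1
  have d4 := (abs_le.1 c4).2
  have e1 := hdens Q hQR
  have e2 := hdens Qp hQpR
  rw [← hfQ, ← hSQ, ← hgQ] at e1
  rw [← hfQp, ← hSQp, ← hgQp] at e2
  have hwK : k ^ d ≤ K ^ d := Nat.pow_le_pow_left hkK d
  have h2wK : (2 : ℝ) ^ (k ^ d) ≤ 2 ^ (K ^ d) := pow_le_pow_right₀ (by norm_num) hwK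
  set sm : ℝ := √(m : ℝ) with hsm
  have hsm0 : 0 < sm := Real.sqrt_pos.2 hm0
  have hsmm : sm * sm = m := Real.mul_self_sqrt hm0.le
  set X := √((m : ℝ) * 2 ^ (k ^ d)) with hX
  have hXle : X ≤ sm * √(2 ^ (K ^ d)) := by
    rw [hX, Real.sqrt_mul hm0.le]
    exact mul_le_mul_of_nonneg_left (Real.sqrt_le_sqrt h2wK) hsm0.le
  set Y : ℝ := 2 ^ (k ^ d) * ∑ j, ((Bs j).card : ℝ) with hY
  have hY0 : 0 ≤ Y := mul_nonneg h2w.le (sum_nonneg fun _ _ => Nat.cast_nonneg _)
  have hYle : Y ≤ 2 ^ P.card * (sm * (2 ^ (K ^ d) * (κ * √((K : ℝ) ^ d)))) := by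
    have h1 : √((m : ℝ) * (k ^ d : ℕ)) ≤ sm * √((K : ℝ) ^ d) := by
      rw [Real.sqrt_mul hm0.le]
      refine mul_le_mul_of_nonneg_left (Real.sqrt_le_sqrt ?_) hsm0.le
      exact_mod_cast hwK
    calc Y ≤ 2 ^ (K ^ d) * (κ * (2 ^ P.card * √((m : ℝ) * (k ^ d : ℕ)))) := by
          rw [hY]
          exact mul_le_mul h2wK hBsum (sum_nonneg fun _ _ => Nat.cast_nonneg _)
            (pow_nonneg (by norm_num) _)
      _ ≤ 2 ^ (K ^ d) * (κ * (2 ^ P.card * (sm * √((K : ℝ) ^ d)))) :=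
          mul_le_mul_of_nonneg_left (mul_le_mul_of_nonneg_left
            (mul_le_mul_of_nonneg_left h1 h2P.le) (Nat.cast_nonneg _)) (pow_nonneg (by norm_num) _)
      _ = _ := by ring
  have s1 : (m : ℝ) * (SQ.card : ℝ) + m * (SQp.card : ℝ) ≤ m * (gQ.card : ℝ) +
      3 * (2 ^ P.card * X) + Y := by linarith
  have s2 : (m : ℝ) * (gQ.card : ℝ) ≤ m * (gQp.card : ℝ) + 2 * (2 ^ P.card * X) + Y := by linarith
  have s3 : (1 / 2 + η / 2) * (m * (gQ.card : ℝ)) + m * (β / 2 * (fQ.card : ℝ)) ≤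
      m * (SQ.card : ℝ) := by
    have := mul_le_mul_of_nonneg_left e1 hm0.le
    linarith
  have s4 : (1 / 2 + η / 2) * (m * (gQp.card : ℝ)) ≤ m * (SQp.card : ℝ) := by
    have h1 : 0 ≤ β / 2 * (fQp.card : ℝ) := mul_nonneg (by linarith) (Nat.cast_nonneg _)
    have h2 : (1 / 2 + η / 2) * (gQp.card : ℝ) ≤ (SQp.card : ℝ) := by linarith
    have := mul_le_mul_of_nonneg_left h2 hm0.le
    linarith
  have hE0 : 0 ≤ 2 ^ P.card * X := mul_nonneg h2P.le (Real.sqrt_nonneg _)
  have s5 : (1 / 2 + η / 2) * (m * (gQ.card : ℝ)) - (2 * (2 ^ P.card * X) + Y) ≤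
      (1 / 2 + η / 2) * (m * (gQp.card : ℝ)) := by
    have h1 := mul_le_mul_of_nonneg_left s2 (by linarith : 0 ≤ 1 / 2 + η / 2)
    have h2 : 0 ≤ (1 / 2 - η / 2) * (2 * (2 ^ P.card * X) + Y) :=
      mul_nonneg (by linarith) (by linarith)
    linarith
  have s6 : (m : ℝ) * (β / 2 * (fQ.card : ℝ)) ≤ 5 * (2 ^ P.card * X) + 2 * Y := by
    have h1 : 0 ≤ η * (m * (gQ.card : ℝ)) :=
      mul_nonneg hη.le (mul_nonneg hm0.le (Nat.cast_nonneg _))
    linarith
  have s7 : 2 ^ P.card * (sm * (sm * (β / 2 * c0))) ≤ 2 ^ P.card * (sm * Z) := by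
    have h1 : β / 2 * (c0 * 2 ^ P.card) ≤ β / 2 * (fQ.card : ℝ) :=
      mul_le_mul_of_nonneg_left hfQc (by linarith)
    have h2 := mul_le_mul_of_nonneg_left h1 hm0.le
    have h3 := mul_le_mul_of_nonneg_left hXle h2P.le
    have h4 : 2 ^ P.card * (sm * (sm * (β / 2 * c0))) = m * (β / 2 * (c0 * 2 ^ P.card)) := by
      rw [← hsmm]
      ring
    have h5 : 2 ^ P.card * (sm * Z) = 5 * (2 ^ P.card * (sm * √(2 ^ (K ^ d)))) +
        2 * (2 ^ P.card * (sm * (2 ^ (K ^ d) * (κ * √((K : ℝ) ^ d))))) := by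
      rw [hZ]
      ring
    rw [h4, h5]
    linarith
  have s8 := le_of_mul_le_mul_left (le_of_mul_le_mul_left s7 h2P) hsm0
  linarith

end Pool.Agent.J6H96.CF
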