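import Pool.Agent.J6H96.CF.Core

/-!
Families which depend on boundedly many counts for fixed contents of the other cells.
-/

set_option autoImplicit false

namespace Pool.Agent.J6H96.CF

open Finset

theorem main (hRAM : S_RAM) (hSAR : S_SAR) (hSHS : S_SHS) (d : ℕ) (hd : 1 ≤ d) (r : ℕ) (δ : ℝ)
    (hδ : 0 < δ) :
    ∃ ε : ℝ, 0 < ε ∧ ∃ M : ℕ, ∀ (N : ℕ) (I : Finset (Fin N)), M ≤ I.card →
      ∀ (χ : Finset (Fin d → Fin N) → (Fin d → Fin N) → Fin r)
        (F S : Finset (Finset (Fin d → Fin N))),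
        (∀ C A B, Disjoint C (cube d I) → A ⊆ cube d I → B ⊆ cube d I →
          cnt (χ C) A = cnt (χ C) B → A ∪ C ∈ F → B ∪ C ∈ F) →
        δ * 2 ^ (N ^ d) ≤ (F.card : ℝ) → ((F \ S).card : ℝ) ≤ ε * 2 ^ (N ^ d) →
        ∃ A ∈ S, ∃ γ : Finset (Fin N), γ ⊆ I ∧ γ.Nonempty ∧
          Disjoint A (cube d γ) ∧ A ∪ cube d γ ∈ S := by
  classical
  obtain ⟨ε', hε', M, hM⟩ := core hRAM hSAR hSHS d hd r (δ / 2) (half_pos hδ)
  refine ⟨ε' * (δ / 2), by positivity, M, ?_⟩
  intro N I hI χ F S hF hFc hFS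
  set P : Finset (Fin d → Fin N) := cube d I with hP
  set Q : Finset (Fin d → Fin N) := univ \ P with hQ
  have hPQ : Disjoint P Q := disjoint_sdiff
  have hPQu : P ∪ Q = univ := union_sdiff_of_subset (subset_univ P)
  have hcard : P.card + Q.card = N ^ d := by
    rw [← card_union_of_disjoint hPQ, hPQu, card_univ, Fintype.card_fun, Fintype.card_fin,
      Fintype.card_fin]
  have hPc : P.card = I.card ^ d := card_cube d I
  let sl : Finset (Finset (Fin d → Fin N)) → Finset (Fin d → Fin N) →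
      Finset (Finset (Fin d → Fin N)) := fun G C => P.powerset.filter fun A => A ∪ C ∈ G
  have hsl : ∀ G : Finset (Finset (Fin d → Fin N)),
      (G.card : ℝ) = ∑ C ∈ Q.powerset, ((sl G C).card : ℝ) := by
    intro G
    have h1 : (G.card : ℝ) = ∑ A ∈ (P ∪ Q).powerset, if A ∈ G then (1 : ℝ) else 0 := by
      rw [hPQu, sum_boole]
      congr 2
      ext A
      simp
    rw [h1, sum_powerset_union hPQ]
    refine sum_congr rfl fun C _ => ?_
    simp only [sl]
    rw [sum_boole]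
  have hsd : ∀ C, sl F C \ sl S C = sl (F \ S) C := by
    intro C
    ext A
    simp only [sl, mem_sdiff, mem_filter]
    tauto
  obtain ⟨C, hC, hC1, hC2⟩ : ∃ C ∈ Q.powerset, δ / 2 * 2 ^ P.card ≤ ((sl F C).card : ℝ) ∧
      ((sl F C \ sl S C).card : ℝ) ≤ ε' * 2 ^ P.card := by
    by_contra hcon
    push Not at hcon
    have h1 : ∑ C ∈ Q.powerset, ((sl F C).card : ℝ) <
        ∑ C ∈ Q.powerset, (δ / 2 * 2 ^ P.card + ε'⁻¹ * ((sl (F \ S) C).card : ℝ)) := by
      refine sum_lt_sum_of_nonempty ⟨∅, empty_mem_powerset Q⟩ fun C hC => ?_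
      have h2 : (0 : ℝ) ≤ ε'⁻¹ * ((sl (F \ S) C).card : ℝ) :=
        mul_nonneg (inv_nonneg.2 hε'.le) (Nat.cast_nonneg _)
      by_cases h3 : δ / 2 * 2 ^ P.card ≤ ((sl F C).card : ℝ)
      · have h4 := hcon C hC h3
        rw [hsd C] at h4
        have h5 : ((sl F C).card : ℝ) ≤ 2 ^ P.card := by
          have : (sl F C).card ≤ 2 ^ P.card := by
            rw [← card_powerset]
            exact card_filter_le _ _
          exact_mod_cast this
        have h6 : 2 ^ P.card < ε'⁻¹ * ((sl (F \ S) C).card : ℝ) := by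
          rw [lt_inv_mul_iff₀ hε']
          exact h4
        have h7 : (0 : ℝ) ≤ δ / 2 * 2 ^ P.card := by positivity
        linarith
      · push Not at h3
        linarith
    have e1 : ∑ C ∈ Q.powerset, (δ / 2 * 2 ^ P.card + ε'⁻¹ * ((sl (F \ S) C).card : ℝ)) =
        2 ^ Q.card * (δ / 2 * 2 ^ P.card) + ε'⁻¹ * ((F \ S).card : ℝ) := by
      rw [sum_add_distrib, sum_const, card_powerset, nsmul_eq_mul, hsl (F \ S), mul_sum]
      push_cast
      rfl
    rw [← hsl F, e1] at h1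
    have h2 : (2 : ℝ) ^ (N ^ d) = 2 ^ P.card * 2 ^ Q.card := by rw [← hcard, pow_add]
    have h3 : ε'⁻¹ * ((F \ S).card : ℝ) ≤ δ / 2 * 2 ^ (N ^ d) := by
      rw [inv_mul_le_iff₀ hε']
      linarith
    rw [h2] at hFc h3
    nlinarith
  rw [mem_powerset] at hC
  have hCP : Disjoint C P := disjoint_of_subset_left hC hPQ.symm
  rw [hPc] at hC1 hC2
  obtain ⟨A, hA, hAP, γ, hγI, hγ, hdis, hAγ⟩ := hM N I hI (χ C) (sl F C) (sl S C)
    (fun A hA => by
      simp only [sl, mem_filter, mem_powerset] at hA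
      exact hA.1)
    (fun A B hA hB hAB h => by
      simp only [sl, mem_filter, mem_powerset] at h ⊢
      exact ⟨hB, hF C A B hCP hA hB hAB h.2⟩) hC1 hC2
  have hγP : cube d γ ⊆ P := cube_mono hγI
  simp only [sl, mem_filter] at hA hAγ
  refine ⟨A ∪ C, hA.2, γ, hγI, hγ, ?_, ?_⟩
  · rw [disjoint_union_left]
    exact ⟨hdis, disjoint_of_subset_right hγP hCP⟩
  · have h1 : A ∪ C ∪ cube d γ = A ∪ cube d γ ∪ C := by
      rw [union_assoc, union_comm C, ← union_assoc]
    rw [h1]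
    exact hAγ.2

end Pool.Agent.J6H96.CF
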