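import Pool.Agent.J6H96.CF.Core2

/-!
Families which depend on boundedly many counts for fixed contents of the other cells: more than half
of the family is good.
-/

set_option autoImplicit false

namespace Pool.Agent.J6H96.CF

open Finset

theorem main2 (hRAM : S_RAM) (hSAR : S_SAR) (hSHS : S_SHS) (hCONC : S_CONC) (d : ℕ) (hd : 1 ≤ d)
    (r : ℕ) (δ η : ℝ) (hδ : 0 < δ) (hη : 0 < η) :
    ∃ M : ℕ, ∀ (N : ℕ) (I : Finset (Fin N)), M ≤ I.card →
      ∀ (χ : Finset (Fin d → Fin N) → (Fin d → Fin N) → Fin r)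
        (F S : Finset (Finset (Fin d → Fin N))),
        (∀ C A B, Disjoint C (cube d I) → A ⊆ cube d I → B ⊆ cube d I →
          cnt (χ C) A = cnt (χ C) B → A ∪ C ∈ F → B ∪ C ∈ F) →
        δ * 2 ^ (N ^ d) ≤ (F.card : ℝ) →
        (1 / 2 + η) * (F.card : ℝ) ≤ ((F.filter fun A => A ∈ S).card : ℝ) →
        ∃ A ∈ S, ∃ γ : Finset (Fin N), γ ⊆ I ∧ γ.Nonempty ∧
          Disjoint A (cube d γ) ∧ A ∪ cube d γ ∈ S := by
  classical
  wlog hη1 : η ≤ 1 / 2 generalizing η with Hw
  · obtain ⟨M, hM⟩ := Hw (1 / 2) (by norm_num) le_rfl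
    refine ⟨M, fun N I hI χ F S hF hFc hFS => hM N I hI χ F S hF hFc (le_trans ?_ hFS)⟩
    exact mul_le_mul_of_nonneg_right (by linarith [not_le.1 hη1]) (Nat.cast_nonneg _)
  obtain ⟨M, hM⟩ := core2 hRAM hSAR hSHS hCONC d hd r (η / 2 * δ) (η / 2) (by positivity)
    (half_pos hη) (by linarith)
  refine ⟨M, ?_⟩
  intro N I hI χ F S hF hFc hFS
  set P : Finset (Fin d → Fin N) := cube d I with hP
  set Q : Finset (Fin d → Fin N) := univ \ P with hQ
  have hPQ : Disjoint P Q := disjoint_sdiff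
  have hPQu : P ∪ Q = univ := union_sdiff_of_subset (subset_univ P)
  have hcard : P.card + Q.card = N ^ d := by
    rw [← card_union_of_disjoint hPQ, hPQu, card_univ, Fintype.card_fun, Fintype.card_fin,
      Fintype.card_fin]
  have hPc : P.card = I.card ^ d := card_cube d I
  let sl : Finset (Finset (Fin d → Fin N)) → Finset (Fin d → Fin N) →
      Finset (Finset (Fin d → Fin N)) := fun G C => P.powerset.filter fun A => A ∪ C ∈ G
  have hsl : ∀ G : Finset (Finset (Fin d → Fin N)),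
      (G.card : ℝ) = ∑ C ∈ Q.powerset, ((sl G C).card : ℝ) := by
    intro G
    have h1 : (G.card : ℝ) = ∑ A ∈ (P ∪ Q).powerset, if A ∈ G then (1 : ℝ) else 0 := by
      rw [hPQu, sum_boole]
      congr 2
      ext A
      simp
    rw [h1, sum_powerset_union hPQ]
    refine sum_congr rfl fun C _ => ?_
    simp only [sl]
    rw [sum_boole]
  have hsd : ∀ C, ((sl F C).filter fun A => A ∈ sl S C) = sl (F.filter fun A => A ∈ S) C := by
    intro C
    ext A
    simp only [sl, mem_filter]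
    tauto
  have hle : ∀ C, ((sl (F.filter fun A => A ∈ S) C).card : ℝ) ≤ ((sl F C).card : ℝ) := by
    intro C
    rw [← hsd]
    have := card_filter_le (sl F C) (fun A => A ∈ sl S C)
    exact_mod_cast this
  obtain ⟨C, hC, hC1⟩ : ∃ C ∈ Q.powerset, (1 / 2 + η / 2) * ((sl F C).card : ℝ) +
      η / 2 * δ * 2 ^ P.card ≤ ((sl (F.filter fun A => A ∈ S) C).card : ℝ) := by
    by_contra hcon
    push Not at hcon
    have h1 : ∑ C ∈ Q.powerset, ((sl (F.filter fun A => A ∈ S) C).card : ℝ) <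
        ∑ C ∈ Q.powerset, ((1 / 2 + η / 2) * ((sl F C).card : ℝ) + η / 2 * δ * 2 ^ P.card) :=
      sum_lt_sum_of_nonempty ⟨∅, empty_mem_powerset Q⟩ hcon
    rw [← hsl, sum_add_distrib, ← mul_sum, ← hsl F, sum_const, card_powerset, nsmul_eq_mul] at h1
    push_cast at h1
    have h2 : (2 : ℝ) ^ (N ^ d) = 2 ^ P.card * 2 ^ Q.card := by rw [← hcard, pow_add]
    rw [h2] at hFc
    have h3 : η / 2 * (δ * (2 ^ P.card * 2 ^ Q.card)) ≤ η / 2 * (F.card : ℝ) :=
      mul_le_mul_of_nonneg_left hFc (by positivity)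
    nlinarith
  rw [mem_powerset] at hC
  have hCP : Disjoint C P := disjoint_of_subset_left hC hPQ.symm
  have hC2 : η / 2 * δ * 2 ^ P.card ≤ ((sl F C).card : ℝ) := by
    have h1 := hle C
    have h2 : (0 : ℝ) ≤ (1 / 2 + η / 2) * ((sl F C).card : ℝ) :=
      mul_nonneg (by linarith) (Nat.cast_nonneg _)
    linarith
  have hC3 : (1 / 2 + η / 2) * ((sl F C).card : ℝ) ≤
      (((sl F C).filter fun A => A ∈ sl S C).card : ℝ) := by
    rw [hsd]
    have h2 : (0 : ℝ) ≤ η / 2 * δ * 2 ^ P.card := by positivity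
    linarith
  rw [hPc] at hC2
  obtain ⟨A, hA, hAP, γ, hγI, hγ, hdis, hAγ⟩ := hM N I hI (χ C) (sl F C) (sl S C)
    (fun A hA => by
      simp only [sl, mem_filter, mem_powerset] at hA
      exact hA.1)
    (fun A B hA hB hAB h => by
      simp only [sl, mem_filter, mem_powerset] at h ⊢
      exact ⟨hB, hF C A B hCP hA hB hAB h.2⟩) hC2 hC3
  have hγP : cube d γ ⊆ P := cube_mono hγI
  simp only [sl, mem_filter] at hA hAγ
  refine ⟨A ∪ C, hA.2, γ, hγI, hγ, ?_, ?_⟩
  · rw [disjoint_union_left]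
    exact ⟨hdis, disjoint_of_subset_right hγP hCP⟩
  · have h1 : A ∪ C ∪ cube d γ = A ∪ cube d γ ∪ C := by
      rw [union_assoc, union_comm C, ← union_assoc]
    rw [h1]
    exact hAγ.2

end Pool.Agent.J6H96.CF
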