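import Mathlib

/-!
# Project CF (helper96): MP_90b327_co, families determined by boundedly many counts. Statements.

Target: for all `d ≥ 1`, `r`, `δ > 0` there are `ε > 0`, `N₀` such that for `N ≥ N₀` and every partition
of the cells `[N]^d` into `r` classes: if `F` is a family of at least `δ 2^(N^d)` subsets of `[N]^d` such
that membership of `A` in `F` depends only on the numbers of elements of `A` in the classes, then every
family `S` which contains all but `ε 2^(N^d)` members of `F` is good (contains `A` and `A ∪ γ^d`, disjoint).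
For one class this contains the theorem of Furstenberg and Sárközy for `k ↦ k^d`; in general it is
proved from the vector version `S_SAR`, Ramsey's theorem and the shift invariance of binomial laws.

Every module `XX` is a file with a theorem `t_XX : S_XX` (or `theorem t_XX (h1 : S_YY) ... : S_XX`).
Put your file in `Pool/Agent/J6H96/CF/XX.lean` (or in your own folder), `import Pool.Agent.J6H96.CF.Stm`.
-/

set_option autoImplicit false

namespace Pool.Agent.J6H96.CF

open Finset MeasureTheory Filter Topology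

/-- `γ^d` -/
def cube {N : ℕ} (d : ℕ) (γ : Finset (Fin N)) : Finset (Fin d → Fin N) :=
  Fintype.piFinset (fun _ : Fin d => γ)

/-- the numbers of elements of `A` in the classes of `χ` -/
def cnt {E : Type} {r : ℕ} (χ : E → Fin r) (A : Finset E) (i : Fin r) : ℕ :=
  (A.filter (fun x => χ x = i)).card

/-- the vector polynomial `k ↦ ∑_{j ≤ d} (k choose j) a_j` -/
def pol {r : ℕ} (d : ℕ) (a : ℕ → Fin r → ℕ) (k : ℕ) (i : Fin r) : ℕ :=
  ∑ j ∈ range (d + 1), k.choose j * a j i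

/-- the box `[0, M)^r` -/
def box (r M : ℕ) : Finset (Fin r → ℕ) := Fintype.piFinset (fun _ : Fin r => range M)

/-- **RAM** (no hypotheses). Proof: colour the finite sets `s ⊆ V` with at most `d` elements by
`i ↦ #{x : Fin d → Fin N | univ.image x = s ∧ χ x = i} ≤ d ^ d` (an element of `Fin r → Fin (d ^ d + 1)`),
and apply the start library theorem `Pool.Agent.H507R3.RamAll.ramsey_all` (file
`Pool/Agent/H507R3/RamAll.lean`, imports Mathlib only; Ramsey for subsets of `ℕ` of all sizes `≤ L` at once)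
with `L = d` (transfer between `Finset ℕ` and `Finset (Fin N)` by `Fin.valEmbedding` and
`univ.filter (fun x => (x : ℕ) ∈ Q)`). Then for `γ ⊆ H` the cells of `γ^d` in class `i` are sorted by their
image `s ⊆ γ`, `1 ≤ |s| ≤ d` (`Finset.card_eq_sum_card_fiberwise`): `∑_j (|γ| choose j) a_j i`;
`a 0 i = 0` as `d ≥ 1` (put `a j i = 0` for `j = 0` and for `j > d` or when there is no set of size `j`). -/
def S_RAM : Prop := ∀ (d r m : ℕ), 1 ≤ d → ∃ M : ℕ, ∀ (N : ℕ) (V : Finset (Fin N))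
  (χ : (Fin d → Fin N) → Fin r), M ≤ V.card → ∃ (H : Finset (Fin N)) (a : ℕ → Fin r → ℕ),
    H ⊆ V ∧ H.card = m ∧ (∀ j i, a j i ≤ d ^ d) ∧ (∀ i, a 0 i = 0) ∧
      ∀ γ ⊆ H, ∀ i, cnt χ (cube d γ) i = pol d a γ.card i

/-- **FC** (no hypotheses). The measure with density `|∑_{x ∈ R} e(x·θ)|² / |R|` with respect to the
Haar probability measure `volume` on the torus (`Measure.withDensity`, `ENNReal.ofReal`). Orthogonality of
the characters: `∫ mFourier n = 0` for `n ≠ 0`, `= 1` for `n = 0` (e.g. from `UnitAddTorus.orthonormal_mFourier`,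
or from invariance of `volume` under translation), `‖∑‖² = ∑_{x,y} mFourier x * conj (mFourier y)`,
`mFourier_add`, `mFourier_neg`; `integral_withDensity_eq_integral_smul` (or `..._toReal_smul`). -/
def S_FC : Prop := ∀ (r : ℕ) (R : Finset (Fin r → ℕ)), R.Nonempty →
  ∃ μ : ProbabilityMeasure (UnitAddTorus (Fin r)), ∀ n : Fin r → ℤ,
    ∫ x, UnitAddTorus.mFourier n x ∂(μ : Measure (UnitAddTorus (Fin r))) =
      ((((R ×ˢ R).filter (fun p => ∀ i, (p.1 i : ℤ) + n i = p.2 i)).card : ℕ) : ℂ) / (R.card : ℂ)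

/-- **FEJ** (no hypotheses). Cauchy-Schwarz: `∑_z f z = |R| M^r` where `f z` is the number of the pairs
`(x, v) ∈ R × box r M` with `x + v = z`, which is zero outside `box r (K + M)`, a set with `(K + M)^r` elements; and
`∑_z f z ^ 2` is the double sum (`sq_sum_le_card_mul_sum_sq`, `Fintype.card_piFinset`). -/
def S_FEJ : Prop := ∀ (r K M : ℕ) (R : Finset (Fin r → ℕ)), (∀ v ∈ R, ∀ i, v i < K) →
  (R.card : ℝ) ^ 2 * (M : ℝ) ^ (2 * r) ≤ ((K : ℝ) + M) ^ r *
    ∑ v ∈ box r M, ∑ w ∈ box r M, (((R ×ˢ R).filter (fun p => p.1 + v = p.2 + w)).card : ℝ)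

/-- **WEYL** (no hypotheses). Choose real lifts `y i` of the `x i` (`AddCircle` is a quotient of `ℝ`), so that
`mFourier n x = ee (∑ i, n i * y i)` (`UnitAddTorus.mFourier`, `fourier_coe_apply`; `ee` from the start library
file `Pool/Agent/H767R2/Weyl.lean`, namespace there, imports Mathlib only). Then
`mFourier (pol d a (m * k)) x = ee (β_m.eval k)` with `β_m = β.comp (C m * X)` where `β : ℝ[X]`,
`β = ∑_i y i ∑_j a j i * (binomial polynomial of degree j)`, `β(0) = 0` as `a 0 = 0`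
(binomial polynomial: `descPochhammer ℝ j * C (j!)⁻¹`, `Ring.choose`/`Nat.cast_choose_eq...`; or prove by
induction over `d` the existence of `β` with `β.eval k = ∑ ...` for all naturals `k` and `β.coeff 0 = 0`).
The coefficients of `β_m` are `β.coeff j * m ^ j`. If some `β.coeff j`, `j ≥ 1`, is irrational, the same holds for
all `β_{n!}` and `weyl_poly` of that file gives the second alternative. If all are rational, all
`β.coeff j * (n!) ^ j` are integers for large `n` (`j ≥ 1`), and the first alternative holds. -/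
def S_WEYL : Prop := ∀ (d r : ℕ) (a : ℕ → Fin r → ℕ), (∀ i, a 0 i = 0) →
  ∀ x : UnitAddTorus (Fin r),
    (∃ n₀ : ℕ, ∀ n, n₀ ≤ n → ∀ k : ℕ,
      UnitAddTorus.mFourier (fun i => (pol d a (n.factorial * k) i : ℤ)) x = 1) ∨
    ∀ n : ℕ, Tendsto (fun K : ℕ => (1 / (K : ℂ)) * ∑ k ∈ range K,
      UnitAddTorus.mFourier (fun i => (pol d a (n.factorial * k) i : ℤ)) x) atTop (𝓝 0)

/-- **LIM** (hypothesis `S_WEYL`). Let `A_n` be the closed set of the `x` with
`mFourier (pol d a (m! * k)) x = 1` for all `k` and all `m ≥ n`, increasing in `n`, `A` its union, and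
`F_{n,K} x` the averages in `S_WEYL`. `∫ F_{n,K} dμ = 1 / K` (only `k = 0` contributes; `pol d a 0 = 0`), so it
tends to `0`. On `A_n`, `F_{n,K} = 1` (`K ≥ 1`); outside `A`, `F_{n,K} x → 0` for `K → ∞`, so
`∫_{Aᶜ} F_{n,K} → 0` (dominated convergence, `|F| ≤ 1`). Hence
`μ(A_n) ≤ |∫ F| + |∫_{Aᶜ} F| + μ(A \ A_n)`, and with `K → ∞`: `μ(A_n) ≤ μ(A \ A_n)`. With `n → ∞`:
`μ(A) ≤ 0` (continuity of measures). And `0 ∈ A`. -/
def S_LIM : Prop := ∀ (d r : ℕ) (a : ℕ → Fin r → ℕ), (∀ i, a 0 i = 0) →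
  ∀ μ : ProbabilityMeasure (UnitAddTorus (Fin r)),
    (∀ k : ℕ, 1 ≤ k → ∫ x, UnitAddTorus.mFourier (fun i => (pol d a k i : ℤ)) x
      ∂(μ : Measure (UnitAddTorus (Fin r))) = 0) →
    (μ : Measure (UnitAddTorus (Fin r))) {0} = 0

/-- **DIR** (no hypotheses). The function
`D_M x = M^(-2r) ∑_{v,w ∈ box r M} mFourier (v - w) x = ∏_i |M⁻¹ ∑_{t < M} e(t x_i)|²` is between `0` and `1` and tends
to `0` for `M → ∞` if `x ≠ 0` (one coordinate `x_i ≠ 0`, geometric sum bounded by `2 / |1 - e(x_i)|`), and it is `1`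
at `0`. Dominated convergence: `∫ D_M dμ → μ {0}`. -/
def S_DIR : Prop := ∀ (r : ℕ) (δ : ℝ) (μ : ProbabilityMeasure (UnitAddTorus (Fin r))),
  (∀ M : ℕ, 1 ≤ M → δ * (M : ℝ) ^ (2 * r) ≤ ∑ v ∈ box r M, ∑ w ∈ box r M,
    (∫ x, UnitAddTorus.mFourier (fun i => (v i : ℤ) - (w i : ℤ)) x
      ∂(μ : Measure (UnitAddTorus (Fin r)))).re) →
  δ ≤ ((μ : Measure (UnitAddTorus (Fin r))) {0}).toReal

/-- The vector version of the theorem of Furstenberg and Sárközy. -/
def S_SAR : Prop := ∀ (d r : ℕ) (a : ℕ → Fin r → ℕ), (∀ i, a 0 i = 0) → ∀ δ : ℝ, 0 < δ →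
  ∃ K₀ : ℕ, ∀ K : ℕ, K₀ ≤ K → ∀ R : Finset (Fin r → ℕ), (∀ v ∈ R, ∀ i, v i < K) →
    δ * (K : ℝ) ^ r ≤ R.card → ∃ k, 1 ≤ k ∧ k ≤ K ∧ ∃ v ∈ R, v + pol d a k ∈ R

/-- **SAR** (hypotheses `S_FC`, `S_FEJ`, `S_LIM`, `S_DIR`). Suppose not: for all `m` there are `K_m ≥ m + 1` and
`R_m ⊆ [0, K_m)^r`, `|R_m| ≥ δ K_m ^ r > 0`, without `v, v + pol d a k`, `1 ≤ k ≤ K_m`. Let `μ_m` be the measure
of `S_FC` for `R_m`. `ProbabilityMeasure (UnitAddTorus (Fin r))` is compact (instance in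
`Mathlib/MeasureTheory/Measure/Prokhorov.lean`), so `μ_m → μ` along the ultrafilter `hyperfilter ℕ`
(`isCompact_univ.ultrafilter_le_nhds`, applied to the image ultrafilter), and the Fourier coefficients converge
(`ProbabilityMeasure.tendsto_iff_forall_integral_rclike_tendsto ℂ`, with `BoundedContinuousFunction.mkOfCompact`).
The coefficients of `μ_m` at `pol d a k`, `1 ≤ k ≤ K_m`, are `0`, so those of `μ` are `0` and `μ {0} = 0` by
`S_LIM`. By `S_FEJ`, and as the coefficient at `v - w` is `#{(x,y) : x + v = y + w} / |R_m|`: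
`∑_{v,w} re (...) ≥ |R_m| M^(2r) / (K_m + M)^r ≥ δ (K_m / (K_m + M))^r M^(2r)`, in the limit `≥ δ M^(2r)`.
`S_DIR` gives `δ ≤ 0`, a contradiction. -/
def S_SARm : Prop := S_FC → S_FEJ → S_LIM → S_DIR → S_SAR

/-- **SHIFT** (no hypotheses). Let `n = cnt χ U i`, `U = U_i ∪ U'` (class `i` and the rest). Sum over
`A = C ∪ B`, `C ⊆ U_i`, `B ⊆ U'`; for fixed `B`, with `h j = g (cnt χ B + v + j e_i)`, the difference is
`∑_{j ≤ n} (n choose j) (h (j+1) - h j)` (`Finset.sum_powerset_apply_card`) `= ∑_{j ≤ n+1} h j ((n choose j-1) - (n choose j))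
= (n+1)⁻¹ ∑_{j ≤ n+1} h j (n+1 choose j) (2 j - (n+1))`, which is at most `(n+1)⁻¹ 2^(n+1) √(n+1)` by Cauchy-Schwarz and
`∑_j (n+1 choose j) (2 j - (n+1))² = (n+1) 2^(n+1)`. (Any other proof, e.g. with the bound
`∑_j |(n choose j-1) - (n choose j)| ≤ 2 (n choose n/2)` and `(n choose n/2) ≤ 2^n / √(n+1)`, is fine.) -/
def S_SHIFT : Prop := ∀ (E : Type) [DecidableEq E] (U : Finset E) (r : ℕ) (χ : E → Fin r)
  (g : (Fin r → ℕ) → ℝ), (∀ v, 0 ≤ g v ∧ g v ≤ 1) → ∀ (v : Fin r → ℕ) (i : Fin r),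
    |∑ A ∈ U.powerset, g (cnt χ A + v + Pi.single i 1) - ∑ A ∈ U.powerset, g (cnt χ A + v)| ≤
      2 ^ U.card * (2 / √((cnt χ U i : ℝ) + 1))

/-- **SHS** (hypothesis `S_SHIFT`). Let `w = u = v` on the coordinates outside `J` and `w = 0` on `J`; go from `w`
to `u` and from `w` to `v` by at most `r B` unit steps in directions `i ∈ J`. -/
def S_SHS : Prop := ∀ (E : Type) [DecidableEq E] (U : Finset E) (r : ℕ) (χ : E → Fin r)
  (g : (Fin r → ℕ) → ℝ), (∀ v, 0 ≤ g v ∧ g v ≤ 1) → ∀ (J : Finset (Fin r)) (n B : ℕ),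
    (∀ i ∈ J, n ≤ cnt χ U i) → ∀ u v : Fin r → ℕ, (∀ i ∈ J, u i ≤ B ∧ v i ≤ B) →
      (∀ i, i ∉ J → u i = v i) →
      |∑ A ∈ U.powerset, g (cnt χ A + u) - ∑ A ∈ U.powerset, g (cnt χ A + v)| ≤
        2 ^ U.card * (4 * r * B / √((n : ℝ) + 1))

end Pool.Agent.J6H96.CF
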