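import Pool.Agent.J6H96.CF.Core

/-!
Families determined by boundedly many counts: many members whose counts can be shifted.
-/

set_option autoImplicit false

namespace Pool.Agent.J6H96.CF

open Finset

theorem var (hSAR : S_SAR) (hSHS : S_SHS) (d r : ℕ) (δ : ℝ) (hδ : 0 < δ) :
    ∃ (K nb : ℕ) (c : ℝ), 1 ≤ K ∧ 0 < c ∧ ∀ (E : Type) [DecidableEq E] (P : Finset E)
      (χ : E → Fin r) (a : ℕ → Fin r → ℕ) (R : Finset (Fin r → ℕ)),
      (∀ j i, a j i ≤ d ^ d) → (∀ i, a 0 i = 0) →
      (∀ i, cnt χ P i < nb → ∀ k ≤ K, pol d a k i = 0) →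
      δ * 2 ^ P.card ≤ ((P.powerset.filter fun A => cnt χ A ∈ R).card : ℝ) →
      ∃ k, 1 ≤ k ∧ k ≤ K ∧ c * 2 ^ P.card ≤
        ((P.powerset.filter fun A => cnt χ A ∈ R ∧ cnt χ A + pol d a k ∈ R).card : ℝ) := by
  classical
  choose K0 hK0 using fun a : Fin (d + 1) → Fin r → Fin (d ^ d + 1) =>
    hSAR d r (extc a) (fun i => by simp [extc]) (δ / 2) (half_pos hδ)
  set K : ℕ := univ.sup K0 + 1 with hK
  have hKK : ∀ a, K0 a ≤ K := fun a => (le_sup (mem_univ a)).trans (Nat.le_succ _)
  have hK1 : 1 ≤ K := Nat.succ_le_succ (Nat.zero_le _)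
  set w0 : ℕ := r * K with hw0
  set Bd : ℕ := w0 + K with hBd
  obtain ⟨n, hn⟩ : ∃ n : ℕ, 4 * (r : ℝ) * Bd / √((n : ℝ) + 1) ≤ δ / 8 := by
    obtain ⟨n, hn⟩ := exists_nat_gt ((4 * (r : ℝ) * Bd / (δ / 8)) ^ 2)
    refine ⟨n, ?_⟩
    have h1 : 4 * (r : ℝ) * Bd / (δ / 8) ≤ √((n : ℝ) + 1) := by
      apply Real.le_sqrt_of_sq_le
      linarith
    have h2 : 0 < √((n : ℝ) + 1) := Real.sqrt_pos.2 (by positivity)
    rw [div_le_iff₀ h2]
    rw [div_le_iff₀ (by positivity)] at h1
    linarith
  set nb : ℕ := n + w0 with hnb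
  have hKR : (0 : ℝ) < K := by exact_mod_cast hK1
  refine ⟨K, nb, 3 / 8 * δ / 2 ^ w0 / K, hK1, by positivity, ?_⟩
  intro E _ P χ a R ha ha0 hsm hFc
  set big : Finset (Fin r) := univ.filter fun i => nb ≤ cnt χ P i with hbig
  -- the auxiliary cells
  have hT : ∀ i : Fin r, ∃ T : Finset E, T ⊆ P.filter
      (fun x => χ x = i) ∧ T.card = if i ∈ big then K else 0 := by
    intro i
    by_cases hi : i ∈ big
    · simp only [if_pos hi]
      refine exists_subset_card_eq ?_
      have h1 : nb ≤ cnt χ P i := by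
        rw [hbig, mem_filter] at hi
        exact hi.2
      have h4 : 1 ≤ r := by
        have := i.2
        omega
      have h5 : K ≤ r * K := Nat.le_mul_of_pos_left K h4
      unfold cnt at h1
      omega
    · simp only [if_neg hi]
      exact ⟨∅, empty_subset _, card_empty⟩
  choose T hT1 hT2 using hT
  have hτ : ∀ (i : Fin r) (t : ℕ), ∃ s ⊆ T i, t ≤ (T i).card → s.card = t := by
    intro i t
    by_cases ht : t ≤ (T i).card
    · obtain ⟨s, hs, hs'⟩ := exists_subset_card_eq ht
      exact ⟨s, hs, fun _ => hs'⟩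
    · exact ⟨∅, empty_subset _, fun h => absurd h ht⟩
  choose τ hτ1 hτ2 using hτ
  set W : Finset E := univ.biUnion T with hW
  set U : Finset E := P \ W with hU
  have hWI : W ⊆ P := by
    rw [hW, biUnion_subset]
    exact fun i _ => (hT1 i).trans (filter_subset _ _)
  have hUW : Disjoint U W := sdiff_disjoint
  have hUWI : U ∪ W = P := sdiff_union_of_subset hWI
  have hWc : W.card ≤ w0 := by
    rw [hw0]
    refine card_biUnion_le.trans ?_
    calc ∑ i : Fin r, (T i).card ≤ ∑ _i : Fin r, K := by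
          refine sum_le_sum fun i _ => ?_
          rw [hT2]
          split_ifs
          · exact le_rfl
          · exact Nat.zero_le _
      _ = r * K := by rw [sum_const, card_univ, Fintype.card_fin, smul_eq_mul]
  have hWbig : ∀ x ∈ W, χ x ∈ big := by
    intro x hx
    rw [hW, mem_biUnion] at hx
    obtain ⟨i, -, hi⟩ := hx
    have h1 := hT1 i hi
    rw [mem_filter] at h1
    rw [h1.2]
    by_contra hcon
    have h2 := hT2 i
    rw [if_neg hcon, card_eq_zero] at h2
    rw [h2] at hi
    exact notMem_empty _ hi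
  have hcard : U.card + W.card = P.card := by
    rw [← hUWI, card_union_of_disjoint hUW]
  -- the sets with given counts
  let X : (Fin r → ℕ) → Finset E := fun v =>
    univ.biUnion fun i => if i ∈ big then τ i (v i) else ∅
  let bp : (Fin r → ℕ) → Fin r → ℕ := fun v i => if i ∈ big then v i else 0
  have hXT : ∀ v, X v ⊆ W := by
    intro v x hx
    rw [mem_biUnion] at hx
    obtain ⟨i, -, hi⟩ := hx
    split_ifs at hi with h
    · rw [hW, mem_biUnion]
      exact ⟨i, mem_univ i, hτ1 _ _ hi⟩
    · exact absurd hi (notMem_empty _)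
  have hXc : ∀ v ∈ box r K, cnt χ (X v) = bp v := by
    intro v hv
    funext i
    unfold box at hv
    rw [Fintype.mem_piFinset] at hv
    have hvi := hv i
    rw [mem_range] at hvi
    have h1 : (X v).filter (fun x => χ x = i) = if i ∈ big then τ i (v i) else ∅ := by
      ext x
      rw [mem_filter, mem_biUnion]
      constructor
      · rintro ⟨⟨j, -, hj⟩, hx⟩
        split_ifs at hj with h
        · have h2 := hT1 j (hτ1 _ _ hj)
          rw [mem_filter] at h2
          have h3 : j = i := by rw [← h2.2, hx]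
          subst h3
          rw [if_pos h]
          exact hj
        · exact absurd hj (notMem_empty _)
      · intro hx
        refine ⟨⟨i, mem_univ i, hx⟩, ?_⟩
        split_ifs at hx with h
        · have h2 := hT1 i (hτ1 _ _ hx)
          rw [mem_filter] at h2
          exact h2.2
        · exact absurd hx (notMem_empty _)
    change ((X v).filter (fun x => χ x = i)).card = if i ∈ big then v i else 0
    rw [h1]
    split_ifs with h
    · exact hτ2 i (v i) (by rw [hT2, if_pos h]; exact hvi.le)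
    · exact card_empty
  let g : (Fin r → ℕ) → ℝ := fun v => if v ∈ R then 1 else 0
  have hg : ∀ v, 0 ≤ g v ∧ g v ≤ 1 := by
    intro v
    simp only [g]
    split_ifs <;> norm_num
  let f : (Fin r → ℕ) → ℝ := fun u => ∑ B ∈ U.powerset, g (cnt χ B + u)
  have hsum : ((P.powerset.filter fun A => cnt χ A ∈ R).card : ℝ) =
      ∑ C ∈ W.powerset, f (cnt χ C) := by
    have h1 : ((P.powerset.filter fun A => cnt χ A ∈ R).card : ℝ) =
        ∑ A ∈ (U ∪ W).powerset, g (cnt χ A) := by
      rw [hUWI]
      simp only [g]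
      rw [sum_boole]
    rw [h1, sum_powerset_union hUW]
    refine sum_congr rfl fun C hC => sum_congr rfl fun B hB => ?_
    rw [mem_powerset] at hB hC
    rw [cnt_union χ (disjoint_of_subset_left hB (disjoint_of_subset_right hC hUW))]
  have h2U : (0 : ℝ) < 2 ^ U.card := by positivity
  obtain ⟨C0, hC0, hfC⟩ : ∃ C ∈ W.powerset, δ * 2 ^ U.card ≤ f (cnt χ C) := by
    by_contra hcon
    push Not at hcon
    have h1 : ∑ C ∈ W.powerset, f (cnt χ C) < ∑ _C ∈ W.powerset, δ * 2 ^ U.card :=
      sum_lt_sum_of_nonempty ⟨∅, empty_mem_powerset W⟩ hcon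
    rw [← hsum, sum_const, card_powerset, nsmul_eq_mul] at h1
    rw [← hcard, pow_add] at hFc
    push_cast at h1
    nlinarith
  rw [mem_powerset] at hC0
  -- comparison of the shifts
  have hcmp : ∀ v ∈ box r K, 7 / 8 * δ * 2 ^ U.card ≤ f (bp v) := by
    intro v hv
    unfold box at hv
    rw [Fintype.mem_piFinset] at hv
    have h1 := hSHS E U r χ g hg big n Bd (by
      intro i hi
      have h2 : nb ≤ cnt χ P i := by
        rw [hbig, mem_filter] at hi
        exact hi.2
      have h3 : cnt χ P i = cnt χ U i + cnt χ W i := by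
        rw [← hUWI, cnt_union χ hUW, Pi.add_apply]
      have h4 := cnt_le χ W i
      omega) (cnt χ C0) (bp v) (by
      intro i hi
      constructor
      · have h2 := (cnt_le χ C0 i).trans (card_le_card hC0)
        omega
      · have h2 := hv i
        rw [mem_range] at h2
        simp only [bp, if_pos hi]
        omega) (by
      intro i hi
      simp only [bp, if_neg hi]
      unfold cnt
      rw [card_eq_zero, filter_eq_empty_iff]
      intro x hx hxi
      exact hi (hxi ▸ hWbig x (hC0 hx)))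
    have h2 : 2 ^ U.card * (4 * (r : ℝ) * Bd / √((n : ℝ) + 1)) ≤ 2 ^ U.card * (δ / 8) :=
      mul_le_mul_of_nonneg_left hn h2U.le
    have h3 := (abs_le.1 h1).2
    simp only [f] at hfC ⊢
    nlinarith
  -- many contents
  let RB : Finset E → Finset (Fin r → ℕ) := fun B =>
    (box r K).filter fun v => cnt χ B + bp v ∈ R
  have hbox : (box r K).card = K ^ r := by
    unfold box
    rw [Fintype.card_piFinset, prod_const, card_univ, Fintype.card_fin, card_range]
  have hdbl : ∑ B ∈ U.powerset, ((RB B).card : ℝ) = ∑ v ∈ box r K, f (bp v) := by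
    simp only [RB, f, g]
    rw [sum_comm]
    refine sum_congr rfl fun B _ => ?_
    rw [sum_boole]
  set BB : Finset (Finset E) :=
    U.powerset.filter fun B => δ / 2 * (K : ℝ) ^ r ≤ ((RB B).card : ℝ) with hBB
  have hKr : (0 : ℝ) < (K : ℝ) ^ r := by
    positivity
  have hBBc : 3 / 8 * δ * 2 ^ U.card ≤ (BB.card : ℝ) := by
    have h1 : ∑ v ∈ box r K, f (bp v) ≥ (K : ℝ) ^ r * (7 / 8 * δ * 2 ^ U.card) := by
      calc ∑ v ∈ box r K, f (bp v) ≥ ∑ _v ∈ box r K, 7 / 8 * δ * 2 ^ U.card :=
            sum_le_sum hcmp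
        _ = (K : ℝ) ^ r * (7 / 8 * δ * 2 ^ U.card) := by
            rw [sum_const, hbox, nsmul_eq_mul]
            push_cast
            ring
    have h2 : ∑ B ∈ U.powerset, ((RB B).card : ℝ) ≤
        ∑ B ∈ U.powerset, ((if B ∈ BB then (K : ℝ) ^ r else 0) + δ / 2 * (K : ℝ) ^ r) := by
      refine sum_le_sum fun B hB => ?_
      have h3 : ((RB B).card : ℝ) ≤ (K : ℝ) ^ r := by
        have : (RB B).card ≤ K ^ r := by
          rw [← hbox]
          exact card_filter_le _ _
        exact_mod_cast this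
      by_cases hb : B ∈ BB
      · rw [if_pos hb]
        have : 0 ≤ δ / 2 * (K : ℝ) ^ r := by positivity
        linarith
      · rw [if_neg hb, zero_add]
        rw [hBB, mem_filter, not_and] at hb
        exact (not_le.1 (hb hB)).le
    have h4 : ∑ B ∈ U.powerset, ((if B ∈ BB then (K : ℝ) ^ r else 0) + δ / 2 * (K : ℝ) ^ r) =
        (BB.card : ℝ) * (K : ℝ) ^ r + 2 ^ U.card * (δ / 2 * (K : ℝ) ^ r) := by
      rw [sum_add_distrib, sum_const, card_powerset, nsmul_eq_mul, ← sum_filter]
      have h5 : U.powerset.filter (fun B => B ∈ BB) = BB := by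
        ext B
        rw [mem_filter]
        constructor
        · exact fun h => h.2
        · intro h
          refine ⟨?_, h⟩
          rw [hBB, mem_filter] at h
          exact h.1
      rw [h5, sum_const, nsmul_eq_mul]
      push_cast
      rfl
    rw [hdbl, h4] at h2
    have h6 : (K : ℝ) ^ r * (3 / 8 * δ * 2 ^ U.card) ≤ (K : ℝ) ^ r * (BB.card : ℝ) := by
      nlinarith
    exact le_of_mul_le_mul_left h6 hKr
  -- the coefficients
  let a' : Fin (d + 1) → Fin r → Fin (d ^ d + 1) := fun j i =>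
    ⟨a j i, Nat.lt_succ_of_le (ha j i)⟩
  have hpa : ∀ k, pol d (extc a') k = pol d a k := by
    intro k
    funext i
    unfold pol
    refine sum_congr rfl fun j hj => ?_
    rw [mem_range] at hj
    by_cases h0 : j = 0
    · subst h0
      rw [ha0]
      simp [extc]
    · simp only [extc]
      rw [dif_pos ⟨hj, h0⟩]
  have hpsm : ∀ k ≤ K, ∀ i, i ∉ big → pol d a k i = 0 := by
    intro k hk i hi
    rw [hbig, mem_filter, not_and] at hi
    exact hsm i (not_le.1 (hi (mem_univ i))) k hk
  have key : ∀ B ∈ BB, ∃ k, 1 ≤ k ∧ k ≤ K ∧ ∃ A ∈ P.powerset.filter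
      (fun A => cnt χ A ∈ R ∧ cnt χ A + pol d a k ∈ R), A ∩ U = B := by
    intro B hB
    rw [hBB, mem_filter, mem_powerset] at hB
    obtain ⟨hBU, hBR⟩ := hB
    obtain ⟨k, hk1, hkK, v, hv, hvk⟩ := hK0 a' K (hKK a') (RB B) (by
      intro v hv i
      simp only [RB] at hv
      rw [mem_filter] at hv
      have h1 := hv.1
      unfold box at h1
      rw [Fintype.mem_piFinset] at h1
      exact mem_range.1 (h1 i)) hBR
    rw [hpa k] at hvk
    simp only [RB] at hv hvk
    rw [mem_filter] at hv hvk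
    have hdX : Disjoint B (X v) := disjoint_of_subset_left hBU (disjoint_of_subset_right (hXT v) hUW)
    refine ⟨k, hk1, hkK, B ∪ X v, ?_, ?_⟩
    · rw [mem_filter, mem_powerset]
      refine ⟨union_subset (hBU.trans sdiff_subset) ((hXT v).trans hWI), ?_, ?_⟩
      · rw [cnt_union χ hdX, hXc v hv.1]
        exact hv.2
      · rw [cnt_union χ hdX, hXc v hv.1]
        have h4 : bp v + pol d a k = bp (v + pol d a k) := by
          funext i
          simp only [bp, Pi.add_apply]
          split_ifs with h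
          · rfl
          · rw [hpsm k hkK i h]
        rw [add_assoc, h4]
        exact hvk.2
    · ext x
      simp only [mem_inter, mem_union]
      constructor
      · rintro ⟨h5 | h5, h6⟩
        · exact h5
        · exact absurd (hXT v h5) (disjoint_left.1 hUW h6)
      · exact fun h5 => ⟨Or.inl h5, hBU h5⟩
  choose! kk hk1 hkK D hD1 hD2 using key
  -- one value of `k` is good for many contents
  have hpig : ∃ k, 1 ≤ k ∧ k ≤ K ∧ (BB.card : ℝ) / K ≤ ((BB.filter fun B => kk B = k).card : ℝ) := by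
    by_contra hcon
    push Not at hcon
    have h1 : BB.card = ∑ k ∈ Finset.Icc 1 K, (BB.filter fun B => kk B = k).card :=
      card_eq_sum_card_fiberwise (fun B hB => by
        rw [mem_coe] at hB
        rw [mem_coe, Finset.mem_Icc]
        exact ⟨hk1 B hB, hkK B hB⟩)
    have h2 : (BB.card : ℝ) = ∑ k ∈ Finset.Icc 1 K, ((BB.filter fun B => kk B = k).card : ℝ) := by
      exact_mod_cast h1
    have h3 : ∑ k ∈ Finset.Icc 1 K, ((BB.filter fun B => kk B = k).card : ℝ) <
        ∑ _k ∈ Finset.Icc 1 K, (BB.card : ℝ) / K := by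
      refine sum_lt_sum_of_nonempty ⟨1, Finset.mem_Icc.2 ⟨le_rfl, hK1⟩⟩ fun k hk => ?_
      rw [Finset.mem_Icc] at hk
      exact hcon k hk.1 hk.2
    rw [← h2, sum_const, Nat.card_Icc, nsmul_eq_mul] at h3
    have h4 : ((K + 1 - 1 : ℕ) : ℝ) = K := by simp
    rw [h4, mul_div_cancel₀ _ hKR.ne'] at h3
    exact lt_irrefl _ h3
  obtain ⟨k, hk1', hkK', hkc⟩ := hpig
  refine ⟨k, hk1', hkK', ?_⟩
  have hle : (BB.filter fun B => kk B = k).card ≤
      (P.powerset.filter fun A => cnt χ A ∈ R ∧ cnt χ A + pol d a k ∈ R).card := by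
    refine card_le_card_of_injOn D (fun B hB => ?_) ?_
    · rw [mem_coe, mem_filter] at hB
      have h1 := hD1 B hB.1
      rw [hB.2] at h1
      exact h1
    · intro B hB B' hB' h
      rw [mem_coe, mem_filter] at hB hB'
      rw [← hD2 B hB.1, ← hD2 B' hB'.1, h]
  have hleR : ((BB.filter fun B => kk B = k).card : ℝ) ≤
      ((P.powerset.filter fun A => cnt χ A ∈ R ∧ cnt χ A + pol d a k ∈ R).card : ℝ) := by
    exact_mod_cast hle
  refine le_trans ?_ (hkc.trans hleR)
  rw [div_mul_eq_mul_div]
  refine div_le_div_of_nonneg_right ?_ hKR.le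
  refine le_trans ?_ hBBc
  rw [← hcard, pow_add 2 U.card W.card, div_mul_eq_mul_div, div_le_iff₀ (by positivity)]
  have h2 : (2 : ℝ) ^ W.card ≤ 2 ^ w0 := pow_le_pow_right₀ (by norm_num) hWc
  have h3 : 0 ≤ 3 / 8 * δ * 2 ^ U.card := by positivity
  nlinarith

end Pool.Agent.J6H96.CF
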